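import Pool.Agent.UHU.Order

/-!
# Plane curves whose reduction is a cone
-/

set_option autoImplicit false

open IsDedekindDomain NumberField Polynomial
open scoped WithZero

namespace Pool.Agent.UHU

open Pool.Agent.Arb.DB (u_ne)

/-- Modulo the place `v` the polynomial `H` of degree at most `k` is a form of degree `k` in which
the `k`-th powers of both variables occur. -/
structure ConeAt {K : Type*} [Field K] [NumberField K] (v : HeightOneSpectrum (𝓞 K)) (k : ℕ)
    (H : MvPolynomial (Fin 2) K) : Prop where
  pos : 0 < k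
  deg : ∀ d, k < d 0 + d 1 → H.coeff d = 0
  integral : ∀ d, v.valuation K (H.coeff d) ≤ 1
  low : ∀ d, d 0 + d 1 < k → v.valuation K (H.coeff d) < 1
  left : v.valuation K (H.coeff (Finsupp.single 0 k)) = 1
  right : v.valuation K (H.coeff (Finsupp.single 1 k)) = 1

/-- the value of a polynomial in two variables -/
theorem aeval_two {K E : Type*} [Field K] [Field E] [Algebra K E] (H : MvPolynomial (Fin 2) K)
    (x y : E) : MvPolynomial.aeval ![x, y] H =
      ∑ d ∈ H.support, algebraMap K E (H.coeff d) * (x ^ d 0 * y ^ d 1) := by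
  rw [MvPolynomial.aeval_def, MvPolynomial.eval₂_eq']
  refine Finset.sum_congr rfl fun d _ => ?_
  rw [Fin.prod_univ_two]
  rfl

section
variable {E : Type*} [Field E] {w : Valuation E ℤᵐ⁰}

/-- One dominating term. -/
theorem no_dominating {ι : Type*} {s : Finset ι} {z : ι → E} {i : ι} (hi : i ∈ s)
    (h0 : z i ≠ 0) (h : ∀ j ∈ s, j ≠ i → w (z j) < w (z i)) : ∑ j ∈ s, z j ≠ 0 := by
  classical
  intro hs
  rw [← Finset.add_sum_erase s z hi] at hs
  have h1 : w (∑ j ∈ s.erase i, z j) < w (z i) :=
    Valuation.map_sum_lt w (u_ne w h0) fun j hj => h j (Finset.mem_of_mem_erase hj)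
      (Finset.ne_of_mem_erase hj)
  have h2 : z i = -∑ j ∈ s.erase i, z j := eq_neg_of_add_eq_zero_left hs
  rw [h2, Valuation.map_neg] at h1
  exact lt_irrefl _ h1

end

theorem finsupp_two_ext {d d' : Fin 2 →₀ ℕ} (h0 : d 0 = d' 0) (h1 : d 1 = d' 1) : d = d' := by
  ext i
  fin_cases i
  · exact h0
  · exact h1

variable {K : Type*} [Field K] [NumberField K]

/-- **The ratio of the coordinates outside the unit disc** is a root of unity of bounded order,
modulo the maximal ideal. -/
theorem ConeAt.ratio {v : HeightOneSpectrum (𝓞 K)} {k : ℕ} {H : MvPolynomial (Fin 2) K}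
    (h : ConeAt v k H) : ∃ o : ℕ, 0 < o ∧ ∀ (E : Type*) [Field E] [Algebra K E]
      (w : Valuation E ℤᵐ⁰) (e : ℕ), 0 < e → (∀ a : K, v.valuation K a ^ e =
        w (algebraMap K E a)) → ∀ x y : E, 1 ≤ w x → 1 ≤ w y →
        MvPolynomial.aeval ![x, y] H = 0 → w (x / y) = 1 ∧ w ((x / y) ^ o - 1) < 1 := by
  classical
  set u := v.valuation K with hu
  have hleft0 : H.coeff (Finsupp.single 0 k) ≠ 0 := by
    intro h0
    have := h.left
    rw [h0, map_zero] at this
    exact zero_ne_one this
  have hright0 : H.coeff (Finsupp.single 1 k) ≠ 0 := by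
    intro h0
    have := h.right
    rw [h0, map_zero] at this
    exact zero_ne_one this
  set S := H.support.filter fun d => d 0 + d 1 = k with hS
  set D : K[X] := ∑ d ∈ S, C (H.coeff d) * X ^ d 1 with hD
  have hDk : D.natDegree ≤ k := by
    refine natDegree_sum_le_of_forall_le _ _ fun d hd => ?_
    refine (natDegree_C_mul_X_pow_le _ _).trans ?_
    have := (Finset.mem_filter.mp hd).2
    omega
  have hDc : ∀ i, D.coeff i = ∑ d ∈ S, if i = d 1 then H.coeff d else 0 := by
    intro i
    rw [hD, finsetSum_coeff]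
    refine Finset.sum_congr rfl fun d _ => ?_
    rw [coeff_C_mul_X_pow]
  have hDint : ∀ i, u (D.coeff i) ≤ 1 := by
    intro i
    rw [hDc]
    refine Valuation.map_sum_le u fun d _ => ?_
    split_ifs
    · exact h.integral d
    · rw [map_zero]; exact zero_le
  have hDlead : u (D.coeff k) = 1 := by
    rw [hDc, Finset.sum_eq_single (Finsupp.single 1 k)]
    · rw [if_pos (by simp)]
      exact h.right
    · intro d hd hne
      rw [if_neg]
      intro hk
      apply hne
      have h1 := (Finset.mem_filter.mp hd).2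
      refine finsupp_two_ext ?_ ?_
      · simp; omega
      · simp [← hk]
    · intro hn
      exfalso
      apply hn
      rw [hS, Finset.mem_filter, MvPolynomial.mem_support_iff]
      exact ⟨hright0, by simp⟩
  obtain ⟨o, ho, hord⟩ := exists_order v hDk hDlead hDint
  refine ⟨o, ho, ?_⟩
  intro E _ _ w e he hw x y hx hy hxy
  have hx0 : x ≠ 0 := by rintro rfl; rw [map_zero] at hx; exact absurd zero_lt_one (not_lt.mpr hx)
  have hy0 : y ≠ 0 := by rintro rfl; rw [map_zero] at hy; exact absurd zero_lt_one (not_lt.mpr hy)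
  have hwx : 0 < w x := zero_lt_one.trans_le hx
  have hwy : 0 < w y := zero_lt_one.trans_le hy
  have hint : ∀ d, w (algebraMap K E (H.coeff d)) ≤ 1 := fun d => by
    rw [← hw]; exact pow_le_one₀ zero_le (h.integral d)
  have hlow : ∀ d, d 0 + d 1 < k → w (algebraMap K E (H.coeff d)) < 1 := fun d hd => by
    rw [← hw]; exact pow_lt_one₀ zero_le (h.low d hd) (by omega)
  have hdeg : ∀ d ∈ H.support, d 0 + d 1 ≤ k := by
    intro d hd
    by_contra hcon
    exact (MvPolynomial.mem_support_iff.mp hd) (h.deg d (by omega))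
  rw [aeval_two] at hxy
  -- equal absolute values
  have hval : w x = w y := by
    rcases lt_trichotomy (w x) (w y) with hlt | heq | hlt
    · exfalso
      refine no_dominating (w := w) (i := Finsupp.single 1 k)
        (MvPolynomial.mem_support_iff.mpr hright0) ?_ ?_ hxy
      · refine mul_ne_zero ?_ (mul_ne_zero (pow_ne_zero _ hx0) (pow_ne_zero _ hy0))
        rw [ne_eq, map_eq_zero]; exact hright0
      · intro d hd hne
        have h1 : w (algebraMap K E (H.coeff (Finsupp.single 1 k)) *
            (x ^ (Finsupp.single (1 : Fin 2) k) 0 * y ^ (Finsupp.single (1 : Fin 2) k) 1)) =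
            w y ^ k := by
          rw [map_mul, ← hw, h.right, one_pow, one_mul]
          simp
        rw [h1, map_mul, map_mul, map_pow, map_pow]
        have hle : w x ^ d 0 * w y ^ d 1 ≤ w y ^ (d 0 + d 1) := by
          rw [pow_add]
          exact mul_le_mul_of_nonneg_right (pow_le_pow_left₀ zero_le hlt.le _) zero_le
        rcases (hdeg d hd).lt_or_eq with h2 | h2
        · calc w (algebraMap K E (H.coeff d)) * (w x ^ d 0 * w y ^ d 1)
              < 1 * (w x ^ d 0 * w y ^ d 1) :=
                mul_lt_mul_of_pos_right (hlow d h2) (mul_pos (pow_pos hwx _) (pow_pos hwy _))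
            _ = w x ^ d 0 * w y ^ d 1 := one_mul _
            _ ≤ w y ^ (d 0 + d 1) := hle
            _ ≤ w y ^ k := pow_le_pow_right₀ hy h2.le
        · have hd0 : d 0 ≠ 0 := by
            intro h3
            apply hne
            refine finsupp_two_ext ?_ ?_
            · simp [h3]
            · simp; omega
          calc w (algebraMap K E (H.coeff d)) * (w x ^ d 0 * w y ^ d 1)
              ≤ 1 * (w x ^ d 0 * w y ^ d 1) :=
                mul_le_mul_of_nonneg_right (hint d) zero_le
            _ = w x ^ d 0 * w y ^ d 1 := one_mul _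
            _ < w y ^ d 0 * w y ^ d 1 :=
                mul_lt_mul_of_pos_right (pow_lt_pow_left₀ hlt zero_le hd0) (pow_pos hwy _)
            _ = w y ^ k := by rw [← pow_add, h2]
    · exact heq
    · exfalso
      refine no_dominating (w := w) (i := Finsupp.single 0 k)
        (MvPolynomial.mem_support_iff.mpr hleft0) ?_ ?_ hxy
      · refine mul_ne_zero ?_ (mul_ne_zero (pow_ne_zero _ hx0) (pow_ne_zero _ hy0))
        rw [ne_eq, map_eq_zero]; exact hleft0
      · intro d hd hne
        have h1 : w (algebraMap K E (H.coeff (Finsupp.single 0 k)) *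
            (x ^ (Finsupp.single (0 : Fin 2) k) 0 * y ^ (Finsupp.single (0 : Fin 2) k) 1)) =
            w x ^ k := by
          rw [map_mul, ← hw, h.left, one_pow, one_mul]
          simp
        rw [h1, map_mul, map_mul, map_pow, map_pow]
        have hle : w x ^ d 0 * w y ^ d 1 ≤ w x ^ (d 0 + d 1) := by
          rw [pow_add]
          exact mul_le_mul_of_nonneg_left (pow_le_pow_left₀ zero_le hlt.le _) zero_le
        rcases (hdeg d hd).lt_or_eq with h2 | h2
        · calc w (algebraMap K E (H.coeff d)) * (w x ^ d 0 * w y ^ d 1)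
              < 1 * (w x ^ d 0 * w y ^ d 1) :=
                mul_lt_mul_of_pos_right (hlow d h2) (mul_pos (pow_pos hwx _) (pow_pos hwy _))
            _ = w x ^ d 0 * w y ^ d 1 := one_mul _
            _ ≤ w x ^ (d 0 + d 1) := hle
            _ ≤ w x ^ k := pow_le_pow_right₀ hx h2.le
        · have hd1 : d 1 ≠ 0 := by
            intro h3
            apply hne
            refine finsupp_two_ext ?_ ?_
            · simp; omega
            · simp [h3]
          calc w (algebraMap K E (H.coeff d)) * (w x ^ d 0 * w y ^ d 1)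
              ≤ 1 * (w x ^ d 0 * w y ^ d 1) :=
                mul_le_mul_of_nonneg_right (hint d) zero_le
            _ = w x ^ d 0 * w y ^ d 1 := one_mul _
            _ < w x ^ d 0 * w x ^ d 1 :=
                mul_lt_mul_of_pos_left (pow_lt_pow_left₀ hlt zero_le hd1) (pow_pos hwx _)
            _ = w x ^ k := by rw [← pow_add, h2]
  -- the ratio
  set z := y / x with hz
  have hwz : w z = 1 := by rw [hz, map_div₀, hval, div_self hwy.ne']
  have hDz : w ((D.map (algebraMap K E)).eval z) < 1 := by
    have e1 : x ^ k * (D.map (algebraMap K E)).eval z =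
        ∑ d ∈ S, algebraMap K E (H.coeff d) * (x ^ d 0 * y ^ d 1) := by
      rw [hD, Polynomial.map_sum, eval_finsetSum, Finset.mul_sum]
      refine Finset.sum_congr rfl fun d hd => ?_
      have h1 := (Finset.mem_filter.mp hd).2
      rw [Polynomial.map_mul, map_C, Polynomial.map_pow, map_X, eval_mul, eval_C, eval_pow,
        eval_X, hz, div_pow, ← h1, pow_add]
      field_simp
    have e2 : ∑ d ∈ S, algebraMap K E (H.coeff d) * (x ^ d 0 * y ^ d 1) =
        -∑ d ∈ H.support.filter (fun d => ¬ d 0 + d 1 = k),
          algebraMap K E (H.coeff d) * (x ^ d 0 * y ^ d 1) := by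
      rw [← Finset.sum_filter_add_sum_filter_not H.support (fun d => d 0 + d 1 = k)] at hxy
      exact eq_neg_of_add_eq_zero_left hxy
    have h2 : w (x ^ k * (D.map (algebraMap K E)).eval z) < w x ^ k := by
      rw [e1, e2, Valuation.map_neg]
      refine Valuation.map_sum_lt w (pow_ne_zero _ hwx.ne') fun d hd => ?_
      obtain ⟨hd1, hd2⟩ := Finset.mem_filter.mp hd
      have h3 : d 0 + d 1 < k := lt_of_le_of_ne (hdeg d hd1) hd2
      rw [map_mul, map_mul, map_pow, map_pow, ← hval, ← pow_add]
      calc w (algebraMap K E (H.coeff d)) * w x ^ (d 0 + d 1) < 1 * w x ^ (d 0 + d 1) :=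
            mul_lt_mul_of_pos_right (hlow d h3) (pow_pos hwx _)
        _ = w x ^ (d 0 + d 1) := one_mul _
        _ ≤ w x ^ k := pow_le_pow_right₀ hx h3.le
    rw [map_mul, map_pow] at h2
    by_contra hcon
    push Not at hcon
    exact absurd h2 (not_lt.mpr (le_mul_of_one_le_right zero_le hcon))
  have h1 := hord E w e he hw z hwz hDz
  refine ⟨by rw [map_div₀, hval, div_self hwy.ne'], ?_⟩
  have hz0 : z ≠ 0 := div_ne_zero hy0 hx0
  have e3 : (x / y) ^ o - 1 = -(z ^ o - 1) / z ^ o := by
    have : x / y = z⁻¹ := by rw [hz, inv_div]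
    rw [this, inv_pow, eq_div_iff (pow_ne_zero _ hz0), sub_mul, inv_mul_cancel₀ (pow_ne_zero _ hz0)]
    ring
  rw [e3, map_div₀, Valuation.map_neg, map_pow, hwz, one_pow, div_one]
  exact h1

end Pool.Agent.UHU
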