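import Pool.Agent.UHG.MainS

/-!
# The engine for curves whose coordinates have comparable heights

If the heights of any two coordinates of the points of the curve differ by a bounded amount, the
degree bound is needed only for the linear polynomials commuting with `f^m`.
-/

set_option autoImplicit false

universe u

open NumberField Polynomial

namespace Pool.Agent.UHU

open Pool.Agent.UH (Spec abs_nonneg)
open Pool.Agent.UHG

/-- **The engine**, balanced curves. -/
theorem main_bal {K : Type u} [Field K] [NumberField K] (f : K[X]) (hf : 2 ≤ f.natDegree)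
    (m : ℕ) (hm : 0 < m) (n : ℕ) (I : Ideal (MvPolynomial (Fin n) K))
    (hI : IsNonverticalCurve I)
    (hbal : ∃ B0 : ℝ, 0 ≤ B0 ∧ ∀ P ∈ points I, ∀ i j : Fin n,
      absLogHeight₁ (P j) ≤ absLogHeight₁ (P i) + B0)
    (hS : ∃ C0 : ℕ, ∀ (E : IntermediateField K (AlgebraicClosure K)) [FiniteDimensional K E]
      (P : Fin n → AlgebraicClosure K), P ∈ points I → ∀ i j : Fin n, i ≠ j → ∀ g : K[X],
      g.natDegree = 1 → g.comp (f.comp^[m] X) = (f.comp^[m] X).comp g → ∀ r : ℕ, r < m →
      ∀ (x y : E), (x : AlgebraicClosure K) = (st f)^[r] (P i) →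
      (y : AlgebraicClosure K) = st g ((st f)^[r] (P j)) → ∀ N : ℕ,
      (st f)^[N + 1] x = (st f)^[N + 1] y → (st f)^[N] x ≠ (st f)^[N] y →
        f.natDegree ^ N ≤ C0 * Module.finrank K E) :
    ∃ B : ℝ, ∀ k : ℕ, ∀ V ∈ hyp f m n k, ¬ points I ⊆ V → ∀ P ∈ points I ∩ V,
      ∑ i, absLogHeight₁ (P i) ≤ B := by
  classical
  have hprime := hI.prime
  have halg : Algebra.IsAlgebraic ℚ (AlgebraicClosure K) := Algebra.IsAlgebraic.trans ℚ K _
  set F := f.comp^[m] X with hFdef
  have hFdeg : F.natDegree = f.natDegree ^ m := natDegree_iter f m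
  have hF2 : 2 ≤ F.natDegree := by
    rw [hFdeg]
    calc 2 ≤ f.natDegree := hf
      _ = f.natDegree ^ 1 := (pow_one _).symm
      _ ≤ f.natDegree ^ m := Nat.pow_le_pow_right (by omega) hm
  obtain ⟨C0, hC0⟩ := hS
  obtain ⟨B0, hB00, hcmp'⟩ := hbal
  have hq2 : (2 : ℝ) ≤ f.natDegree := by exact_mod_cast hf
  set q : ℝ := (f.natDegree : ℝ) with hq
  obtain ⟨δ, hδ0, hδ⟩ := iter_height (Ω := AlgebraicClosure K) f hf
  obtain ⟨ε, hε0, hε⟩ := comm_height (Ω := AlgebraicClosure K) F hF2
  have hfin := comm_finite_le (F := F) hF2 1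
  set G0 := hfin.toFinset with hG0
  -- the collisions
  have hcol : ∀ (i j : Fin n) (r : ℕ) (g : K[X]), ∃ B : ℝ, 0 ≤ B ∧ (i ≠ j → g.natDegree = 1 →
      g.comp F = F.comp g → r < m → ∀ t : ℕ,
      (st F)^[t] ((st f)^[r] (genHom I (MvPolynomial.X i))) ≠
        (st F)^[t] (st g ((st f)^[r] (genHom I (MvPolynomial.X j)))) →
      ∀ x y : AlgebraicClosure K, Spec K ((st f)^[r] (genHom I (MvPolynomial.X i)))
        (st g ((st f)^[r] (genHom I (MvPolynomial.X j)))) x y →
        (∃ P ∈ points I, x = (st f)^[r] (P i) ∧ y = st g ((st f)^[r] (P j))) →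
        (st F)^[t] x = (st F)^[t] y → absLogHeight₁ x ≤ B) := by
    intro i j r g
    by_cases hgood : i ≠ j ∧ g.natDegree = 1 ∧ g.comp F = F.comp g ∧ r < m
    · obtain ⟨hij, hg1, hgc, hrm⟩ := hgood
      obtain ⟨B, hB0, hB⟩ := collisions_bounded_S (Ω := AlgebraicClosure K) F hF2
        (fun x y => ∃ P ∈ points I, x = (st f)^[r] (P i) ∧ y = st g ((st f)^[r] (P j)))
        (C0 := C0) (by
          intro E _ x y N hxy h1 h2
          obtain ⟨P, hP, hx, hy⟩ := hxy
          rw [hFdeg, ← pow_mul]
          rw [hFdef, st_iter, ← Function.iterate_mul] at h1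
          rw [hFdef, st_iter, ← Function.iterate_mul] at h2
          have hex : ∃ n, (st f)^[n] x = (st f)^[n] y := ⟨_, h1⟩
          set n' := Nat.find hex with hn
          have hn1 := Nat.find_spec hex
          rw [← hn] at hn1
          have hlt : m * N < n' := by
            by_contra hcon
            push Not at hcon
            apply h2
            obtain ⟨r, hr⟩ : ∃ r, m * N = r + n' := ⟨m * N - n', by omega⟩
            rw [hr, Function.iterate_add_apply, Function.iterate_add_apply, hn1]
          obtain ⟨t, ht⟩ : ∃ t, n' = t + 1 := ⟨n' - 1, by omega⟩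
          have h3 : (st f)^[t] x ≠ (st f)^[t] y := Nat.find_min hex (by omega)
          rw [ht] at hn1
          exact (Nat.pow_le_pow_right (by omega) (by omega)).trans
            (hC0 E P hP i j hij g hg1 hgc r hrm x y hx hy t hn1 h3))
        (integral_expr (gen_integral hI i j) f g (by omega) r)
      exact ⟨B, hB0, fun _ _ _ _ => hB⟩
    · refine ⟨0, le_rfl, fun h1 h2 h3 h4 => absurd ⟨h1, h2, h3, h4⟩ hgood⟩
  choose Bc hBc0 hBc using hcol
  set B1 := ∑ i : Fin n, ∑ j : Fin n, ∑ r ∈ Finset.range m, ∑ g ∈ G0, Bc i j r g with hB1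
  have hB10 : 0 ≤ B1 := Finset.sum_nonneg fun i _ => Finset.sum_nonneg fun j _ =>
    Finset.sum_nonneg fun r _ => Finset.sum_nonneg fun g _ => hBc0 i j r g
  have hBcle : ∀ (i j : Fin n) (r : ℕ) (g : K[X]), r < m → g ∈ G0 → Bc i j r g ≤ B1 := by
    intro i j r g hr hg
    calc Bc i j r g ≤ ∑ g ∈ G0, Bc i j r g :=
          Finset.single_le_sum (f := fun g => Bc i j r g) (fun g _ => hBc0 i j r g) hg
      _ ≤ ∑ r ∈ Finset.range m, ∑ g ∈ G0, Bc i j r g :=
          Finset.single_le_sum (f := fun r => ∑ g ∈ G0, Bc i j r g)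
            (fun r _ => Finset.sum_nonneg fun g _ => hBc0 i j r g) (Finset.mem_range.mpr hr)
      _ ≤ ∑ j : Fin n, ∑ r ∈ Finset.range m, ∑ g ∈ G0, Bc i j r g :=
          Finset.single_le_sum (f := fun j => ∑ r ∈ Finset.range m, ∑ g ∈ G0, Bc i j r g)
            (fun j _ => Finset.sum_nonneg fun r _ => Finset.sum_nonneg fun g _ =>
              hBc0 i j r g) (Finset.mem_univ j)
      _ ≤ B1 := Finset.single_le_sum
            (f := fun i => ∑ j : Fin n, ∑ r ∈ Finset.range m, ∑ g ∈ G0, Bc i j r g)
            (fun i _ => Finset.sum_nonneg fun j _ => Finset.sum_nonneg fun r _ =>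
              Finset.sum_nonneg fun g _ => hBc0 i j r g) (Finset.mem_univ i)
  set M := 3 * δ + (B0 + 3 * δ + 4 * ε) + (B1 + δ) with hM
  have hM0 : 0 ≤ M := by positivity
  refine ⟨n * (M + B0), ?_⟩
  intro k V hV hVI P hP
  obtain ⟨hPI, hPV⟩ := hP
  -- it suffices to bound one coordinate
  have hsuff : ∀ i : Fin n, absLogHeight₁ (P i) ≤ M →
      ∑ i, absLogHeight₁ (P i) ≤ n * (M + B0) := by
    intro i hi
    calc ∑ j, absLogHeight₁ (P j) ≤ ∑ _j : Fin n, (M + B0) := by
          refine Finset.sum_le_sum fun j _ => ?_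
          have h1 := hcmp' P hPI i j
          linarith
      _ = n * (M + B0) := by
          rw [Finset.sum_const, Finset.card_univ, Fintype.card_fin, nsmul_eq_mul]
  rcases hV with ⟨i, ζ, ⟨r, hr, hper⟩, rfl⟩ | ⟨i, j, g, hij, hg1, hgc, rfl⟩
  · -- a preperiodic coordinate
    have hPi : P i = ζ := hPV
    apply hsuff i
    rw [hPi]
    have h1 := (hδ ζ k).1
    have h2 := (hδ ζ (k + r)).2
    have hper' : (st f)^[k + r] ζ = (st f)^[k] ζ := hper
    rw [hper'] at h2
    have hqk : (0 : ℝ) < q ^ k := by positivity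
    have h3 : q ^ k * (q ^ r * (absLogHeight₁ ζ - δ)) ≤ q ^ k * (absLogHeight₁ ζ + δ) := by
      rw [pow_add] at h2
      nlinarith
    have h4 := le_of_mul_le_mul_left h3 hqk
    have h5 : (2 : ℝ) ≤ q ^ r := by
      calc (2 : ℝ) ≤ q := hq2
        _ = q ^ 1 := (pow_one _).symm
        _ ≤ q ^ r := pow_le_pow_right₀ (by linarith) hr
    have h6 : absLogHeight₁ ζ ≤ 3 * δ := by
      by_contra hcon
      push Not at hcon
      nlinarith
    have h7 : 0 ≤ (B0 + 3 * δ + 4 * ε) + (B1 + δ) := by positivity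
    linarith
  · -- a collision
    have hPij : (st f)^[k] (P i) = st g ((st f)^[k] (P j)) := hPV
    have hqk : (0 : ℝ) < q ^ k := by positivity
    have hqk1 : (1 : ℝ) ≤ q ^ k := one_le_pow₀ (by linarith)
    rcases le_or_gt g.natDegree 1 with hD | hD
    · -- degree one
      have hg1' : g.natDegree = 1 := le_antisymm hD hg1
      have hgG : g ∈ G0 := by
        rw [hG0, Set.Finite.mem_toFinset]
        exact ⟨hg1, hD, hgc⟩
      apply hsuff i
      set r := k % m with hr
      set t := k / m with ht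
      have hrm : r < m := Nat.mod_lt _ hm
      have hk : k = m * t + r := (Nat.div_add_mod k m).symm
      have hsplit : ∀ {A : Type u} [CommRing A] [Algebra K A] (z : A),
          (st f)^[k] z = (st F)^[t] ((st f)^[r] z) := by
        intro A _ _ z
        rw [hFdef, st_iter, ← Function.iterate_mul, ← Function.iterate_add_apply, ← hk]
      have hcol : ∀ {A : Type u} [CommRing A] [Algebra K A] (z w : A),
          (st f)^[k] z = st g ((st f)^[k] w) ↔
          (st F)^[t] ((st f)^[r] z) = (st F)^[t] (st g ((st f)^[r] w)) := by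
        intro A _ _ z w
        rw [hsplit z, hsplit w, st_comm_iter hgc]
      have hne : (st F)^[t] ((st f)^[r] (genHom I (MvPolynomial.X i))) ≠
          (st F)^[t] (st g ((st f)^[r] (genHom I (MvPolynomial.X j)))) := by
        intro h
        apply hVI
        intro P' hP'
        have h1 := (hcol _ _).mpr h
        rw [← map_iter_st, ← map_iter_st, ← map_st] at h1
        have h2 : (st f)^[k] (MvPolynomial.X i : MvPolynomial (Fin n) K) -
            st g ((st f)^[k] (MvPolynomial.X j)) ∈ I := by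
          apply genHom_eq_zero
          rw [map_sub, h1, sub_self]
        have h3 := hP' _ h2
        rw [map_sub, map_iter_st, map_st, map_iter_st, MvPolynomial.aeval_X,
          MvPolynomial.aeval_X] at h3
        exact sub_eq_zero.mp h3
      have hsp := spec_of hPI ((st f)^[r] (MvPolynomial.X i)) (st g ((st f)^[r]
        (MvPolynomial.X j)))
      rw [map_iter_st, map_iter_st, map_st, map_iter_st, map_st, map_iter_st,
        MvPolynomial.aeval_X, MvPolynomial.aeval_X] at hsp
      have h3 := hBc i j r g hij hg1' hgc hrm t hne _ _ hsp ⟨P, hPI, rfl, rfl⟩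
        ((hcol _ _).mp hPij)
      have h4 := hBcle i j r g hrm hgG
      have h5 := (hδ (P i) r).2
      have hqr : (1 : ℝ) ≤ q ^ r := one_le_pow₀ (by linarith)
      have h6 : absLogHeight₁ (P i) ≤ B1 + δ := by
        rcases le_or_gt (absLogHeight₁ (P i)) δ with h | h
        · linarith
        · have h7 : 1 * (absLogHeight₁ (P i) - δ) ≤ q ^ r * (absLogHeight₁ (P i) - δ) :=
            mul_le_mul_of_nonneg_right hqr (by linarith)
          linarith
      have h7 : 0 ≤ 3 * δ + (B0 + 3 * δ + 4 * ε) := by positivity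
      linarith
    · -- degree at least two
      apply hsuff j
      set D : ℝ := (g.natDegree : ℝ) with hDdef
      have hDge : 2 ≤ D := by
        rw [hDdef]; exact_mod_cast hD
      have h1 := (hδ (P i) k).1
      have h2 := (hδ (P j) k).2
      have h3 := (hε g hg1 hgc ((st f)^[k] (P j))).2
      rw [← hPij] at h3
      have h4 := hcmp' P hPI j i
      set xj := absLogHeight₁ (P j) with hxj
      set xi := absLogHeight₁ (P i) with hxi
      have hxj0 : 0 ≤ xj := abs_nonneg _
      have hDpos : 0 < D := by linarith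
      have h5 : D * (q ^ k * (xj - δ) + δ) ≤ D * absLogHeight₁ ((st f)^[k] (P j)) :=
        mul_le_mul_of_nonneg_left h2 hDpos.le
      have h6 : q ^ k * (D * (xj - δ)) ≤ q ^ k * (xi + δ + (D + 1) * ε) := by
        have h7 : (D + 1) * ε ≤ q ^ k * ((D + 1) * ε) :=
          le_mul_of_one_le_left (by positivity) hqk1
        have h8 : 0 ≤ D * δ := by positivity
        nlinarith
      have h7 := le_of_mul_le_mul_left h6 hqk
      have h8 : xj ≤ B0 + 3 * δ + 4 * ε := by
        by_contra hcon
        push Not at hcon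
        have h9 : D * (xj - δ) ≤ xj + B0 + δ + (D + 1) * ε := by linarith
        have h10 : (D - 1) * (B0 + 3 * δ + 4 * ε) < (D - 1) * xj :=
          mul_lt_mul_of_pos_left hcon (by linarith)
        have h11 : B0 ≤ (D - 1) * B0 := le_mul_of_one_le_left hB00 (by linarith)
        have h12 : (D + 1) * δ ≤ (D - 1) * (3 * δ) := by nlinarith
        have h13 : (D + 1) * ε ≤ (D - 1) * (4 * ε) := by nlinarith
        nlinarith
      have h9 : 0 ≤ 3 * δ + (B1 + δ) := by positivity
      linarith

end Pool.Agent.UHU
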