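import Pool.Agent.UHG.MainS

/-!
# The engine for curves, Siegel's comparison of heights

The heights of two coordinates of the points of a curve are asymptotically proportional. Hence the
degree bound is needed only for the polynomials `g` commuting with `f^m` whose degree is the ratio
of the degrees of the two coordinates.
-/

set_option autoImplicit false

universe u

open NumberField Polynomial

namespace Pool.Agent.UHU

open Pool.Agent.UH (Spec abs_nonneg compare)
open Pool.Agent.UHG

/-- The inequality for the other degrees. -/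
theorem gen_numeric {Q D xi xj yi yj δ ε a b s B : ℝ} (hQ : 1 ≤ Q) (hD : 1 ≤ D) (hδ : 0 ≤ δ)
    (hε : 0 ≤ ε) (hB : 0 ≤ B) (ha : 1 ≤ a) (hb : 1 ≤ b) (hs : s = a * a + a * b + 1)
    (hxj : 0 ≤ xj) (hi1 : yi ≤ Q * (xi + δ) - δ) (hi2 : Q * (xi - δ) + δ ≤ yi)
    (hj1 : yj ≤ Q * (xj + δ) - δ) (hj2 : Q * (xj - δ) + δ ≤ yj)
    (hg1 : yi ≤ D * yj + (D + 1) * ε) (hg2 : D * yj ≤ yi + (D + 1) * ε)
    (hc1 : a * (s * xj) ≤ b * ((s + (a - 1)) * xi) + B)
    (hc2 : b * (s * xi) ≤ a * ((s + (b - 1)) * xj) + B)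
    (hne : D * b + 1 ≤ a ∨ a + 1 ≤ D * b) :
    xj ≤ B + b * (s + a) * ((2 * a + 2) * (δ + ε)) := by
  have hQ0 : 0 < Q := by linarith
  have hD0 : 0 < D := by linarith
  have hs1 : 1 ≤ s := by
    have h1 : 0 ≤ a * a := by positivity
    have h2 : 0 ≤ a * b := by positivity
    linarith
  have hεk : (D + 1) * ε ≤ Q * ((D + 1) * ε) := le_mul_of_one_le_left (by positivity) hQ
  have hDδ : 0 ≤ D * δ := by positivity
  have hc0 : 0 ≤ δ + ε := by linarith
  have hu : D * (xj - δ) ≤ xi + δ + (D + 1) * ε := by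
    have h5 : D * (Q * (xj - δ) + δ) ≤ D * yj := mul_le_mul_of_nonneg_left hj2 hD0.le
    have h6 : Q * (D * (xj - δ)) ≤ Q * (xi + δ + (D + 1) * ε) := by
      have e1 : Q * (D * (xj - δ)) = D * (Q * (xj - δ) + δ) - D * δ := by ring
      have e2 : Q * (xi + δ + (D + 1) * ε) = Q * (xi + δ) + Q * ((D + 1) * ε) := by ring
      rw [e1, e2]
      linarith
    exact le_of_mul_le_mul_left h6 hQ0
  have hl : xi - δ ≤ D * (xj + δ) + (D + 1) * ε := by
    have h5 : D * yj ≤ D * (Q * (xj + δ) - δ) := mul_le_mul_of_nonneg_left hj1 hD0.le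
    have h6 : Q * (xi - δ) ≤ Q * (D * (xj + δ) + (D + 1) * ε) := by
      have e1 : D * (Q * (xj + δ) - δ) = Q * (D * (xj + δ)) - D * δ := by ring
      have e2 : Q * (D * (xj + δ) + (D + 1) * ε) = Q * (D * (xj + δ)) + Q * ((D + 1) * ε) := by
        ring
      rw [e1] at h5
      rw [e2]
      linarith
    exact le_of_mul_le_mul_left h6 hQ0
  have hDb : D ≤ D * b := le_mul_of_one_le_right hD0.le hb
  rcases hne with hlt | hlt
  · -- small degree
    have hDa : D + 1 ≤ 2 * a + 2 := by linarith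
    have h1 : xi ≤ D * xj + (2 * a + 2) * (δ + ε) := by
      have h2 : (D + 1) * (δ + ε) ≤ (2 * a + 2) * (δ + ε) := mul_le_mul_of_nonneg_right hDa hc0
      linarith
    have hsa : 0 ≤ s + (a - 1) := by linarith
    have h2 : b * ((s + (a - 1)) * xi) ≤
        b * ((s + (a - 1)) * (D * xj + (2 * a + 2) * (δ + ε))) :=
      mul_le_mul_of_nonneg_left (mul_le_mul_of_nonneg_left h1 hsa) (by linarith)
    have h3 : (a * s - (D * b) * (s + (a - 1))) * xj ≤
        B + b * (s + (a - 1)) * ((2 * a + 2) * (δ + ε)) := by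
      have e1 : (a * s - (D * b) * (s + (a - 1))) * xj = a * (s * xj) -
          b * ((s + (a - 1)) * (D * xj)) := by ring
      have e2 : b * ((s + (a - 1)) * (D * xj + (2 * a + 2) * (δ + ε))) =
          b * ((s + (a - 1)) * (D * xj)) + b * (s + (a - 1)) * ((2 * a + 2) * (δ + ε)) := by ring
      rw [e1]
      rw [e2] at h2
      linarith
    have h4 : 1 ≤ a * s - (D * b) * (s + (a - 1)) := by
      have h5 : (D * b) * (s + (a - 1)) ≤ (a - 1) * (s + (a - 1)) :=
        mul_le_mul_of_nonneg_right (by linarith) hsa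
      have h6 : a * s - (a - 1) * (s + (a - 1)) = s - (a - 1) * (a - 1) := by ring
      have h7 : (a - 1) * (a - 1) ≤ a * a := by nlinarith
      have h8 : 0 ≤ a * b := by positivity
      linarith
    have h5 : xj ≤ (a * s - (D * b) * (s + (a - 1))) * xj := le_mul_of_one_le_left hxj h4
    have h6 : b * (s + (a - 1)) * ((2 * a + 2) * (δ + ε)) ≤
        b * (s + a) * ((2 * a + 2) * (δ + ε)) := by
      refine mul_le_mul_of_nonneg_right ?_ (mul_nonneg (by linarith) hc0)
      exact mul_le_mul_of_nonneg_left (by linarith) (by linarith)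
    linarith
  · -- large degree
    have hT1 : 1 ≤ D * b - a := by linarith
    have h1 : D * xj ≤ xi + (D + 1) * (δ + ε) := by linarith
    have hbs : 0 ≤ b * s := by positivity
    have h2 : b * s * (D * xj) ≤ b * s * (xi + (D + 1) * (δ + ε)) :=
      mul_le_mul_of_nonneg_left h1 hbs
    have hDT : D + 1 ≤ (D * b - a) * (2 * a + 2) := by
      rcases le_or_gt D (2 * a + 1) with h6 | h6
      · have h1 : 1 * (2 * a + 2) ≤ (D * b - a) * (2 * a + 2) :=
          mul_le_mul_of_nonneg_right (by linarith) (by linarith)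
        linarith
      · have h1 : (D - a) * 4 ≤ (D * b - a) * (2 * a + 2) :=
          mul_le_mul (by linarith) (by linarith) (by norm_num) (by linarith)
        linarith
    have h3 : (s * (D * b - a) - a * (b - 1)) * xj ≤ B + b * s * ((D + 1) * (δ + ε)) := by
      have e1 : (s * (D * b - a) - a * (b - 1)) * xj =
          b * s * (D * xj) - a * ((s + (b - 1)) * xj) := by ring
      have e2 : b * s * (xi + (D + 1) * (δ + ε)) =
          b * (s * xi) + b * s * ((D + 1) * (δ + ε)) := by ring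
      rw [e1]
      rw [e2] at h2
      linarith
    have h4 : D * b - a ≤ s * (D * b - a) - a * (b - 1) := by
      have h5 : a * (b - 1) ≤ (s - 1) * 1 := by
        have h6 : 0 ≤ a * a := by positivity
        have h7 : 0 ≤ a := by linarith
        nlinarith
      have h6 : (s - 1) * 1 ≤ (s - 1) * (D * b - a) :=
        mul_le_mul_of_nonneg_left hT1 (by linarith)
      have e1 : s * (D * b - a) - a * (b - 1) =
          (D * b - a) + ((s - 1) * (D * b - a) - a * (b - 1)) := by ring
      rw [e1]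
      linarith
    have h5 : (D * b - a) * xj ≤ (s * (D * b - a) - a * (b - 1)) * xj :=
      mul_le_mul_of_nonneg_right h4 hxj
    have h6 : b * s * ((D + 1) * (δ + ε)) ≤
        (D * b - a) * (b * (s + a) * ((2 * a + 2) * (δ + ε))) := by
      have h7 : b * s * ((D + 1) * (δ + ε)) ≤
          b * s * (((D * b - a) * (2 * a + 2)) * (δ + ε)) :=
        mul_le_mul_of_nonneg_left (mul_le_mul_of_nonneg_right hDT hc0) hbs
      have h8 : b * s * (((D * b - a) * (2 * a + 2)) * (δ + ε)) ≤
          b * (s + a) * (((D * b - a) * (2 * a + 2)) * (δ + ε)) := by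
        refine mul_le_mul_of_nonneg_right ?_
          (mul_nonneg (mul_nonneg (by linarith) (by linarith)) hc0)
        exact mul_le_mul_of_nonneg_left (by linarith) (by linarith)
      calc b * s * ((D + 1) * (δ + ε)) ≤ _ := h7
        _ ≤ _ := h8
        _ = _ := by ring
    have h7 : B ≤ (D * b - a) * B := le_mul_of_one_le_left hB hT1
    have h8 : (D * b - a) * xj ≤
        (D * b - a) * (B + b * (s + a) * ((2 * a + 2) * (δ + ε))) := by
      rw [mul_add]
      linarith
    exact le_of_mul_le_mul_left h8 (by linarith)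

/-- **The engine**, all curves. -/
theorem main_gen {K : Type u} [Field K] [NumberField K] (f : K[X]) (hf : 2 ≤ f.natDegree)
    (m : ℕ) (hm : 0 < m) (n : ℕ) (I : Ideal (MvPolynomial (Fin n) K))
    (hI : IsNonverticalCurve I)
    (hpair : ∀ i j : Fin n, i ≠ j → ∃ a b : ℕ, 0 < a ∧ 0 < b ∧
      (∃ B : ℝ, 0 ≤ B ∧ ∀ P ∈ points I,
        a * ((a * a + a * b + 1 : ℝ) * absLogHeight₁ (P j)) ≤
          b * (((a * a + a * b + 1 : ℝ) + (a - 1)) * absLogHeight₁ (P i)) + B ∧
        b * ((a * a + a * b + 1 : ℝ) * absLogHeight₁ (P i)) ≤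
          a * (((a * a + a * b + 1 : ℝ) + (b - 1)) * absLogHeight₁ (P j)) + B) ∧
      ∃ C0 : ℕ, ∀ (E : IntermediateField K (AlgebraicClosure K)) [FiniteDimensional K E]
      (P : Fin n → AlgebraicClosure K), P ∈ points I → ∀ g : K[X],
      1 ≤ g.natDegree → g.natDegree * b = a →
      g.comp (f.comp^[m] X) = (f.comp^[m] X).comp g → ∀ r : ℕ, r < m →
      ∀ (x y : E), (x : AlgebraicClosure K) = (st f)^[r] (P i) →
      (y : AlgebraicClosure K) = st g ((st f)^[r] (P j)) → ∀ N : ℕ,
      (st f)^[N + 1] x = (st f)^[N + 1] y → (st f)^[N] x ≠ (st f)^[N] y →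
        f.natDegree ^ N ≤ C0 * Module.finrank K E) :
    ∃ B : ℝ, ∀ k : ℕ, ∀ V ∈ hyp f m n k, ¬ points I ⊆ V → ∀ P ∈ points I ∩ V,
      ∑ i, absLogHeight₁ (P i) ≤ B := by
  classical
  have hprime := hI.prime
  have halg : Algebra.IsAlgebraic ℚ (AlgebraicClosure K) := Algebra.IsAlgebraic.trans ℚ K _
  set F := f.comp^[m] X with hFdef
  have hFdeg : F.natDegree = f.natDegree ^ m := natDegree_iter f m
  have hF2 : 2 ≤ F.natDegree := by
    rw [hFdeg]
    calc 2 ≤ f.natDegree := hf
      _ = f.natDegree ^ 1 := (pow_one _).symm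
      _ ≤ f.natDegree ^ m := Nat.pow_le_pow_right (by omega) hm
  have key : ∀ i j : Fin n, ∃ (a b : ℕ) (B : ℝ) (C0 : ℕ), 0 ≤ B ∧ (i ≠ j → 0 < a ∧ 0 < b ∧
      (∀ P ∈ points I,
        a * ((a * a + a * b + 1 : ℝ) * absLogHeight₁ (P j)) ≤
          b * (((a * a + a * b + 1 : ℝ) + (a - 1)) * absLogHeight₁ (P i)) + B ∧
        b * ((a * a + a * b + 1 : ℝ) * absLogHeight₁ (P i)) ≤
          a * (((a * a + a * b + 1 : ℝ) + (b - 1)) * absLogHeight₁ (P j)) + B) ∧
      ∀ (E : IntermediateField K (AlgebraicClosure K)) [FiniteDimensional K E]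
      (P : Fin n → AlgebraicClosure K), P ∈ points I → ∀ g : K[X],
      1 ≤ g.natDegree → g.natDegree * b = a →
      g.comp (f.comp^[m] X) = (f.comp^[m] X).comp g → ∀ r : ℕ, r < m →
      ∀ (x y : E), (x : AlgebraicClosure K) = (st f)^[r] (P i) →
      (y : AlgebraicClosure K) = st g ((st f)^[r] (P j)) → ∀ N : ℕ,
      (st f)^[N + 1] x = (st f)^[N + 1] y → (st f)^[N] x ≠ (st f)^[N] y →
        f.natDegree ^ N ≤ C0 * Module.finrank K E) := by
    intro i j
    by_cases hij : i = j
    · exact ⟨0, 0, 0, 0, le_rfl, fun h => absurd hij h⟩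
    · obtain ⟨a, b, ha, hb, ⟨B, hB0, hB⟩, C0, hC0⟩ := hpair i j hij
      exact ⟨a, b, B, C0, hB0, fun _ => ⟨ha, hb, hB, hC0⟩⟩
  choose a b Bp C0 hBp0 hkey using key
  have hq2 : (2 : ℝ) ≤ f.natDegree := by exact_mod_cast hf
  set q : ℝ := (f.natDegree : ℝ) with hq
  obtain ⟨δ, hδ0, hδ⟩ := iter_height (Ω := AlgebraicClosure K) f hf
  obtain ⟨ε, hε0, hε⟩ := comm_height (Ω := AlgebraicClosure K) F hF2
  -- comparison of the coordinates
  have hcmp : ∀ i j : Fin n, ∃ A B : ℝ, 0 ≤ A ∧ 0 ≤ B ∧ ∀ x y : AlgebraicClosure K,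
      Spec K (genHom I (MvPolynomial.X i)) (genHom I (MvPolynomial.X j)) x y →
      absLogHeight₁ y ≤ A * absLogHeight₁ x + B := fun i j =>
    compare (gen_transcendental hI i) (gen_integral hI i j)
  choose A B hA hB hAB using hcmp
  set A0 := ∑ i, ∑ j, A i j with hA0
  set B0 := ∑ i, ∑ j, B i j with hB0
  have hA00 : 0 ≤ A0 := Finset.sum_nonneg fun i _ => Finset.sum_nonneg fun j _ => hA i j
  have hB00 : 0 ≤ B0 := Finset.sum_nonneg fun i _ => Finset.sum_nonneg fun j _ => hB i j
  have hcmp' : ∀ P ∈ points I, ∀ i j : Fin n,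
      absLogHeight₁ (P j) ≤ A0 * absLogHeight₁ (P i) + B0 := by
    intro P hP i j
    have h1 := spec_of hP (MvPolynomial.X i) (MvPolynomial.X j)
    rw [MvPolynomial.aeval_X, MvPolynomial.aeval_X] at h1
    have h2 := hAB i j _ _ h1
    have h3 : A i j ≤ A0 := (Finset.single_le_sum (f := A i) (fun j _ => hA i j)
      (Finset.mem_univ j)).trans (Finset.single_le_sum (f := fun i => ∑ j, A i j)
      (fun i _ => Finset.sum_nonneg fun j _ => hA i j) (Finset.mem_univ i))
    have h4 : B i j ≤ B0 := (Finset.single_le_sum (f := B i) (fun j _ => hB i j)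
      (Finset.mem_univ j)).trans (Finset.single_le_sum (f := fun i => ∑ j, B i j)
      (fun i _ => Finset.sum_nonneg fun j _ => hB i j) (Finset.mem_univ i))
    have h5 := mul_le_mul_of_nonneg_right h3 (abs_nonneg (P i))
    linarith
  set D0 : ℕ := ∑ i, ∑ j, a i j with hD0
  have haD : ∀ i j, a i j ≤ D0 := fun i j => (Finset.single_le_sum (f := a i)
    (fun j _ => Nat.zero_le _) (Finset.mem_univ j)).trans (Finset.single_le_sum
    (f := fun i => ∑ j, a i j) (fun i _ => Nat.zero_le _) (Finset.mem_univ i))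
  have hfin := comm_finite_le (F := F) hF2 D0
  set G0 := hfin.toFinset with hG0
  -- the collisions
  have hcol : ∀ (i j : Fin n) (r : ℕ) (g : K[X]), ∃ B : ℝ, 0 ≤ B ∧ (i ≠ j → (1 ≤ g.natDegree ∧
      g.natDegree * b i j = a i j) → g.comp F = F.comp g → r < m → ∀ t : ℕ,
      (st F)^[t] ((st f)^[r] (genHom I (MvPolynomial.X i))) ≠
        (st F)^[t] (st g ((st f)^[r] (genHom I (MvPolynomial.X j)))) →
      ∀ x y : AlgebraicClosure K, Spec K ((st f)^[r] (genHom I (MvPolynomial.X i)))
        (st g ((st f)^[r] (genHom I (MvPolynomial.X j)))) x y →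
        (∃ P ∈ points I, x = (st f)^[r] (P i) ∧ y = st g ((st f)^[r] (P j))) →
        (st F)^[t] x = (st F)^[t] y → absLogHeight₁ x ≤ B) := by
    intro i j r g
    by_cases hgood : i ≠ j ∧ (1 ≤ g.natDegree ∧ g.natDegree * b i j = a i j) ∧
      g.comp F = F.comp g ∧ r < m
    · obtain ⟨hij, hg1, hgc, hrm⟩ := hgood
      obtain ⟨B, hB0, hB⟩ := collisions_bounded_S (Ω := AlgebraicClosure K) F hF2
        (fun x y => ∃ P ∈ points I, x = (st f)^[r] (P i) ∧ y = st g ((st f)^[r] (P j)))
        (C0 := C0 i j) (by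
          intro E _ x y N hxy h1 h2
          obtain ⟨P, hP, hx, hy⟩ := hxy
          rw [hFdeg, ← pow_mul]
          rw [hFdef, st_iter, ← Function.iterate_mul] at h1
          rw [hFdef, st_iter, ← Function.iterate_mul] at h2
          have hex : ∃ n, (st f)^[n] x = (st f)^[n] y := ⟨_, h1⟩
          set n' := Nat.find hex with hn
          have hn1 := Nat.find_spec hex
          rw [← hn] at hn1
          have hlt : m * N < n' := by
            by_contra hcon
            push Not at hcon
            apply h2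
            obtain ⟨r, hr⟩ : ∃ r, m * N = r + n' := ⟨m * N - n', by omega⟩
            rw [hr, Function.iterate_add_apply, Function.iterate_add_apply, hn1]
          obtain ⟨t, ht⟩ : ∃ t, n' = t + 1 := ⟨n' - 1, by omega⟩
          have h3 : (st f)^[t] x ≠ (st f)^[t] y := Nat.find_min hex (by omega)
          rw [ht] at hn1
          exact (Nat.pow_le_pow_right (by omega) (by omega)).trans
            ((hkey i j hij).2.2.2 E P hP g hg1.1 hg1.2 hgc r hrm x y hx hy t hn1 h3))
        (integral_expr (gen_integral hI i j) f g (by omega) r)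
      exact ⟨B, hB0, fun _ _ _ _ => hB⟩
    · refine ⟨0, le_rfl, fun h1 h2 h3 h4 => absurd ⟨h1, h2, h3, h4⟩ hgood⟩
  choose Bc hBc0 hBc using hcol
  set B1 := ∑ i : Fin n, ∑ j : Fin n, ∑ r ∈ Finset.range m, ∑ g ∈ G0, Bc i j r g with hB1
  have hB10 : 0 ≤ B1 := Finset.sum_nonneg fun i _ => Finset.sum_nonneg fun j _ =>
    Finset.sum_nonneg fun r _ => Finset.sum_nonneg fun g _ => hBc0 i j r g
  have hBcle : ∀ (i j : Fin n) (r : ℕ) (g : K[X]), r < m → g ∈ G0 → Bc i j r g ≤ B1 := by
    intro i j r g hr hg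
    calc Bc i j r g ≤ ∑ g ∈ G0, Bc i j r g :=
          Finset.single_le_sum (f := fun g => Bc i j r g) (fun g _ => hBc0 i j r g) hg
      _ ≤ ∑ r ∈ Finset.range m, ∑ g ∈ G0, Bc i j r g :=
          Finset.single_le_sum (f := fun r => ∑ g ∈ G0, Bc i j r g)
            (fun r _ => Finset.sum_nonneg fun g _ => hBc0 i j r g) (Finset.mem_range.mpr hr)
      _ ≤ ∑ j : Fin n, ∑ r ∈ Finset.range m, ∑ g ∈ G0, Bc i j r g :=
          Finset.single_le_sum (f := fun j => ∑ r ∈ Finset.range m, ∑ g ∈ G0, Bc i j r g)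
            (fun j _ => Finset.sum_nonneg fun r _ => Finset.sum_nonneg fun g _ =>
              hBc0 i j r g) (Finset.mem_univ j)
      _ ≤ B1 := Finset.single_le_sum
            (f := fun i => ∑ j : Fin n, ∑ r ∈ Finset.range m, ∑ g ∈ G0, Bc i j r g)
            (fun i _ => Finset.sum_nonneg fun j _ => Finset.sum_nonneg fun r _ =>
              Finset.sum_nonneg fun g _ => hBc0 i j r g) (Finset.mem_univ i)
  set Tp : Fin n → Fin n → ℝ := fun i j => Bp i j + b i j * ((a i j * a i j + a i j * b i j + 1 : ℝ)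
    + a i j) * ((2 * a i j + 2) * (δ + ε)) with hTp
  have hTp0 : ∀ i j, 0 ≤ Tp i j := fun i j => by
    have h1 := hBp0 i j
    have h2 : (0 : ℝ) ≤ a i j := Nat.cast_nonneg _
    have h3 : (0 : ℝ) ≤ b i j := Nat.cast_nonneg _
    simp only [hTp]
    positivity
  set M2 : ℝ := ∑ i, ∑ j, Tp i j with hM2
  have hTM : ∀ i j, Tp i j ≤ M2 := fun i j => (Finset.single_le_sum (f := Tp i)
    (fun j _ => hTp0 i j) (Finset.mem_univ j)).trans (Finset.single_le_sum
    (f := fun i => ∑ j, Tp i j) (fun i _ => Finset.sum_nonneg fun j _ => hTp0 i j)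
    (Finset.mem_univ i))
  have hM20 : 0 ≤ M2 := Finset.sum_nonneg fun i _ => Finset.sum_nonneg fun j _ => hTp0 i j
  set M := 3 * δ + M2 + (B1 + δ) with hM
  have hM0 : 0 ≤ M := by positivity
  refine ⟨n * (A0 * M + B0), ?_⟩
  intro k V hV hVI P hP
  obtain ⟨hPI, hPV⟩ := hP
  -- it suffices to bound one coordinate
  have hsuff : ∀ i : Fin n, absLogHeight₁ (P i) ≤ M →
      ∑ i, absLogHeight₁ (P i) ≤ n * (A0 * M + B0) := by
    intro i hi
    calc ∑ j, absLogHeight₁ (P j) ≤ ∑ _j : Fin n, (A0 * M + B0) := by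
          refine Finset.sum_le_sum fun j _ => ?_
          have h1 := hcmp' P hPI i j
          have h2 := mul_le_mul_of_nonneg_left hi hA00
          linarith
      _ = n * (A0 * M + B0) := by
          rw [Finset.sum_const, Finset.card_univ, Fintype.card_fin, nsmul_eq_mul]
  rcases hV with ⟨i, ζ, ⟨r, hr, hper⟩, rfl⟩ | ⟨i, j, g, hij, hg1, hgc, rfl⟩
  · -- a preperiodic coordinate
    have hPi : P i = ζ := hPV
    apply hsuff i
    rw [hPi]
    have h1 := (hδ ζ k).1
    have h2 := (hδ ζ (k + r)).2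
    have hper' : (st f)^[k + r] ζ = (st f)^[k] ζ := hper
    rw [hper'] at h2
    have hqk : (0 : ℝ) < q ^ k := by positivity
    have h3 : q ^ k * (q ^ r * (absLogHeight₁ ζ - δ)) ≤ q ^ k * (absLogHeight₁ ζ + δ) := by
      rw [pow_add] at h2
      nlinarith
    have h4 := le_of_mul_le_mul_left h3 hqk
    have h5 : (2 : ℝ) ≤ q ^ r := by
      calc (2 : ℝ) ≤ q := hq2
        _ = q ^ 1 := (pow_one _).symm
        _ ≤ q ^ r := pow_le_pow_right₀ (by linarith) hr
    have h6 : absLogHeight₁ ζ ≤ 3 * δ := by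
      by_contra hcon
      push Not at hcon
      nlinarith
    have h7 : 0 ≤ M2 + (B1 + δ) := by positivity
    linarith
  · -- a collision
    have hPij : (st f)^[k] (P i) = st g ((st f)^[k] (P j)) := hPV
    have hqk : (0 : ℝ) < q ^ k := by positivity
    have hqk1 : (1 : ℝ) ≤ q ^ k := one_le_pow₀ (by linarith)
    obtain ⟨ha, hb, hbal, -⟩ := hkey i j hij
    rcases eq_or_ne (g.natDegree * b i j) (a i j) with hD | hD
    · -- the degree is the ratio of the weights
      have hgG : g ∈ G0 := by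
        rw [hG0, Set.Finite.mem_toFinset]
        refine ⟨hg1, ?_, hgc⟩
        calc g.natDegree ≤ g.natDegree * b i j := Nat.le_mul_of_pos_right _ hb
          _ = a i j := hD
          _ ≤ D0 := haD i j
      apply hsuff i
      set r := k % m with hr
      set t := k / m with ht
      have hrm : r < m := Nat.mod_lt _ hm
      have hk : k = m * t + r := (Nat.div_add_mod k m).symm
      have hsplit : ∀ {A : Type u} [CommRing A] [Algebra K A] (z : A),
          (st f)^[k] z = (st F)^[t] ((st f)^[r] z) := by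
        intro A _ _ z
        rw [hFdef, st_iter, ← Function.iterate_mul, ← Function.iterate_add_apply, ← hk]
      have hcol : ∀ {A : Type u} [CommRing A] [Algebra K A] (z w : A),
          (st f)^[k] z = st g ((st f)^[k] w) ↔
          (st F)^[t] ((st f)^[r] z) = (st F)^[t] (st g ((st f)^[r] w)) := by
        intro A _ _ z w
        rw [hsplit z, hsplit w, st_comm_iter hgc]
      have hne : (st F)^[t] ((st f)^[r] (genHom I (MvPolynomial.X i))) ≠
          (st F)^[t] (st g ((st f)^[r] (genHom I (MvPolynomial.X j)))) := by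
        intro h
        apply hVI
        intro P' hP'
        have h1 := (hcol _ _).mpr h
        rw [← map_iter_st, ← map_iter_st, ← map_st] at h1
        have h2 : (st f)^[k] (MvPolynomial.X i : MvPolynomial (Fin n) K) -
            st g ((st f)^[k] (MvPolynomial.X j)) ∈ I := by
          apply genHom_eq_zero
          rw [map_sub, h1, sub_self]
        have h3 := hP' _ h2
        rw [map_sub, map_iter_st, map_st, map_iter_st, MvPolynomial.aeval_X,
          MvPolynomial.aeval_X] at h3
        exact sub_eq_zero.mp h3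
      have hsp := spec_of hPI ((st f)^[r] (MvPolynomial.X i)) (st g ((st f)^[r]
        (MvPolynomial.X j)))
      rw [map_iter_st, map_iter_st, map_st, map_iter_st, map_st, map_iter_st,
        MvPolynomial.aeval_X, MvPolynomial.aeval_X] at hsp
      have h3 := hBc i j r g hij ⟨hg1, hD⟩ hgc hrm t hne _ _ hsp ⟨P, hPI, rfl, rfl⟩
        ((hcol _ _).mp hPij)
      have h4 := hBcle i j r g hrm hgG
      have h5 := (hδ (P i) r).2
      have hqr : (1 : ℝ) ≤ q ^ r := one_le_pow₀ (by linarith)
      have h6 : absLogHeight₁ (P i) ≤ B1 + δ := by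
        rcases le_or_gt (absLogHeight₁ (P i)) δ with h | h
        · linarith
        · have h7 : 1 * (absLogHeight₁ (P i) - δ) ≤ q ^ r * (absLogHeight₁ (P i) - δ) :=
            mul_le_mul_of_nonneg_right hqr (by linarith)
          linarith
      have h7 : 0 ≤ 3 * δ + M2 := by positivity
      linarith
    · -- another degree
      apply hsuff j
      have h8 : absLogHeight₁ (P j) ≤ M2 := by
        have h1 := hδ (P i) k
        have h2 := hδ (P j) k
        have h3 := hε g hg1 hgc ((st f)^[k] (P j))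
        rw [← hPij] at h3
        have hg1' : (1 : ℝ) ≤ g.natDegree := by exact_mod_cast hg1
        have ha' : (1 : ℝ) ≤ a i j := by exact_mod_cast ha
        have hb' : (1 : ℝ) ≤ b i j := by exact_mod_cast hb
        refine (gen_numeric hqk1 hg1' hδ0 hε0 (hBp0 i j) ha' hb' rfl (UH.abs_nonneg _)
          h1.1 h1.2 h2.1 h2.2 h3.1 h3.2 (hbal P hPI).1 (hbal P hPI).2 ?_).trans (hTM i j)
        rcases lt_or_gt_of_ne hD with hlt | hlt
        · left; exact_mod_cast hlt
        · right; exact_mod_cast hlt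
      have h9 : 0 ≤ 3 * δ + (B1 + δ) := by positivity
      linarith

end Pool.Agent.UHU
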