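import Pool.Agent.UHU.Siegel1
import Pool.Agent.UHU.Cone
import Pool.Agent.UH.Cmp

/-!
# Siegel's comparison of the heights of two coordinates of a curve
-/

set_option autoImplicit false

open NumberField Polynomial Height

namespace Pool.Agent.UHU

open Pool.Agent.UH (exists_field abs_coe abs_nonneg Spec compare exists_rel evK evK_apply)

section tuples
variable {L : Type*} [Field L] [NumberField L]

/-- The height of a tuple is at most the sum of the heights of the entries. -/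
theorem tuple_le {ι : Type*} [Fintype ι] (z : ι → L) :
    logHeight z ≤ ∑ i, logHeight₁ (z i) := by
  classical
  have h0 : ∀ i : ι, (![z i, 1] : Fin 2 → L) ≠ 0 := fun i h => by
    have := congrFun h 1
    simp at this
  have h1 := logHeight_fun_prod_eq (x := fun i : ι => (![z i, 1] : Fin 2 → L)) h0
  have e1 : z = (fun I : ι → Fin 2 => ∏ a, (![z a, 1] : Fin 2 → L) (I a)) ∘
      (fun (i : ι) (k : ι) => if k = i then (0 : Fin 2) else 1) := by
    funext i
    rw [Function.comp_apply]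
    rw [Finset.prod_eq_single i]
    · simp
    · intro k _ hk
      simp [hk]
    · intro hi
      exact absurd (Finset.mem_univ i) hi
  calc logHeight z = logHeight ((fun I : ι → Fin 2 => ∏ a, (![z a, 1] : Fin 2 → L) (I a)) ∘
        (fun (i : ι) (k : ι) => if k = i then (0 : Fin 2) else 1)) := by rw [← e1]
    _ ≤ logHeight (fun I : ι → Fin 2 => ∏ a, (![z a, 1] : Fin 2 → L) (I a)) :=
        logHeight_comp_le _ _
    _ = ∑ i, logHeight (![z i, 1] : Fin 2 → L) := h1
    _ = ∑ i, logHeight₁ (z i) := by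
        refine Finset.sum_congr rfl fun i _ => ?_
        rw [logHeight₁_eq_logHeight]

/-- The height of the tuple of powers. -/
theorem pow_tuple_le (x : L) (n : ℕ) :
    logHeight (fun a : Fin (n + 1) => x ^ (a : ℕ)) ≤ n * logHeight₁ x := by
  induction n with
  | zero =>
    have : Subsingleton (Fin (0 + 1)) := by rw [Nat.zero_add]; infer_instance
    rw [logHeight_eq_zero_of_subsingleton]
    simp
  | succ n ih =>
    have h0 : (fun a : Fin (n + 1) => x ^ (a : ℕ)) ≠ 0 := fun h => by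
      have := congrFun h 0
      simp at this
    have h0' : (![x, 1] : Fin 2 → L) ≠ 0 := fun h => by
      have := congrFun h 1
      simp at this
    have h1 := logHeight_fun_mul_eq h0 h0'
    have e1 : (fun a : Fin (n + 1 + 1) => x ^ (a : ℕ)) =
        (fun p : Fin (n + 1) × Fin 2 => x ^ (p.1 : ℕ) * (![x, 1] : Fin 2 → L) p.2) ∘
        (fun a : Fin (n + 1 + 1) => if h : (a : ℕ) < n + 1 then ((⟨a, h⟩ : Fin (n + 1)), (1 : Fin 2))
          else ((⟨n, Nat.lt_succ_self n⟩ : Fin (n + 1)), (0 : Fin 2))) := by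
      funext a
      rw [Function.comp_apply]
      split_ifs with h
      · simp
      · have : (a : ℕ) = n + 1 := by have := a.2; omega
        simp [this, pow_succ]
    rw [e1]
    refine (logHeight_comp_le _ _).trans ?_
    rw [h1, ← logHeight₁_eq_logHeight]
    push_cast
    linarith

/-- The height of a quotient of values of two polynomials. -/
theorem ratio_height {n m : ℕ} (c c' : Fin (n + 1) × Fin (m + 1) → L) (x y : L) :
    logHeight₁ ((∑ p, c' p * (x ^ (p.1 : ℕ) * y ^ (p.2 : ℕ))) /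
      (∑ p, c p * (x ^ (p.1 : ℕ) * y ^ (p.2 : ℕ)))) ≤
      Module.finrank ℚ L * Real.log ((n + 1) * (m + 1)) +
        (∑ p, logHeight₁ (c' p) + ∑ p, logHeight₁ (c p)) +
          (n * logHeight₁ x + m * logHeight₁ y) := by
  classical
  rw [logHeight₁_div_eq_logHeight]
  set A : Fin 2 × (Fin (n + 1) × Fin (m + 1)) → L := fun q => if q.1 = 0 then c' q.2 else c q.2
    with hA
  set t : Fin (n + 1) × Fin (m + 1) → L := fun p => x ^ (p.1 : ℕ) * y ^ (p.2 : ℕ) with ht
  have e1 : (![∑ p, c' p * (x ^ (p.1 : ℕ) * y ^ (p.2 : ℕ)),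
      ∑ p, c p * (x ^ (p.1 : ℕ) * y ^ (p.2 : ℕ))] : Fin 2 → L) =
      fun j => ∑ p, A (j, p) * t p := by
    funext j
    fin_cases j <;> simp [hA, ht]
  rw [e1]
  refine (logHeight_linearMap_apply_le A t).trans ?_
  have h1 : logHeight A ≤ ∑ p, logHeight₁ (c' p) + ∑ p, logHeight₁ (c p) := by
    refine (tuple_le A).trans (le_of_eq ?_)
    rw [Fintype.sum_prod_type, Fin.sum_univ_two]
    simp [hA]
  have h2 : logHeight t ≤ n * logHeight₁ x + m * logHeight₁ y := by
    have h0 : (fun a : Fin (n + 1) => x ^ (a : ℕ)) ≠ 0 := fun h => by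
      have := congrFun h 0
      simp at this
    have h0' : (fun a : Fin (m + 1) => y ^ (a : ℕ)) ≠ 0 := fun h => by
      have := congrFun h 0
      simp at this
    rw [ht, logHeight_fun_mul_eq h0 h0']
    exact add_le_add (pow_tuple_le x n) (pow_tuple_le y m)
  have h3 : (Nat.card (Fin (n + 1) × Fin (m + 1)) : ℝ) = ((n : ℝ) + 1) * (m + 1) := by
    simp
  rw [totalWeight_eq_finrank, h3]
  linarith

end tuples

section
variable {K : Type*} [Field K] {Ω : Type*} [Field Ω] [CharZero Ω] [Algebra.IsAlgebraic ℚ Ω]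

/-- The absolute version. -/
theorem abs_ratio_le {n m : ℕ} (c c' : Fin (n + 1) × Fin (m + 1) → Ω) (x y : Ω) :
    absLogHeight₁ ((∑ p, c' p * (x ^ (p.1 : ℕ) * y ^ (p.2 : ℕ))) /
      (∑ p, c p * (x ^ (p.1 : ℕ) * y ^ (p.2 : ℕ)))) ≤
      Real.log ((n + 1) * (m + 1)) +
        (∑ p, absLogHeight₁ (c' p) + ∑ p, absLogHeight₁ (c p)) +
          (n * absLogHeight₁ x + m * absLogHeight₁ y) := by
  obtain ⟨L, hL, hmem⟩ := exists_field (({x, y} ∪ Set.range c) ∪ Set.range c')
    (((Set.toFinite _).union (Set.finite_range c)).union (Set.finite_range c'))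
  obtain ⟨x', hx'⟩ := hmem x (by simp)
  obtain ⟨y', hy'⟩ := hmem y (by simp)
  have h1 : ∀ p, ∃ b : L, (b : Ω) = c p := fun p => hmem (c p) (Or.inl (Or.inr ⟨p, rfl⟩))
  have h2 : ∀ p, ∃ b : L, (b : Ω) = c' p := fun p => hmem (c' p) (Or.inr ⟨p, rfl⟩)
  choose b hb using h1
  choose b' hb' using h2
  have hpos : (0 : ℝ) < Module.finrank ℚ L := by exact_mod_cast Module.finrank_pos
  have e1 : (∑ p, c' p * (x ^ (p.1 : ℕ) * y ^ (p.2 : ℕ))) /
      (∑ p, c p * (x ^ (p.1 : ℕ) * y ^ (p.2 : ℕ))) =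
      (((∑ p, b' p * (x' ^ (p.1 : ℕ) * y' ^ (p.2 : ℕ))) /
      (∑ p, b p * (x' ^ (p.1 : ℕ) * y' ^ (p.2 : ℕ))) : L) : Ω) := by
    push_cast
    rw [hx', hy']
    simp only [hb, hb']
  have h3 := ratio_height b b' x' y'
  have e2 : ∑ p, absLogHeight₁ (c' p) = (∑ p, logHeight₁ (b' p)) / Module.finrank ℚ L := by
    rw [Finset.sum_div]
    exact Finset.sum_congr rfl fun p _ => by rw [← hb' p, abs_coe]
  have e3 : ∑ p, absLogHeight₁ (c p) = (∑ p, logHeight₁ (b p)) / Module.finrank ℚ L := by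
    rw [Finset.sum_div]
    exact Finset.sum_congr rfl fun p _ => by rw [← hb p, abs_coe]
  rw [e1, e2, e3, ← hx', ← hy', abs_coe, abs_coe, abs_coe, div_le_iff₀ hpos]
  refine h3.trans (le_of_eq ?_)
  field_simp

variable [Algebra K Ω]

omit [CharZero Ω] [Algebra.IsAlgebraic ℚ Ω] in
/-- The value of a polynomial with small support. -/
theorem aeval_bx {n m : ℕ} {G : MvPolynomial (Fin 2) K}
    (hG : G ∈ MvPolynomial.restrictSupport K (bx n m)) (x y : Ω) :
    MvPolynomial.aeval ![x, y] G = ∑ p : Fin n × Fin m,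
      algebraMap K Ω (G.coeff (Finsupp.single 0 (p.1 : ℕ) + Finsupp.single 1 (p.2 : ℕ))) *
        (x ^ (p.1 : ℕ) * y ^ (p.2 : ℕ)) := by
  classical
  rw [aeval_two]
  set e : Fin n × Fin m → (Fin 2 →₀ ℕ) :=
    fun p => Finsupp.single 0 (p.1 : ℕ) + Finsupp.single 1 (p.2 : ℕ) with he
  have he0 : ∀ p, e p 0 = p.1 := fun p => by simp [he]
  have he1 : ∀ p, e p 1 = p.2 := fun p => by simp [he]
  have hinj : Function.Injective e := by
    intro p p' h
    apply Prod.ext <;> apply Fin.ext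
    · rw [← he0, ← he0, h]
    · rw [← he1, ← he1, h]
  have hsub : G.support ⊆ Finset.univ.image e := by
    intro d hd
    have h1 := hG hd
    rw [Finset.mem_image]
    refine ⟨(⟨d 0, h1.1⟩, ⟨d 1, h1.2⟩), Finset.mem_univ _, ?_⟩
    exact finsupp_two_ext (he0 _) (he1 _)
  rw [Finset.sum_subset hsub (fun d _ hd => by
    rw [MvPolynomial.notMem_support_iff.mp hd, map_zero, zero_mul]),
    Finset.sum_image fun p _ p' _ h => hinj h]
  exact Finset.sum_congr rfl fun p _ => by rw [he0, he1]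

end

section
variable {K : Type*} [Field K] [NumberField K] {Ω : Type*} [Field Ω] [CharZero Ω]
  [Algebra.IsAlgebraic ℚ Ω] [Algebra K Ω] {F : Type*} [Field F] [Algebra K F]

/-- The zeros of a function on the curve have bounded height. -/
theorem zero_bounded {ξ η : F} (hη : IsIntegral (IntermediateField.adjoin K {ξ}) η)
    {G : MvPolynomial (Fin 2) K} (hG : MvPolynomial.aeval ![ξ, η] G ≠ 0) :
    ∃ B : ℝ, 0 ≤ B ∧ ∀ x y : Ω, Spec K ξ η x y → MvPolynomial.aeval ![x, y] G = 0 →
      absLogHeight₁ x ≤ B := by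
  classical
  set k0 := IntermediateField.adjoin K {ξ} with hk0
  set γ := MvPolynomial.aeval ![ξ, η] G with hγ
  have hξ : IsIntegral k0 ξ := by
    have : ξ = algebraMap k0 F (IntermediateField.AdjoinSimple.gen K ξ) := rfl
    rw [this]
    exact isIntegral_algebraMap
  have hγi : IsIntegral k0 γ := by
    rw [hγ, aeval_two]
    refine IsIntegral.sum _ fun d _ => ?_
    refine IsIntegral.mul ?_ ((hξ.pow _).mul (hη.pow _))
    rw [IsScalarTower.algebraMap_apply K k0 F]
    exact isIntegral_algebraMap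
  have hγ' : IsIntegral k0 γ⁻¹ := (hγi.isAlgebraic.inv).isIntegral
  obtain ⟨D, g, hD, hgD, hrel, -⟩ := exists_rel hγ'
  set R := (g D).map (algebraMap (𝓞 K) K) with hR
  have hR0 : R ≠ 0 := by
    intro h
    apply hgD
    rw [evK_apply, ← hR, h, map_zero]
  -- the relation
  have hrel2 : ∑ j ∈ Finset.range (D + 1), evK ξ (g j) * γ ^ (D - j) = 0 := by
    have e1 : ∑ j ∈ Finset.range (D + 1), evK ξ (g j) * γ ^ (D - j) =
        γ ^ D * ∑ j ∈ Finset.range (D + 1), evK ξ (g j) * γ⁻¹ ^ j := by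
      rw [Finset.mul_sum]
      refine Finset.sum_congr rfl fun j hj => ?_
      have hjD : j ≤ D := Nat.lt_succ_iff.mp (Finset.mem_range.mp hj)
      have e2 : γ ^ D = γ ^ (D - j) * γ ^ j := by rw [← pow_add, Nat.sub_add_cancel hjD]
      rw [e2, inv_pow]
      field_simp
    rw [e1, hrel, mul_zero]
  set Rel : MvPolynomial (Fin 2) K := ∑ j ∈ Finset.range (D + 1),
    (Polynomial.aeval (MvPolynomial.X 0 : MvPolynomial (Fin 2) K)
      ((g j).map (algebraMap (𝓞 K) K))) * G ^ (D - j) with hRel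
  have hval : ∀ {A : Type _} [Field A] [Algebra K A] (x y : A), MvPolynomial.aeval ![x, y] Rel =
      ∑ j ∈ Finset.range (D + 1), aeval x ((g j).map (algebraMap (𝓞 K) K)) *
        (MvPolynomial.aeval ![x, y] G) ^ (D - j) := by
    intro A _ _ x y
    rw [hRel, map_sum]
    refine Finset.sum_congr rfl fun j _ => ?_
    rw [map_mul, map_pow, ← Polynomial.aeval_algHom_apply, MvPolynomial.aeval_X]
    rfl
  have hvalΩ : ∀ (x y : Ω), MvPolynomial.aeval ![x, y] Rel =
      ∑ j ∈ Finset.range (D + 1), aeval x ((g j).map (algebraMap (𝓞 K) K)) *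
        (MvPolynomial.aeval ![x, y] G) ^ (D - j) := by
    intro x y
    rw [hRel, map_sum]
    refine Finset.sum_congr rfl fun j _ => ?_
    rw [map_mul, map_pow, ← Polynomial.aeval_algHom_apply, MvPolynomial.aeval_X]
    rfl
  have hRelξ : MvPolynomial.aeval ![ξ, η] Rel = 0 := by
    rw [hval, ← hγ, ← hrel2]
    refine Finset.sum_congr rfl fun j _ => ?_
    rw [evK_apply]
  refine ⟨∑ z ∈ (R.rootSet Ω).toFinset, absLogHeight₁ z,
    Finset.sum_nonneg fun z _ => abs_nonneg z, fun x y hxy hG0 => ?_⟩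
  have h1 := hxy Rel hRelξ
  rw [hvalΩ, hG0, Finset.sum_range_succ, Nat.sub_self, pow_zero, mul_one,
    Finset.sum_eq_zero (fun j hj => by
      rw [zero_pow (by have := Finset.mem_range.mp hj; omega), mul_zero]), zero_add] at h1
  have hx : x ∈ (R.rootSet Ω).toFinset := by
    rw [Set.mem_toFinset, mem_rootSet]
    exact ⟨hR0, h1⟩
  exact Finset.single_le_sum (f := fun z => absLogHeight₁ z) (fun z _ => abs_nonneg z) hx

/-- **Siegel's comparison.** -/
theorem siegel {ξ η : F} (hξ : Transcendental K ξ)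
    (hη : IsIntegral (IntermediateField.adjoin K {ξ}) η) {H : MvPolynomial (Fin 2) K}
    (hgen : ∀ G : MvPolynomial (Fin 2) K, MvPolynomial.aeval ![ξ, η] G = 0 ↔ H ∣ G) {a b : ℕ}
    (ha : H.degreeOf 1 = a) (hb : H.degreeOf 0 = b) (ha0 : 0 < a) {s : ℕ} (hs : 0 < s) :
    ∃ B : ℝ, 0 ≤ B ∧ ∀ x y : Ω, Spec K ξ η x y →
      a * (s * absLogHeight₁ y) ≤ b * ((s + (a - 1)) * absLogHeight₁ x) + B := by
  classical
  have hH0 : H ≠ 0 := by
    rintro rfl
    rw [MvPolynomial.degreeOf_zero] at ha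
    omega
  obtain ⟨a', rfl⟩ : ∃ a', a = a' + 1 := ⟨a - 1, by omega⟩
  set e := s + a' with he
  set n := b * e / (a' + 1) with hn
  have hn1 : n * (a' + 1) ≤ b * e := Nat.div_mul_le_self _ _
  have hn2 : b * e < (n + 1) * (a' + 1) := by
    have := Nat.lt_div_mul_add (a := b * e) (b := a' + 1) (by omega)
    rw [add_mul, one_mul]
    exact this
  obtain ⟨G, G', hG, hG', hG0, hdvd⟩ := exists_pair hH0 ha hb (e := e) (n := n + 1) (by omega) hn2
  have hGne : MvPolynomial.aeval ![ξ, η] G ≠ 0 := by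
    intro h0
    obtain ⟨Q, hQ⟩ := (hgen G).mp h0
    have hQ0 : Q ≠ 0 := by
      rintro rfl
      rw [mul_zero] at hQ
      exact hG0 hQ
    have h1 := degreeOf_one_lt hG hG0
    rw [hQ, MvPolynomial.degreeOf_mul_eq hH0 hQ0, ha] at h1
    omega
  obtain ⟨B1, hB10, hB1⟩ := zero_bounded (Ω := Ω) hη hGne
  obtain ⟨A2, B2, hA20, hB20, hcmp⟩ := compare (Ω := Ω) hξ hη
  set c : Fin (n + 1) × Fin (a' + 1) → Ω := fun p => algebraMap K Ω
    (G.coeff (Finsupp.single 0 (p.1 : ℕ) + Finsupp.single 1 (p.2 : ℕ))) with hc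
  set c' : Fin (n + 1) × Fin (a' + 1) → Ω := fun p => algebraMap K Ω
    (G'.coeff (Finsupp.single 0 (p.1 : ℕ) + Finsupp.single 1 (p.2 : ℕ))) with hc'
  set C : ℝ := Real.log ((n + 1) * (a' + 1)) +
    (∑ p, absLogHeight₁ (c' p) + ∑ p, absLogHeight₁ (c p)) with hC
  have hC0 : 0 ≤ C := by
    refine add_nonneg (Real.log_nonneg ?_) (add_nonneg (Finset.sum_nonneg fun p _ => abs_nonneg _)
      (Finset.sum_nonneg fun p _ => abs_nonneg _))
    have h1 : (0 : ℝ) ≤ n := Nat.cast_nonneg _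
    have h2 : (0 : ℝ) ≤ a' := Nat.cast_nonneg _
    nlinarith
  have ha'0 : (0 : ℝ) ≤ a' := Nat.cast_nonneg _
  have hs0 : (0 : ℝ) ≤ s := Nat.cast_nonneg _
  have hb0 : (0 : ℝ) ≤ b := Nat.cast_nonneg _
  refine ⟨(a' + 1) * C + (a' + 1) * (s * (A2 * B1 + B2)), by positivity, fun x y hxy => ?_⟩
  have hx0 := abs_nonneg x
  have hy0 := abs_nonneg y
  push_cast
  by_cases h0 : MvPolynomial.aeval ![x, y] G = 0
  · have h1 := hB1 x y hxy h0
    have h2 := hcmp x y hxy
    have h3 : absLogHeight₁ y ≤ A2 * B1 + B2 :=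
      h2.trans (by linarith [mul_le_mul_of_nonneg_left h1 hA20])
    have h4 : ((a' : ℝ) + 1) * (s * absLogHeight₁ y) ≤ (a' + 1) * (s * (A2 * B1 + B2)) := by
      gcongr
    have h5 : 0 ≤ (b : ℝ) * ((s + (a' + 1 - 1)) * absLogHeight₁ x) := by
      have : (0 : ℝ) ≤ s + (a' + 1 - 1) := by linarith
      positivity
    have h6 : 0 ≤ ((a' : ℝ) + 1) * C := by positivity
    linarith
  · -- the power of `y` is a quotient
    have h1 : MvPolynomial.aeval ![ξ, η] (G * MvPolynomial.X 1 ^ e - G') = 0 :=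
      (hgen _).mpr hdvd
    have h2 := hxy _ h1
    rw [map_sub, map_mul, map_pow, MvPolynomial.aeval_X] at h2
    have h3 : y ^ e = MvPolynomial.aeval ![x, y] G' / MvPolynomial.aeval ![x, y] G := by
      rw [eq_div_iff h0, mul_comm]
      exact sub_eq_zero.mp h2
    rw [aeval_bx hG x y, aeval_bx hG' x y] at h3
    have h4 := abs_ratio_le c c' x y
    rw [← hC] at h4
    have h5 : (e : ℝ) * absLogHeight₁ y ≤ C + (n * absLogHeight₁ x + a' * absLogHeight₁ y) := by
      rw [← UH.abs_pow, h3]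
      exact h4
    have h6 : (s : ℝ) * absLogHeight₁ y ≤ C + n * absLogHeight₁ x := by
      have e1 : (e : ℝ) = s + a' := by rw [he]; push_cast; ring
      rw [e1] at h5
      linarith
    have h7 : (n : ℝ) * (a' + 1) ≤ b * (s + a') := by
      have : ((n * (a' + 1) : ℕ) : ℝ) ≤ ((b * e : ℕ) : ℝ) := by exact_mod_cast hn1
      rw [he] at this
      push_cast at this
      exact this
    have h8 : ((a' : ℝ) + 1) * (s * absLogHeight₁ y) ≤ (a' + 1) * (C + n * absLogHeight₁ x) := by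
      gcongr
    have h9 : (n : ℝ) * (a' + 1) * absLogHeight₁ x ≤ b * (s + a') * absLogHeight₁ x := by
      gcongr
    have h10 : 0 ≤ ((a' : ℝ) + 1) * (s * (A2 * B1 + B2)) := by positivity
    have e2 : (b : ℝ) * ((s + (a' + 1 - 1)) * absLogHeight₁ x) =
        b * (s + a') * absLogHeight₁ x := by ring
    rw [e2]
    linarith

end

end Pool.Agent.UHU
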