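import Pool.Agent.UHU.WMain
import Pool.Agent.UHU.GEngine
import Pool.Agent.UHU.Siegel2
import Pool.Agent.UHU.Hom

/-!
# Tame reduction to a power map, any degree, all curves whose reduction is a weighted form

The weights are the degrees of the coordinates of the curve.
-/

set_option autoImplicit false

universe u

open IsDedekindDomain NumberField Polynomial
open scoped WithZero

namespace Pool.Agent.UHU

open Pool.Agent.UHG (st st_iter map_st map_iter_st IsNonverticalCurve points hyp aeval_pair genHom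
  genHom_eq_zero genHom_of_mem spec_of gen_transcendental gen_integral)
open Pool.Agent.UH2 (aeval_fun)
open Pool.Agent.UHT (Cl)
open Pool.Agent.UHJ (eval_iter)
open Pool.Agent.Arb.DB (u_ne)

/-- **The degree bound for one pair of coordinates.** -/
theorem pair_hom {K : Type u} [Field K] [NumberField K] (f : K[X]) (hq : 2 ≤ f.natDegree)
    (hcrit : IsCoprime (f - X) f.derivative) {n : ℕ} (I : Ideal (MvPolynomial (Fin n) K))
    (m : ℕ) (hm : 0 < m) (i j : Fin n) (v : HeightOneSpectrum (𝓞 K)) (hf : TamePower v f)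
    {a b κ₀ : ℕ} (ha : 0 < a) (hb : 0 < b) {H : MvPolynomial (Fin 2) K} (hH : HomAt v a b κ₀ H)
    (hHI : MvPolynomial.aeval ![(MvPolynomial.X i : MvPolynomial (Fin n) K),
      MvPolynomial.X j] H ∈ I) :
    ∃ C0 : ℕ, ∀ (E : IntermediateField K (AlgebraicClosure K)) [FiniteDimensional K E]
      (P : Fin n → AlgebraicClosure K), P ∈ points I → ∀ g : K[X],
      1 ≤ g.natDegree → g.natDegree * b = a →
      g.comp (f.comp^[m] X) = (f.comp^[m] X).comp g → ∀ r : ℕ, r < m →
      ∀ (x y : E), (x : AlgebraicClosure K) = (st f)^[r] (P i) →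
      (y : AlgebraicClosure K) = st g ((st f)^[r] (P j)) → ∀ N : ℕ,
      (st f)^[N + 1] x = (st f)^[N + 1] y → (st f)^[N] x ≠ (st f)^[N] y →
        f.natDegree ^ N ≤ C0 * Module.finrank K E := by
  classical
  set q := f.natDegree with hqdef
  obtain ⟨o, ho, hord⟩ := hH.ratio hb ha
  obtain ⟨o1, ho1, hord1⟩ := exists_unit_order v
  have hqm : 2 ≤ q ^ m := by
    calc 2 ≤ q := hq
      _ = q ^ 1 := (pow_one q).symm
      _ ≤ q ^ m := Nat.pow_le_pow_right (by omega) hm
  have hqmv : v.valuation K ((q ^ m : ℕ) : K) = 1 := by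
    rw [Nat.cast_pow, map_pow, hf.tame, one_pow]
  obtain ⟨C1, hC1, hcol⟩ := collision_wcone.{u, u} f hq v hf.pr hf.tame hcrit
    (o := o * o1) (Nat.mul_pos ho ho1)
  refine ⟨C1, ?_⟩
  intro E _ P hP g hg hgD hc r _ x y hx hy N heq hne
  have hNF : NumberField E := NumberField.of_module_finite K E
  refine hcol E x y ?_ N heq hne
  intro W e he hw hx1 hy1 hxy1
  obtain ⟨ξ, hξ⟩ := IsAlgClosed.exists_pow_nat_eq (P i) ha
  obtain ⟨η, hη⟩ := IsAlgClosed.exists_pow_nat_eq (P j) hb
  set E' := IntermediateField.adjoin E (insert ξ (insert η (Set.range P))) with hE'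
  have hfd : FiniteDimensional E E' := IntermediateField.finiteDimensional_adjoin
    fun z _ => (Algebra.IsAlgebraic.isAlgebraic z).isIntegral
  have hNF' : NumberField E' := NumberField.of_module_finite E E'
  obtain ⟨W', e', he', _, hw'⟩ := Arb.exists_above W E'
  have hmem : ∀ l, P l ∈ E' := fun l => IntermediateField.subset_adjoin E _
    (Set.mem_insert_of_mem _ (Set.mem_insert_of_mem _ ⟨l, rfl⟩))
  set P' : Fin n → E' := fun l => ⟨P l, hmem l⟩ with hP'
  set ξ' : E' := ⟨ξ, IntermediateField.subset_adjoin E _ (Set.mem_insert _ _)⟩ with hξ'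
  set η' : E' := ⟨η, IntermediateField.subset_adjoin E _
    (Set.mem_insert_of_mem _ (Set.mem_insert _ _))⟩ with hη'
  have hPi : P' i = ξ' ^ a := by
    apply Subtype.coe_injective
    push_cast
    exact hξ.symm
  have hPj : P' j = η' ^ b := by
    apply Subtype.coe_injective
    push_cast
    exact hη.symm
  set φ : E' →ₐ[K] AlgebraicClosure K := E'.val.restrictScalars K with hφ
  have hφinj : Function.Injective φ := φ.injective
  have hφP : ∀ l, φ (P' l) = P l := fun l => rfl
  have hcomp : (MvPolynomial.aeval P : MvPolynomial (Fin n) K →ₐ[K] AlgebraicClosure K) =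
      φ.comp (MvPolynomial.aeval P') := by
    apply MvPolynomial.algHom_ext
    intro l
    rw [AlgHom.comp_apply, MvPolynomial.aeval_X, MvPolynomial.aeval_X, hφP]
  have hPE : ∀ G ∈ I, MvPolynomial.aeval P' G = 0 := by
    intro G hG
    apply hφinj
    rw [map_zero]
    exact (DFunLike.congr_fun hcomp G).symm.trans (hP G hG)
  have hpow : ∀ a : K, v.valuation K a ^ (e * e') =
      W'.valuation E' (algebraMap K E' a) := by
    intro a
    rw [pow_mul, hw, hw', ← IsScalarTower.algebraMap_apply K E E']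
  have hee : 0 < e * e' := by positivity
  have hHP : MvPolynomial.aeval ![ξ' ^ a, η' ^ b] H = 0 := by
    have h1 := hPE _ hHI
    rw [← aeval_pair (MvPolynomial.aeval P'), MvPolynomial.aeval_X, MvPolynomial.aeval_X, hPi,
      hPj] at h1
    exact h1
  have ex : (st f)^[r] (P' i) = algebraMap E E' x := by
    apply hφinj
    rw [map_iter_st, hφP, ← hx]
    rfl
  have ey : st g ((st f)^[r] (P' j)) = algebraMap E E' y := by
    apply hφinj
    rw [map_st, map_iter_st, hφP, ← hy]
    rfl
  -- the polynomials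
  obtain ⟨hGpr, hGd⟩ := hf.pr.iter rfl r
  obtain ⟨hFpr, hFd⟩ := hf.pr.iter rfl m
  have hgpr : PR (v.valuation K) g.natDegree g := PR.of_comm hqm hFd hFpr hqmv hg hc
  set G := f.comp^[r] X with hGdef
  set G2 := G.map (algebraMap K E') with hG2
  set g2 := g.map (algebraMap K E') with hg2
  have hG2pr : PR (W'.valuation E') (q ^ r) G2 := hGpr.base hee hpow
  have hg2pr : PR (W'.valuation E') g.natDegree g2 := hgpr.base hee hpow
  have hstf : ∀ z : E', (st f)^[r] z = G2.eval z := by
    intro z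
    rw [← st_iter]
    change aeval z G = _
    rw [hG2, eval_map_algebraMap]
  have hstg : ∀ z : E', st g z = g2.eval z := fun z => by rw [hg2, eval_map_algebraMap]
  have h1 : W'.valuation E' (algebraMap E E' x) = W.valuation E x ^ e' := (hw' x).symm
  have h2 : W'.valuation E' (algebraMap E E' y) = W.valuation E y ^ e' := (hw' y).symm
  rw [hstf, hPi] at ex
  rw [hstg, hstf, hPj] at ey
  have hκK : v.valuation K ((G.coeff (q ^ r) / (g.coeff g.natDegree *
      G.coeff (q ^ r) ^ g.natDegree)) ^ o1 - 1) < 1 := by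
    apply hord1
    rw [map_div₀, map_mul, map_pow, hGpr.lead, hgpr.lead, one_pow, one_mul, div_one]
  have hκ : W'.valuation E' ((G2.coeff (q ^ r) / (g2.coeff g.natDegree *
      G2.coeff (q ^ r) ^ g.natDegree)) ^ o1 - 1) < 1 := by
    rw [hG2, hg2, coeff_map, coeff_map, ← map_pow, ← map_mul, ← map_div₀, ← map_pow,
      ← map_one (algebraMap K E'), ← map_sub, ← hpow]
    exact pow_lt_one₀ zero_le hκK (by omega)
  have h3 := ratio_wpair (w := W'.valuation E') hG2pr hg2pr (Nat.one_le_pow _ _ (by omega)) hg hb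
    hgD (o := o) (o1 := o1) (ξ := ξ') (η := η')
    (fun hY hXY => hord E' (W'.valuation E') (e * e') hee hpow _ _ hY hXY hHP) hκ
    (by rw [ex, h1]; exact one_le_pow₀ hx1)
    (by rw [ey, h2]; exact one_le_pow₀ hy1)
    (by rw [ex, ey, ← map_div₀, ← hw', hxy1, one_pow])
  rw [ex, ey] at h3
  have e3 : (algebraMap E E' x / algebraMap E E' y) ^ (o * o1) - 1 =
      algebraMap E E' ((x / y) ^ (o * o1) - 1) := by
    rw [map_sub, map_pow, map_div₀, map_one]
  rw [e3, ← hw'] at h3
  by_contra hcon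
  push Not at hcon
  exact absurd h3 (not_lt.mpr (one_le_pow₀ hcon))

section degrees
variable {K : Type*} [Field K]

/-- exchange of the variables -/
theorem aeval_swap {A : Type*} [CommRing A] [Algebra K A] (x y : A) (G : MvPolynomial (Fin 2) K) :
    MvPolynomial.aeval ![y, x] G =
      MvPolynomial.aeval ![x, y] (MvPolynomial.rename (Equiv.swap (0 : Fin 2) 1) G) := by
  rw [MvPolynomial.aeval_rename]
  congr 2
  funext i
  fin_cases i <;> simp

theorem rename_swap_swap (G : MvPolynomial (Fin 2) K) :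
    MvPolynomial.rename (Equiv.swap (0 : Fin 2) 1)
      (MvPolynomial.rename (Equiv.swap (0 : Fin 2) 1) G) = G := by
  rw [MvPolynomial.rename_rename]
  have : ((Equiv.swap (0 : Fin 2) 1) ∘ (Equiv.swap (0 : Fin 2) 1) : Fin 2 → Fin 2) = id := by
    funext i
    simp
  rw [this, MvPolynomial.rename_id_apply]

/-- A polynomial of degree zero in `Y`. -/
theorem exists_of_degreeOf_zero {H : MvPolynomial (Fin 2) K} (h : H.degreeOf 1 = 0) :
    ∃ p : K[X], H = aeval (MvPolynomial.X 0 : MvPolynomial (Fin 2) K) p := by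
  refine ⟨∑ d ∈ H.support, Polynomial.C (H.coeff d) * Polynomial.X ^ (d 0), ?_⟩
  rw [map_sum]
  conv_lhs => rw [H.as_sum]
  refine Finset.sum_congr rfl fun d hd => ?_
  rw [map_mul, map_pow, aeval_C, aeval_X, MvPolynomial.algebraMap_eq]
  have hd1 : d 1 = 0 := by
    have := (MvPolynomial.degreeOf_le_iff.mp h.le) d hd
    omega
  rw [MvPolynomial.monomial_eq, Finsupp.prod_fintype _ _ (fun i => pow_zero _), Fin.prod_univ_two,
    hd1, pow_zero, mul_one]

end degrees

/-- **Uniform height bound, all curves whose reduction is a weighted form, any degree.** -/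
theorem main_all {K : Type u} [Field K] [NumberField K] (f : K[X]) (hq : 2 ≤ f.natDegree)
    (m : ℕ) (hm : 0 < m) (n : ℕ)
    (I : Ideal (MvPolynomial (Fin n) K)) (hI : IsNonverticalCurve I)
    (h : ∀ i j : Fin n, i ≠ j → ∃ H : MvPolynomial (Fin 2) K,
      (∀ G : MvPolynomial (Fin 2) K, MvPolynomial.aeval
        ![(MvPolynomial.X i : MvPolynomial (Fin n) K), MvPolynomial.X j] G ∈ I ↔ H ∣ G) ∧
      ∀ g : K[X], g.natDegree * H.degreeOf 0 = H.degreeOf 1 →
        g.comp (f.comp^[m] X) = (f.comp^[m] X).comp g →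
        IsCoprime (f - X) (derivative f) ∧ ∃ (v : HeightOneSpectrum (𝓞 K)) (κ : ℕ),
          TamePower v f ∧ HomAt v g.natDegree 1 κ H) :
    ∃ B : ℝ, ∀ k : ℕ, ∀ V ∈ hyp f m n k, ¬ points I ⊆ V → ∀ P ∈ points I ∩ V,
      ∑ i, absLogHeight₁ (P i) ≤ B := by
  classical
  have hprime := hI.prime
  have halg : Algebra.IsAlgebraic ℚ (AlgebraicClosure K) := Algebra.IsAlgebraic.trans ℚ K _
  apply main_gen f hq m hm n I hI
  intro i j hij
  obtain ⟨H, hgen, hg⟩ := h i j hij
  have hHI : MvPolynomial.aeval ![(MvPolynomial.X i : MvPolynomial (Fin n) K),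
      MvPolynomial.X j] H ∈ I := (hgen H).mpr dvd_rfl
  have hH0 : H ≠ 0 := by
    rintro rfl
    obtain ⟨G, hG0, hG⟩ := hI.dim_one i j
    exact hG0 (zero_dvd_iff.mp ((hgen G).mp hG))
  set ξ := genHom I (MvPolynomial.X i) with hξdef
  set η := genHom I (MvPolynomial.X j) with hηdef
  have hgenF : ∀ G : MvPolynomial (Fin 2) K, MvPolynomial.aeval ![ξ, η] G = 0 ↔ H ∣ G := by
    intro G
    rw [← hgen, hξdef, hηdef, aeval_pair (genHom I)]
    exact ⟨fun h => genHom_eq_zero h, fun h => genHom_of_mem h⟩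
  have hgenF' : ∀ G : MvPolynomial (Fin 2) K, MvPolynomial.aeval ![η, ξ] G = 0 ↔
      MvPolynomial.rename (Equiv.swap (0 : Fin 2) 1) H ∣ G := by
    intro G
    rw [aeval_swap ξ η, hgenF]
    constructor
    · rintro ⟨Q, hQ⟩
      refine ⟨MvPolynomial.rename (Equiv.swap (0 : Fin 2) 1) Q, ?_⟩
      rw [← map_mul, ← hQ, rename_swap_swap]
    · rintro ⟨Q, hQ⟩
      refine ⟨MvPolynomial.rename (Equiv.swap (0 : Fin 2) 1) Q, ?_⟩
      rw [hQ, map_mul, rename_swap_swap]
  have hdeg0 : (MvPolynomial.rename (Equiv.swap (0 : Fin 2) 1) H).degreeOf 0 = H.degreeOf 1 := by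
    have h1 := MvPolynomial.degreeOf_rename_of_injective (p := H)
      (Equiv.swap (0 : Fin 2) 1).injective 1
    rwa [Equiv.swap_apply_right] at h1
  have hdeg1 : (MvPolynomial.rename (Equiv.swap (0 : Fin 2) 1) H).degreeOf 1 = H.degreeOf 0 := by
    have h1 := MvPolynomial.degreeOf_rename_of_injective (p := H)
      (Equiv.swap (0 : Fin 2) 1).injective 0
    rwa [Equiv.swap_apply_left] at h1
  -- the degrees are positive
  have hpos : ∀ (G : MvPolynomial (Fin 2) K) (i j : Fin n), G ≠ 0 →
      MvPolynomial.aeval ![(MvPolynomial.X i : MvPolynomial (Fin n) K),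
      MvPolynomial.X j] G ∈ I → 0 < G.degreeOf 1 := by
    intro G i j hG0 hG
    by_contra hcon
    obtain ⟨p, hp⟩ := exists_of_degreeOf_zero (H := G) (by omega)
    have hp0 : p ≠ 0 := by
      rintro rfl
      rw [map_zero] at hp
      exact hG0 hp
    apply hI.nonvertical i p hp0
    have h1 : MvPolynomial.aeval ![(MvPolynomial.X i : MvPolynomial (Fin n) K),
        MvPolynomial.X j] G = aeval (MvPolynomial.X i : MvPolynomial (Fin n) K) p := by
      rw [hp, ← Polynomial.aeval_algHom_apply, MvPolynomial.aeval_X]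
      rfl
    rwa [h1] at hG
  have ha0 : 0 < H.degreeOf 1 := hpos H i j hH0 hHI
  have hb0 : 0 < H.degreeOf 0 := by
    rw [← hdeg1]
    refine hpos _ j i ?_ ?_
    · intro h0
      apply hH0
      rw [← rename_swap_swap H, h0, map_zero]
    · rw [← aeval_swap]
      exact hHI
  set a := H.degreeOf 1 with ha
  set b := H.degreeOf 0 with hb
  refine ⟨a, b, ha0, hb0, ?_, ?_⟩
  · -- heights
    have hs : 0 < a * a + a * b + 1 := by omega
    obtain ⟨B1, hB10, hB1⟩ := siegel (Ω := AlgebraicClosure K) (gen_transcendental hI i)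
      (gen_integral hI i j) hgenF ha.symm hb.symm ha0 hs
    obtain ⟨B2, hB20, hB2⟩ := siegel (Ω := AlgebraicClosure K) (gen_transcendental hI j)
      (gen_integral hI j i) hgenF' hdeg1 hdeg0 hb0 hs
    refine ⟨B1 + B2, by positivity, fun P hP => ?_⟩
    have h1 := hB1 _ _ (spec_of hP (MvPolynomial.X i) (MvPolynomial.X j))
    have h2 := hB2 _ _ (spec_of hP (MvPolynomial.X j) (MvPolynomial.X i))
    rw [MvPolynomial.aeval_X, MvPolynomial.aeval_X] at h1 h2
    push_cast at h1 h2
    exact ⟨by linarith, by linarith⟩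
  · -- degrees
    by_cases hex : ∃ g : K[X], g.natDegree * b = a ∧
        g.comp (f.comp^[m] X) = (f.comp^[m] X).comp g
    · obtain ⟨g0, hg0, hg0c⟩ := hex
      obtain ⟨hcrit, v, κ, hf, hH⟩ := hg g0 hg0 hg0c
      have hD0 : 0 < g0.natDegree := by
        rcases Nat.eq_zero_or_pos g0.natDegree with h0 | h0
        · rw [h0, zero_mul] at hg0
          omega
        · exact h0
      obtain ⟨C0, hC0⟩ := pair_hom f hq hcrit I m hm i j v hf hD0 one_pos hH hHI
      refine ⟨C0, ?_⟩
      intro E _ P hP g hg1 hgD hc r hr x y hx hy N heq hne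
      have hgg : g.natDegree = g0.natDegree :=
        Nat.eq_of_mul_eq_mul_right hb0 (hgD.trans hg0.symm)
      exact hC0 E P hP g hg1 (by rw [mul_one, hgg]) hc r hr x y hx hy N heq hne
    · exact ⟨0, fun E _ P hP g hg1 hgD hc => absurd ⟨g, hgD, hc⟩ hex⟩

end Pool.Agent.UHU
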