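import Pool.Agent.UHU.Outer
import Pool.Agent.UH2.GenPow
import Pool.Agent.UHT.TColl

/-!
# Tame reduction to a power map, any degree: degree bound for pairs with controlled ratio
-/

set_option autoImplicit false

open IsDedekindDomain NumberField Polynomial
open scoped WithZero

namespace Pool.Agent.UHU

open Pool.Agent.Arb.DB (od u_ne od_mul od_pos od_nonneg od_lt od_le od_eq od_pow)
open Pool.Agent.UH2 (aeval_fun inner_collision exists_clear le_exp_neg_one IntP eval_le)

/-- Base change. -/
theorem PR.base {K E : Type*} [Field K] [Field E] [Algebra K E] {u : Valuation K ℤᵐ⁰}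
    {w : Valuation E ℤᵐ⁰} {e : ℕ} (he : 0 < e) (hw : ∀ a : K, u a ^ e = w (algebraMap K E a))
    {q : ℕ} {P : K[X]} (h : PR u q P) : PR w q (P.map (algebraMap K E)) := by
  refine ⟨natDegree_map_le.trans h.deg, ?_, fun i hi => ?_⟩
  · rw [coeff_map, ← hw, h.lead, one_pow]
  · rw [coeff_map, ← hw]
    exact pow_lt_one₀ zero_le (h.low i hi) (by omega)

variable {K : Type*} [Field K] [NumberField K]

/-- **Degree bound.** Inside the open unit disc the collisions have large degree, outside the time
is bounded if the order of the ratio is. -/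
theorem collision_cone (f : K[X]) {q : ℕ} (hq : 2 ≤ q) (v : HeightOneSpectrum (𝓞 K))
    (hf : PR (v.valuation K) q f) (hvq : v.valuation K (q : K) = 1)
    (hcrit : IsCoprime (f - X) f.derivative) {o : ℕ} (ho : 0 < o) :
    ∃ C0 : ℕ, 0 < C0 ∧ ∀ (E : Type*) [Field E] [NumberField E] [Algebra K E] (x y : E),
      (∀ (W : HeightOneSpectrum (𝓞 E)) (e : ℕ), 0 < e →
        (∀ a : K, v.valuation K a ^ e = W.valuation E (algebraMap K E a)) →
        1 ≤ W.valuation E x → 1 ≤ W.valuation E y →
          W.valuation E ((x / y) ^ o - 1) < 1) → ∀ N : ℕ,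
      (fun z : E => aeval z f)^[N + 1] x = (fun z : E => aeval z f)^[N + 1] y →
      (fun z : E => aeval z f)^[N] x ≠ (fun z : E => aeval z f)^[N] y →
        q ^ N ≤ C0 * Module.finrank K E := by
  obtain ⟨A, B, hAB⟩ := hcrit
  obtain ⟨c, hc0, hc⟩ := exists_clear A B
  obtain ⟨t, ht⟩ := v.valuation_exists_uniformizer K
  have hcK : (c : K) ≠ 0 := by
    intro h
    exact hc0 (RingOfIntegers.coe_injective (h.trans (map_zero (algebraMap (𝓞 K) K)).symm))
  have ht1 : v.valuation K t < 1 := by
    rw [ht, ← WithZero.exp_zero, WithZero.exp_lt_exp]; norm_num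
  have ht0 : t ≠ 0 := by
    rintro rfl
    rw [map_zero] at ht
    exact (WithZero.exp_ne_zero (a := (-1 : ℤ))) ht.symm
  have hT : 0 < od (v.valuation K) t := (od_pos _ ht0).mp ht1
  set T := od (v.valuation K) t with hTdef
  set b := (od (v.valuation K) (c : K)).toNat with hb
  refine ⟨q ^ (b + 1) * T.toNat + q ^ o, by positivity, ?_⟩
  intro E _ _ _ x y hxy N heq hne
  obtain ⟨w, e, r, he0, he, -, -, -, hw⟩ := UHT.exists_above' v E
  have hfin : 0 < Module.finrank K E := Module.finrank_pos
  have hxy' := hxy w e he0 hw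
  rw [aeval_fun] at heq hne
  set P := f.map (algebraMap K E) with hPdef
  have hP : PR (w.valuation E) q P := hf.base he0 hw
  have hqE : w.valuation E (q : E) = 1 := by
    have := hw (q : K)
    rw [map_natCast (algebraMap K E), hvq, one_pow] at this
    exact this.symm
  set tE := algebraMap K E t with htE
  have htE0 : tE ≠ 0 := by rw [htE, ne_eq, map_eq_zero]; exact ht0
  have htE1 : w.valuation E tE < 1 := by
    rw [htE, ← hw]; exact pow_lt_one₀ zero_le ht1 (by omega)
  have hPt : ∀ i < q, w.valuation E (P.coeff i) ≤ w.valuation E tE := by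
    intro i hi
    rw [hPdef, coeff_map, htE, ← hw, ← hw]
    refine pow_le_pow_left₀ zero_le ?_ e
    rw [ht]
    exact le_exp_neg_one (hf.low i hi)
  set cE := algebraMap K E (c : K) with hcE
  have hcE0 : cE ≠ 0 := by rw [hcE, ne_eq, map_eq_zero]; exact hcK
  have hbez : ∀ z : E, w.valuation E z < 1 →
      w.valuation E cE ≤ max (w.valuation E (P.eval z - z))
        (w.valuation E (P.derivative.eval z)) := by
    intro z hz
    have hAi : IntP (w.valuation E) ((C (c : K) * A).map (algebraMap K E)) := by
      intro i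
      rw [coeff_map, coeff_C_mul, ← hw]
      exact pow_le_one₀ zero_le (hc v i).1
    have hBi : IntP (w.valuation E) ((C (c : K) * B).map (algebraMap K E)) := by
      intro i
      rw [coeff_map, coeff_C_mul, ← hw]
      exact pow_le_one₀ zero_le (hc v i).2
    have e1 : (C (c : K) * A) * (f - X) + (C (c : K) * B) * f.derivative = C (c : K) := by
      linear_combination (C (c : K)) * hAB
    have e2 := congrArg (fun g : K[X] => (g.map (algebraMap K E)).eval z) e1
    simp only [Polynomial.map_add, Polynomial.map_mul, Polynomial.map_sub, map_X, map_C,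
      eval_add, eval_mul, eval_sub, eval_X, eval_C, ← derivative_map, ← hPdef] at e2
    rw [← hcE] at e2
    rw [← e2]
    have hA1 := eval_le hAi hz.le
    have hB1 := eval_le hBi hz.le
    rw [Polynomial.map_mul, map_C, eval_mul, eval_C, ← hcE] at hA1 hB1
    refine Valuation.map_add_le _ ?_ ?_
    · rw [map_mul]
      exact (mul_le_of_le_one_left zero_le hA1).trans (le_max_left _ _)
    · rw [map_mul]
      exact (mul_le_of_le_one_left zero_le hB1).trans (le_max_right _ _)
  have hodt : od (w.valuation E) tE = e * T := od_pow (v.valuation K) e (w.valuation E) (hw t).symm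
  have hodc : od (w.valuation E) cE = e * od (v.valuation K) (c : K) :=
    od_pow (v.valuation K) e (w.valuation E) (hw (c : K)).symm
  have hsame : ∀ x y : E, (fun z => P.eval z)^[N + 1] x = (fun z => P.eval z)^[N + 1] y →
      w.valuation E x < 1 → w.valuation E y < 1 := by
    intro x y h1 hx
    by_contra hcon
    push Not at hcon
    have h3 := hP.iter_small (by omega) hx (N + 1)
    rw [h1, hP.iter_val hcon] at h3
    exact absurd (one_le_pow₀ hcon) (not_le.mpr h3)
  rcases lt_or_ge (w.valuation E x) 1 with hx | hx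
  · have hy := hsame x y heq hx
    have hB : od (w.valuation E) cE ≤ b * od (w.valuation E) tE := by
      rw [hodt, hodc]
      have h1 : od (v.valuation K) (c : K) ≤ b := Int.self_le_toNat _
      have h2 : (1 : ℤ) ≤ T := hT
      have h3 : (0 : ℤ) ≤ e := by positivity
      have h4 : (0 : ℤ) ≤ b := by positivity
      have h5 : (e : ℤ) * od (v.valuation K) (c : K) ≤ e * b :=
        mul_le_mul_of_nonneg_left h1 h3
      have h6 : (e : ℤ) * b * 1 ≤ e * b * T :=
        mul_le_mul_of_nonneg_left h2 (mul_nonneg h3 h4)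
      linarith
    have h7 := inner_collision hq hP.deg hP.lead.le htE0 htE1 hPt hcE0 hbez hB hx hy heq hne
    rw [hodt] at h7
    have h8 : ((e : ℕ) : ℤ) ≤ Module.finrank K E := by exact_mod_cast he
    have h9 : ((q ^ N : ℕ) : ℤ) ≤
        ((q ^ (b + 1) * T.toNat * Module.finrank K E : ℕ) : ℤ) := by
      push_cast
      rw [Int.toNat_of_nonneg hT.le]
      refine h7.trans ?_
      have h10 : (0 : ℤ) ≤ (q : ℤ) ^ (b + 1) := by positivity
      calc (q : ℤ) ^ (b + 1) * (e * T) ≤
          (q : ℤ) ^ (b + 1) * (Module.finrank K E * T) := by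
            refine mul_le_mul_of_nonneg_left ?_ h10
            exact mul_le_mul_of_nonneg_right h8 hT.le
        _ = _ := by ring
    have h11 : q ^ N ≤ q ^ (b + 1) * T.toNat * Module.finrank K E := by
      exact_mod_cast h9
    exact h11.trans (Nat.mul_le_mul_right _ (Nat.le_add_right _ _))
  · have hy : 1 ≤ w.valuation E y := by
      by_contra hcon
      push Not at hcon
      exact absurd (hsame y x heq.symm hcon) (not_lt.mpr hx)
    obtain ⟨h1, h2, h3⟩ := outer_collision (by omega) hP hqE hx hy heq hne
    have h4 := time_lt h1 ho (hxy' hx hy) h2 h3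
    calc q ^ N ≤ q ^ o := Nat.pow_le_pow_right (by omega) h4.le
      _ = q ^ o * 1 := (mul_one _).symm
      _ ≤ q ^ o * Module.finrank K E := Nat.mul_le_mul_left _ hfin
      _ ≤ _ := Nat.mul_le_mul_right _ (Nat.le_add_left _ _)

end Pool.Agent.UHU
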