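import Pool.Agent.UHU.Engine
import Pool.Agent.UHU.Inner
import Pool.Agent.UHU.Balance

/-!
# Tame reduction to a power map, any degree, curves whose reduction is a cone
-/

set_option autoImplicit false

universe u

open IsDedekindDomain NumberField Polynomial
open scoped WithZero

namespace Pool.Agent.UHU

open Pool.Agent.UHG (st st_iter map_st map_iter_st IsNonverticalCurve points hyp aeval_pair)
open Pool.Agent.UH2 (aeval_fun)
open Pool.Agent.UHT (Cl)
open Pool.Agent.Arb.DB (u_ne)

/-- `f` reduces to `u X ^ q`, `q` its degree, `u` a unit, at the finite place `v`, which does not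
divide `q`. -/
structure TamePower {K : Type*} [Field K] [NumberField K] (v : HeightOneSpectrum (𝓞 K))
    (f : K[X]) : Prop where
  tame : v.valuation K (f.natDegree : K) = 1
  lead : v.valuation K f.leadingCoeff = 1
  low : ∀ i < f.natDegree, v.valuation K (f.coeff i) < 1

theorem TamePower.pr {K : Type*} [Field K] [NumberField K] {v : HeightOneSpectrum (𝓞 K)}
    {f : K[X]} (h : TamePower v f) : PR (v.valuation K) f.natDegree f :=
  ⟨le_rfl, h.lead, h.low⟩

/-- The ratio of `f^r(X)` and `g(f^r(Y))`. -/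
theorem ratio_pair {F : Type*} [Field F] {w : Valuation F ℤᵐ⁰} {q : ℕ} {P : F[X]} (hq : 2 ≤ q)
    (hd : P.natDegree = q) (h : PR w q P) (hwq : w (q : F) = 1) {g : F[X]}
    (hg : g.natDegree = 1) {m : ℕ} (hm : 0 < m)
    (hc : g.comp (P.comp^[m] X) = (P.comp^[m] X).comp g) {o : ℕ} {X₁ Y₁ : F} {r : ℕ}
    (hord : 1 ≤ w X₁ → 1 ≤ w Y₁ → w (X₁ / Y₁) = 1 ∧ w ((X₁ / Y₁) ^ o - 1) < 1)
    (hx : 1 ≤ w ((fun z => P.eval z)^[r] X₁))
    (hy : 1 ≤ w (g.eval ((fun z => P.eval z)^[r] Y₁))) :
    w (((fun z => P.eval z)^[r] X₁ / g.eval ((fun z => P.eval z)^[r] Y₁)) ^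
      (o * (q ^ m - 1)) - 1) < 1 := by
  obtain ⟨hη, hη1, hθ, hgz⟩ := linear_comm hq hd h hwq hg hm hc
  set η := g.coeff 1 with hηdef
  set θ := g.coeff 0 with hθdef
  have hX : 1 ≤ w X₁ := by
    by_contra hcon
    push Not at hcon
    exact absurd hx (not_le.mpr (h.iter_small (by omega) hcon r))
  have hY : 1 ≤ w Y₁ := by
    by_contra hcon
    push Not at hcon
    have h1 := h.iter_small (by omega) hcon r
    rw [hgz] at hy
    refine absurd hy (not_le.mpr (Valuation.map_add_lt w ?_ hθ))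
    rw [map_mul, hη1, one_mul]
    exact h1
  set a := (fun z => P.eval z)^[r] X₁ with ha
  set b := (fun z => P.eval z)^[r] Y₁ with hb
  have hb1 : 1 ≤ w b := by rw [hb, h.iter_val hY]; exact one_le_pow₀ hY
  have hη0 : η ≠ 0 := by
    intro h0
    rw [h0, map_zero] at hη1
    exact zero_ne_one hη1
  have hcl1 : Cl w (g.eval b) (η * b) := by
    unfold Cl
    rw [hgz, add_sub_cancel_left, map_mul, hη1, one_mul]
    exact hθ.trans_le hb1
  have ha0 : a ≠ 0 := by
    intro h0
    rw [h0, map_zero] at hx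
    exact absurd zero_lt_one (not_lt.mpr hx)
  have hb0 : b ≠ 0 := by
    intro h0
    rw [h0, map_zero] at hb1
    exact absurd zero_lt_one (not_lt.mpr hb1)
  have hcl2 : Cl w (a / g.eval b) (a / (η * b)) := cl_div (Cl.refl ha0) hcl1
  have hcl3 : Cl w (a / b) ((X₁ / Y₁) ^ q ^ r) := ratio h hX hY r
  have hcl4 : Cl w (a / (η * b)) ((X₁ / Y₁) ^ q ^ r / η) := by
    have := cl_div hcl3 (Cl.refl hη0)
    rwa [div_div, mul_comm b η] at this
  have hcl5 := (hcl2.trans hcl4).pow (o * (q ^ m - 1))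
  obtain ⟨hr1, hr2⟩ := hord hX hY
  have e1 : ((X₁ / Y₁) ^ q ^ r / η) ^ (o * (q ^ m - 1)) =
      (X₁ / Y₁) ^ (o * ((q ^ m - 1) * q ^ r)) := by
    rw [div_pow, mul_comm o (q ^ m - 1), pow_mul η, hη, one_pow, div_one, ← pow_mul]
    congr 1
    ring
  rw [e1] at hcl5
  have h5 : w ((X₁ / Y₁) ^ (o * ((q ^ m - 1) * q ^ r)) - 1) < 1 := unit_pow_sub_mul hr1 hr2 _
  have h6 : w ((a / g.eval b) ^ (o * (q ^ m - 1)) -
      (X₁ / Y₁) ^ (o * ((q ^ m - 1) * q ^ r))) < 1 := by
    unfold Cl at hcl5
    rwa [map_pow w (X₁ / Y₁), hr1, one_pow] at hcl5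
  have e2 : (a / g.eval b) ^ (o * (q ^ m - 1)) - 1 =
      ((a / g.eval b) ^ (o * (q ^ m - 1)) - (X₁ / Y₁) ^ (o * ((q ^ m - 1) * q ^ r))) +
        ((X₁ / Y₁) ^ (o * ((q ^ m - 1) * q ^ r)) - 1) := by ring
  rw [e2]
  exact Valuation.map_add_lt w h6 h5

/-- **The degree bound for one pair of coordinates.** -/
theorem pair_cone {K : Type u} [Field K] [NumberField K] (f : K[X]) (hq : 2 ≤ f.natDegree)
    (hcrit : IsCoprime (f - X) f.derivative) {n : ℕ} (I : Ideal (MvPolynomial (Fin n) K))
    (m : ℕ) (hm : 0 < m) (i j : Fin n) (v : HeightOneSpectrum (𝓞 K)) (hf : TamePower v f)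
    {k : ℕ} {H : MvPolynomial (Fin 2) K} (hH : ConeAt v k H)
    (hHI : MvPolynomial.aeval ![(MvPolynomial.X i : MvPolynomial (Fin n) K),
      MvPolynomial.X j] H ∈ I) :
    ∃ C0 : ℕ, ∀ (E : IntermediateField K (AlgebraicClosure K)) [FiniteDimensional K E]
      (P : Fin n → AlgebraicClosure K), P ∈ points I → ∀ g : K[X],
      g.natDegree = 1 → g.comp (f.comp^[m] X) = (f.comp^[m] X).comp g → ∀ r : ℕ, r < m →
      ∀ (x y : E), (x : AlgebraicClosure K) = (st f)^[r] (P i) →
      (y : AlgebraicClosure K) = st g ((st f)^[r] (P j)) → ∀ N : ℕ,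
      (st f)^[N + 1] x = (st f)^[N + 1] y → (st f)^[N] x ≠ (st f)^[N] y →
        f.natDegree ^ N ≤ C0 * Module.finrank K E := by
  classical
  set q := f.natDegree with hqdef
  obtain ⟨o, ho, hord⟩ := hH.ratio
  have hqm : 0 < q ^ m - 1 := by
    have : 2 ≤ q ^ m := by
      calc 2 ≤ q := hq
        _ = q ^ 1 := (pow_one q).symm
        _ ≤ q ^ m := Nat.pow_le_pow_right (by omega) hm
    omega
  obtain ⟨C1, hC1, hcol⟩ := collision_cone.{u, u} f hq v hf.pr hf.tame hcrit
    (o := o * (q ^ m - 1)) (Nat.mul_pos ho hqm)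
  refine ⟨C1, ?_⟩
  intro E _ P hP g hg hc r _ x y hx hy N heq hne
  have hNF : NumberField E := NumberField.of_module_finite K E
  refine hcol E x y ?_ N heq hne
  intro W e he hw hx1 hy1
  set E' := IntermediateField.adjoin E (Set.range P) with hE'
  have hfd : FiniteDimensional E E' := IntermediateField.finiteDimensional_adjoin
    fun z _ => (Algebra.IsAlgebraic.isAlgebraic z).isIntegral
  have hNF' : NumberField E' := NumberField.of_module_finite E E'
  obtain ⟨W', e', he', _, hw'⟩ := Arb.exists_above W E'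
  have hmem : ∀ l, P l ∈ E' := fun l => IntermediateField.subset_adjoin E _ ⟨l, rfl⟩
  set P' : Fin n → E' := fun l => ⟨P l, hmem l⟩ with hP'
  set φ : E' →ₐ[K] AlgebraicClosure K := E'.val.restrictScalars K with hφ
  have hφinj : Function.Injective φ := φ.injective
  have hφP : ∀ l, φ (P' l) = P l := fun l => rfl
  have hcomp : (MvPolynomial.aeval P : MvPolynomial (Fin n) K →ₐ[K] AlgebraicClosure K) =
      φ.comp (MvPolynomial.aeval P') := by
    apply MvPolynomial.algHom_ext
    intro l
    rw [AlgHom.comp_apply, MvPolynomial.aeval_X, MvPolynomial.aeval_X, hφP]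
  have hPE : ∀ G ∈ I, MvPolynomial.aeval P' G = 0 := by
    intro G hG
    apply hφinj
    rw [map_zero]
    exact (DFunLike.congr_fun hcomp G).symm.trans (hP G hG)
  have hpow : ∀ a : K, v.valuation K a ^ (e * e') =
      W'.valuation E' (algebraMap K E' a) := by
    intro a
    rw [pow_mul, hw, hw', ← IsScalarTower.algebraMap_apply K E E']
  have hHP : MvPolynomial.aeval ![P' i, P' j] H = 0 := by
    have h1 := hPE _ hHI
    rw [← aeval_pair (MvPolynomial.aeval P'), MvPolynomial.aeval_X, MvPolynomial.aeval_X] at h1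
    exact h1
  have ex : (st f)^[r] (P' i) = algebraMap E E' x := by
    apply hφinj
    rw [map_iter_st, hφP, ← hx]
    rfl
  have ey : st g ((st f)^[r] (P' j)) = algebraMap E E' y := by
    apply hφinj
    rw [map_st, map_iter_st, hφP, ← hy]
    rfl
  set P2 := f.map (algebraMap K E') with hP2
  set g2 := g.map (algebraMap K E') with hg2
  have hstf : (st f : E' → E') = fun z => P2.eval z := aeval_fun f
  have hstg : ∀ z : E', st g z = g2.eval z := fun z => by rw [hg2, eval_map_algebraMap]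
  have hcm : g2.comp (P2.comp^[m] X) = (P2.comp^[m] X).comp g2 := by
    have e2 : ∀ n : ℕ, (P2.comp)^[n] X = ((f.comp)^[n] X).map (algebraMap K E') := by
      intro n
      induction n with
      | zero => simp
      | succ n ih => rw [Function.iterate_succ_apply', Function.iterate_succ_apply',
          Polynomial.map_comp, ih]
    rw [e2, hg2, ← Polynomial.map_comp, ← Polynomial.map_comp, hc]
  have hPR : PR (W'.valuation E') q P2 := hf.pr.base (e := e * e') (by positivity) hpow
  have hqE : W'.valuation E' (q : E') = 1 := by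
    have h1 := hpow (q : K)
    rw [map_natCast (algebraMap K E'), hf.tame, one_pow] at h1
    exact h1.symm
  have h1 : W'.valuation E' (algebraMap E E' x) = W.valuation E x ^ e' := (hw' x).symm
  have h2 : W'.valuation E' (algebraMap E E' y) = W.valuation E y ^ e' := (hw' y).symm
  have h3 := ratio_pair (w := W'.valuation E') (P := P2) hq (by rw [hP2, natDegree_map]) hPR hqE
    (g := g2) (by rw [hg2, natDegree_map]; exact hg) hm hcm (o := o) (X₁ := P' i) (Y₁ := P' j)
    (r := r) (fun hX hY => hord E' (W'.valuation E') (e * e') (by positivity) hpow _ _ hX hY hHP)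
    (by rw [← hstf, ex, h1]; exact one_le_pow₀ hx1)
    (by rw [← hstf, ← hstg, ey, h2]; exact one_le_pow₀ hy1)
  rw [← hstf, ← hstg, ex, ey] at h3
  have e3 : (algebraMap E E' x / algebraMap E E' y) ^ (o * (q ^ m - 1)) - 1 =
      algebraMap E E' ((x / y) ^ (o * (q ^ m - 1)) - 1) := by
    rw [map_sub, map_pow, map_div₀, map_one]
  rw [e3, ← hw'] at h3
  by_contra hcon
  push Not at hcon
  exact absurd h3 (not_lt.mpr (one_le_pow₀ hcon))

/-- **Uniform height bound, cone type curves, any degree.** -/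
theorem main_cone {K : Type u} [Field K] [NumberField K] (f : K[X]) (hq : 2 ≤ f.natDegree)
    (hcrit : IsCoprime (f - X) f.derivative) (m : ℕ) (hm : 0 < m) (n : ℕ)
    (I : Ideal (MvPolynomial (Fin n) K)) (hI : IsNonverticalCurve I)
    (h : ∀ i j : Fin n, i ≠ j → ∃ (v : HeightOneSpectrum (𝓞 K)) (k : ℕ)
      (H : MvPolynomial (Fin 2) K), TamePower v f ∧ ConeAt v k H ∧
        MvPolynomial.aeval ![(MvPolynomial.X i : MvPolynomial (Fin n) K),
          MvPolynomial.X j] H ∈ I) :
    ∃ B : ℝ, ∀ k : ℕ, ∀ V ∈ hyp f m n k, ¬ points I ⊆ V → ∀ P ∈ points I ∩ V,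
      ∑ i, absLogHeight₁ (P i) ≤ B := by
  classical
  have halg : Algebra.IsAlgebraic ℚ (AlgebraicClosure K) := Algebra.IsAlgebraic.trans ℚ K _
  apply main_bal f hq m hm n I hI
  · -- heights
    have key : ∀ i j : Fin n, ∃ B : ℝ, 0 ≤ B ∧ ∀ P ∈ points I,
        absLogHeight₁ (P j) ≤ absLogHeight₁ (P i) + B := by
      intro i j
      by_cases hij : i = j
      · subst hij
        exact ⟨0, le_rfl, fun P _ => by linarith⟩
      · obtain ⟨v, k, H, hf, hH, hHI⟩ := h i j hij
        have h0 : H.coeff (Finsupp.single 1 k) ≠ 0 := by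
          intro h0
          have := hH.right
          rw [h0, map_zero] at this
          exact zero_ne_one this
        obtain ⟨B, hB0, hB⟩ := height_cone (Ω := AlgebraicClosure K) H hH.pos hH.deg h0
        refine ⟨B, hB0, fun P hP => hB _ _ ?_⟩
        have h1 := hP _ hHI
        rw [← aeval_pair (MvPolynomial.aeval P), MvPolynomial.aeval_X, MvPolynomial.aeval_X] at h1
        exact h1
    choose B hB0 hB using key
    refine ⟨∑ i, ∑ j, B i j, Finset.sum_nonneg fun i _ => Finset.sum_nonneg fun j _ => hB0 i j,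
      fun P hP i j => ?_⟩
    have h1 := hB i j P hP
    have h2 : B i j ≤ ∑ i, ∑ j, B i j := (Finset.single_le_sum (f := B i) (fun j _ => hB0 i j)
      (Finset.mem_univ j)).trans (Finset.single_le_sum (f := fun i => ∑ j, B i j)
      (fun i _ => Finset.sum_nonneg fun j _ => hB0 i j) (Finset.mem_univ i))
    linarith
  · -- degrees
    have key : ∀ i j : Fin n, ∃ C0 : ℕ, i ≠ j →
        ∀ (E : IntermediateField K (AlgebraicClosure K)) [FiniteDimensional K E]
        (P : Fin n → AlgebraicClosure K), P ∈ points I → ∀ g : K[X],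
        g.natDegree = 1 → g.comp (f.comp^[m] X) = (f.comp^[m] X).comp g → ∀ r : ℕ, r < m →
        ∀ (x y : E), (x : AlgebraicClosure K) = (st f)^[r] (P i) →
        (y : AlgebraicClosure K) = st g ((st f)^[r] (P j)) → ∀ N : ℕ,
        (st f)^[N + 1] x = (st f)^[N + 1] y → (st f)^[N] x ≠ (st f)^[N] y →
          f.natDegree ^ N ≤ C0 * Module.finrank K E := by
      intro i j
      by_cases hij : i = j
      · exact ⟨0, fun hne => absurd hij hne⟩
      · obtain ⟨v, k, H, hf, hH, hHI⟩ := h i j hij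
        obtain ⟨C0, hC0⟩ := pair_cone f hq hcrit I m hm i j v hf hH hHI
        exact ⟨C0, fun _ => hC0⟩
    choose C hC using key
    refine ⟨∑ i, ∑ j, C i j, ?_⟩
    intro E _ P hP i j hij g hg hc r hr x y hx hy N heq hne
    refine (hC i j hij E P hP g hg hc r hr x y hx hy N heq hne).trans
      (Nat.mul_le_mul_right _ ?_)
    exact (Finset.single_le_sum (f := fun j => C i j) (fun j _ => Nat.zero_le _)
      (Finset.mem_univ j)).trans (Finset.single_le_sum (f := fun i => ∑ j, C i j)
        (fun i _ => Nat.zero_le _) (Finset.mem_univ i))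

end Pool.Agent.UHU
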