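import Pool.Agent.UHU.Outer
import Pool.Agent.UH2.GenLoc

/-!
# Polynomials commuting with an iterate of a polynomial with tame reduction to a power map
-/

set_option autoImplicit false

open Polynomial
open scoped WithZero

namespace Pool.Agent.UHU

open Pool.Agent.Arb.DB (u_ne)
open Pool.Agent.UH2 (IntP)

section algebra
variable {R : Type*} [CommRing R] [IsDomain R]

/-- A polynomial commuting with `a X ^ Q` is a monomial, if `Q ≠ 0` in the ring. -/
theorem mono_of_comm {a : R} (ha : a ≠ 0) {Q : ℕ} (hQ : 2 ≤ Q) (hQ0 : (Q : R) ≠ 0) {g : R[X]}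
    (h : g.comp (C a * X ^ Q) = C a * g ^ Q) : ∀ i, i ≠ g.natDegree → g.coeff i = 0 := by
  by_cases hg : g = 0
  · intro i _; rw [hg, coeff_zero]
  set s := g.natTrailingDegree with hs
  obtain ⟨k, hk⟩ : X ^ s ∣ g := by
    rw [X_pow_dvd_iff]
    intro d hd
    exact coeff_eq_zero_of_lt_natTrailingDegree hd
  have hkc : ∀ i, g.coeff (i + s) = k.coeff i := by
    intro i
    rw [hk, coeff_X_pow_mul]
  set c := k.coeff 0 with hc
  have hc0 : c ≠ 0 := by
    rw [hc, ← hkc, zero_add]
    exact trailingCoeff_nonzero_iff_nonzero.mpr hg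
  -- cancel the powers of `X`
  have h1 : C (a ^ s) * k.comp (C a * X ^ Q) = C a * k ^ Q := by
    have e1 : g.comp (C a * X ^ Q) = X ^ (Q * s) * (C (a ^ s) * k.comp (C a * X ^ Q)) := by
      conv_lhs => rw [hk]
      rw [mul_comp, pow_comp, X_comp, mul_pow, ← C_pow, ← pow_mul]
      ring
    have e2 : C a * g ^ Q = X ^ (Q * s) * (C a * k ^ Q) := by
      conv_lhs => rw [hk]
      rw [mul_pow, ← pow_mul, mul_comm s Q]
      ring
    rw [e1, e2] at h
    exact mul_left_cancel₀ (pow_ne_zero _ X_ne_zero) h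
  -- all positive coefficients of `k` vanish
  have hkpos : ∀ r, 0 < r → k.coeff r = 0 := by
    intro r
    induction r using Nat.strong_induction_on with
    | _ r ih =>
      intro hr
      by_contra hne
      obtain ⟨l, hl⟩ : X ^ r ∣ k - C c := by
        rw [X_pow_dvd_iff]
        intro d hd
        rcases Nat.eq_zero_or_pos d with h0 | h0
        · rw [h0, coeff_sub, coeff_C_zero, hc, sub_self]
        · rw [coeff_sub, coeff_C_of_ne_zero (by omega), ih d hd h0, sub_zero]
      have hl0 : l.coeff 0 = k.coeff r := by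
        have e1 : (k - C c).coeff r = (X ^ r * l).coeff r :=
          congrArg (fun p : R[X] => p.coeff r) hl
        rw [coeff_sub, coeff_C_of_ne_zero (by omega), sub_zero] at e1
        rw [e1]
        have := coeff_X_pow_mul l r 0
        rw [zero_add] at this
        exact this.symm
      have hk2 : k = C c + X ^ r * l := by rw [← hl]; ring
      obtain ⟨t, ht⟩ := powAddExpansion (C c) (X ^ r * l) Q
      have e1 : (C a * k ^ Q).coeff r = a * (Q * c ^ (Q - 1) * k.coeff r) := by
        rw [coeff_C_mul]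
        congr 1
        rw [hk2, ht, coeff_add, coeff_add]
        have e2 : (C c ^ Q : R[X]).coeff r = 0 := by
          rw [← C_pow, coeff_C_of_ne_zero (by omega)]
        have e3 : ((Q : R[X]) * C c ^ (Q - 1) * (X ^ r * l)).coeff r =
            Q * c ^ (Q - 1) * k.coeff r := by
          have e4 : (Q : R[X]) * C c ^ (Q - 1) * (X ^ r * l) =
              C ((Q : R) * c ^ (Q - 1)) * (X ^ r * l) := by
            rw [C_mul, C_pow, map_natCast]
          rw [e4, coeff_C_mul, ← hl0]
          congr 1
          have := coeff_X_pow_mul l r 0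
          rw [zero_add] at this
          exact this
        have e5 : (t * (X ^ r * l) ^ 2).coeff r = 0 := by
          have e6 : t * (X ^ r * l) ^ 2 = X ^ (2 * r) * (t * l ^ 2) := by ring
          rw [e6, coeff_X_pow_mul', if_neg (by omega)]
        rw [e2, e3, e5, zero_add, add_zero]
        rw [← hk2]
      have e2 : (C (a ^ s) * k.comp (C a * X ^ Q)).coeff r = 0 := by
        rw [coeff_C_mul]
        have e3 : k.comp (C a * X ^ Q) = expand R Q (k.comp (C a * X)) := by
          rw [expand_eq_comp_X_pow, comp_assoc, mul_comp, C_comp, X_comp]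
        rw [e3, coeff_expand (by omega)]
        split_ifs with hdvd
        · obtain ⟨j, hj⟩ := hdvd
          have hj0 : 0 < j := by
            rcases Nat.eq_zero_or_pos j with h0 | h0
            · rw [h0, mul_zero] at hj; omega
            · exact h0
          have hjr : r / Q = j := by rw [hj]; exact Nat.mul_div_cancel_left j (by omega)
          rw [hjr, comp_C_mul_X_coeff, ih j (by rw [hj]; nlinarith) hj0, zero_mul, mul_zero]
        · rw [mul_zero]
      rw [h1, e1] at e2
      exact mul_ne_zero ha (mul_ne_zero (mul_ne_zero hQ0 (pow_ne_zero _ hc0)) hne) e2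
  -- conclusion
  have hkC : k = C c := by
    ext i
    rcases Nat.eq_zero_or_pos i with h0 | h0
    · rw [h0, coeff_C_zero]
    · rw [hkpos i h0, coeff_C_of_ne_zero (by omega)]
  have hgm : g = C c * X ^ s := by
    conv_lhs => rw [hk, hkC]
    rw [mul_comm]
  intro i hi
  rw [hgm, natDegree_C_mul_X_pow s c hc0] at hi
  rw [hgm, coeff_C_mul_X_pow, if_neg hi]

end algebra

section val
variable {F : Type*} [Field F] (u : Valuation F ℤᵐ⁰)

/-- The maximal ideal. -/
def mIdeal : Ideal u.integer where
  carrier := {x | u (x : F) < 1}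
  add_mem' := fun {a b} ha hb => by
    have h1 : u (a : F) < 1 := ha
    have h2 : u (b : F) < 1 := hb
    change u ((a : F) + b) < 1
    exact Valuation.map_add_lt u h1 h2
  zero_mem' := by
    change u ((0 : u.integer) : F) < 1
    rw [ZeroMemClass.coe_zero, map_zero]
    exact zero_lt_one
  smul_mem' := fun c {x} hx => by
    have h1 : u (x : F) < 1 := hx
    change u ((c : F) * x) < 1
    rw [map_mul]
    exact (mul_le_of_le_one_left zero_le c.2).trans_lt h1

theorem mem_mIdeal {x : u.integer} : x ∈ mIdeal u ↔ u (x : F) < 1 := Iff.rfl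

instance : (mIdeal u).IsPrime := by
  refine ⟨?_, fun {x y} hxy => ?_⟩
  · rw [Ideal.ne_top_iff_one]
    intro h
    have h1 : u ((1 : u.integer) : F) < 1 := h
    rw [OneMemClass.coe_one, map_one] at h1
    exact lt_irrefl _ h1
  · have h1 : u ((x : F) * y) < 1 := hxy
    rw [map_mul] at h1
    by_contra hcon
    push Not at hcon
    obtain ⟨h2, h3⟩ := hcon
    rw [mem_mIdeal, not_lt] at h2 h3
    exact absurd h1 (not_lt.mpr (one_le_mul_of_one_le_of_one_le h2 h3))

/-- Reduction. -/
abbrev red : u.integer →+* u.integer ⧸ mIdeal u := Ideal.Quotient.mk (mIdeal u)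

theorem red_eq_zero {x : u.integer} : red u x = 0 ↔ u (x : F) < 1 :=
  Ideal.Quotient.eq_zero_iff_mem

variable {u}

/-- `PR` by reduction. -/
theorem pr_iff_red {q : ℕ} {P : F[X]} {Q : (u.integer)[X]}
    (hQ : Q.map u.integer.subtype = P) (hd : P.natDegree ≤ q) (hl : u (P.coeff q) = 1) :
    PR u q P ↔ Q.map (red u) = C (red u (Q.coeff q)) * X ^ q := by
  have hc : ∀ i, P.coeff i = (Q.coeff i : F) := fun i => by rw [← hQ, coeff_map]; rfl
  constructor
  · intro h
    ext i
    rw [coeff_map, coeff_C_mul_X_pow]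
    rcases lt_trichotomy i q with hi | hi | hi
    · rw [if_neg (by omega), red_eq_zero, ← hc]
      exact h.low i hi
    · rw [if_pos hi, hi]
    · rw [if_neg (by omega), red_eq_zero, ← hc, coeff_eq_zero_of_natDegree_lt (by omega),
        map_zero]
      exact zero_lt_one
  · intro h
    refine ⟨hd, hl, fun i hi => ?_⟩
    have h1 : (Q.map (red u)).coeff i = (C (red u (Q.coeff q)) * X ^ q).coeff i :=
      congrArg (fun p => p.coeff i) h
    rw [coeff_map, coeff_C_mul_X_pow, if_neg (by omega), red_eq_zero, ← hc] at h1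
    exact h1

theorem PR.intP {q : ℕ} {P : F[X]} (h : PR u q P) : IntP u P := by
  intro i
  rcases lt_trichotomy i q with hi | hi | hi
  · exact (h.low i hi).le
  · rw [hi, h.lead]
  · have := h.deg
    rw [coeff_eq_zero_of_natDegree_lt (by omega), map_zero]
    exact zero_le

theorem lift_inj {P Q : (u.integer)[X]}
    (h : P.map u.integer.subtype = Q.map u.integer.subtype) : P = Q :=
  map_injective _ Subtype.val_injective h

theorem red_lead {q : ℕ} {P : F[X]} {Q : (u.integer)[X]} (hQ : Q.map u.integer.subtype = P)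
    (hl : u (P.coeff q) = 1) : red u (Q.coeff q) ≠ 0 := by
  have hc : P.coeff q = (Q.coeff q : F) := by rw [← hQ, coeff_map]; rfl
  rw [ne_eq, red_eq_zero, ← hc, hl]
  exact lt_irrefl _

/-- Composition. -/
theorem PR.comp {q q' : ℕ} {P P' : F[X]} (h : PR u q P) (h' : PR u q' P')
    (hq' : P'.natDegree = q') (hq : P.natDegree = q) : PR u (q * q') (P.comp P') := by
  obtain ⟨Q, hQ⟩ := h.intP.lift
  obtain ⟨Q', hQ'⟩ := h'.intP.lift
  have h1 := (pr_iff_red hQ h.deg h.lead).mp h
  have h2 := (pr_iff_red hQ' h'.deg h'.lead).mp h'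
  have hcomp : (Q.comp Q').map u.integer.subtype = P.comp P' := by
    rw [Polynomial.map_comp, hQ, hQ']
  have hdeg : (P.comp P').natDegree = q * q' := by rw [natDegree_comp, hq, hq']
  have hP0 : P'.coeff q' ≠ 0 := by
    intro h0
    have := h'.lead
    rw [h0, map_zero] at this
    exact zero_ne_one this
  have hlead : u ((P.comp P').coeff (q * q')) = 1 := by
    rcases Nat.eq_zero_or_pos q' with h0 | h0
    · -- constant
      rw [h0, mul_zero]
      have e1 : P' = C (P'.coeff 0) := eq_C_of_natDegree_eq_zero (by rw [hq', h0])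
      have hl' : u (P'.coeff 0) = 1 := by rw [← h0]; exact h'.lead
      rw [e1, comp_C, coeff_C_zero]
      rw [h.val (by rw [hl']), hl', one_pow]
    · have e1 : (P.comp P').coeff (q * q') = (P.comp P').leadingCoeff := by
        rw [leadingCoeff, hdeg]
      rw [e1, leadingCoeff_comp (by omega), map_mul, map_pow, leadingCoeff, leadingCoeff, hq, hq',
        h.lead, h'.lead, one_pow, one_mul]
  rw [pr_iff_red hcomp hdeg.le hlead]
  have e2 : (Q.comp Q').map (red u) =
      C (red u (Q.coeff q) * red u (Q'.coeff q') ^ q) * X ^ (q * q') := by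
    rw [Polynomial.map_comp, h1, h2, mul_comp, C_comp, pow_comp, X_comp, mul_pow, ← pow_mul,
      ← C_pow, ← mul_assoc, ← C_mul, mul_comm q' q]
  have e3 : red u ((Q.comp Q').coeff (q * q')) =
      red u (Q.coeff q) * red u (Q'.coeff q') ^ q := by
    have h3 : ((Q.comp Q').map (red u)).coeff (q * q') =
        (C (red u (Q.coeff q) * red u (Q'.coeff q') ^ q) * X ^ (q * q')).coeff (q * q') :=
      congrArg (fun p => p.coeff (q * q')) e2
    rw [coeff_map, coeff_C_mul_X_pow, if_pos rfl] at h3
    exact h3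
  rw [e2, e3]

/-- Iterates. -/
theorem PR.iter {q : ℕ} {P : F[X]} (h : PR u q P) (hd : P.natDegree = q) (m : ℕ) :
    PR u (q ^ m) (P.comp^[m] X) ∧ (P.comp^[m] X).natDegree = q ^ m := by
  induction m with
  | zero =>
    refine ⟨⟨by simp, by simp, fun i hi => ?_⟩, by simp⟩
    rw [pow_zero] at hi
    have : i = 0 := by omega
    subst this
    simp
  | succ m ih =>
    rw [Function.iterate_succ_apply', pow_succ']
    exact ⟨h.comp ih.1 ih.2 hd, by rw [natDegree_comp, hd, ih.2]⟩

/-- **Commuting polynomials reduce to monomials.** -/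
theorem PR.of_comm {q : ℕ} (hq : 2 ≤ q) {P : F[X]} (hd : P.natDegree = q) (h : PR u q P)
    (huq : u (q : F) = 1) {g : F[X]} (hg : 1 ≤ g.natDegree)
    (hc : g.comp P = P.comp g) : PR u g.natDegree g := by
  set D := g.natDegree with hD
  have hg0 : g ≠ 0 := by
    rintro rfl
    rw [natDegree_zero] at hD
    omega
  -- the leading coefficient
  have hlead : u (g.coeff D) = 1 := by
    have e1 := congrArg leadingCoeff hc
    rw [leadingCoeff_comp (by omega), leadingCoeff_comp (by omega), hd] at e1
    have e2 := congrArg u e1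
    rw [map_mul, map_mul, map_pow, map_pow] at e2
    have e3 : u P.leadingCoeff = 1 := by rw [leadingCoeff, hd]; exact h.lead
    rw [e3, one_pow, mul_one, one_mul] at e2
    have e4 : u g.leadingCoeff ≠ 0 := u_ne u (leadingCoeff_ne_zero.mpr hg0)
    obtain ⟨k, rfl⟩ : ∃ k, q = k + 1 := ⟨q - 1, by omega⟩
    rw [pow_succ] at e2
    have e5 : u g.leadingCoeff ^ k = 1 := mul_right_cancel₀ e4 (by rw [one_mul]; exact e2.symm)
    exact (pow_eq_one_iff_of_nonneg zero_le (by omega)).mp e5
  obtain ⟨PA, hPA⟩ := h.intP.lift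
  have hPred := (pr_iff_red hPA h.deg h.lead).mp h
  have hPl := red_lead hPA h.lead
  -- integrality
  have hint : IntP u g := by
    by_contra hcon
    unfold IntP at hcon
    push Not at hcon
    obtain ⟨i0, hi0⟩ := hcon
    obtain ⟨j, hj, hjm⟩ := Finset.exists_max_image (Finset.range (D + 1))
      (fun i => u (g.coeff i)) ⟨0, Finset.mem_range.mpr (by omega)⟩
    have hall : ∀ i, u (g.coeff i) ≤ u (g.coeff j) := by
      intro i
      rcases Nat.lt_or_ge i (D + 1) with hi | hi
      · exact hjm i (Finset.mem_range.mpr hi)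
      · rw [coeff_eq_zero_of_natDegree_lt (by omega), map_zero]; exact zero_le
    set c := g.coeff j with hcdef
    have hc1 : 1 < u c := hi0.trans_le (hall i0)
    have hc0 : c ≠ 0 := by
      intro h0
      rw [h0, map_zero] at hc1
      exact absurd hc1 (not_lt.mpr zero_le)
    have huc0 : u c ≠ 0 := u_ne u hc0
    set g1 := C c⁻¹ * g with hg1
    have hg1int : IntP u g1 := by
      intro i
      rw [hg1, coeff_C_mul, map_mul, map_inv₀, inv_mul_le_iff₀ (zero_lt_iff.mpr huc0), mul_one]
      exact hall i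
    obtain ⟨gA, hgA⟩ := hg1int.lift
    -- the scaled polynomial
    set G := C ((c ^ q)⁻¹) * P.comp (C c * X) with hG
    have hGc : ∀ i, G.coeff i = (c ^ q)⁻¹ * (P.coeff i * c ^ i) := by
      intro i
      rw [hG, coeff_C_mul, comp_C_mul_X_coeff]
    have hGpr : PR u q G := by
      refine ⟨?_, ?_, fun i hi => ?_⟩
      · rw [natDegree_le_iff_coeff_eq_zero]
        intro i hi
        rw [hGc, coeff_eq_zero_of_natDegree_lt (by omega), zero_mul, mul_zero]
      · rw [hGc, map_mul, map_inv₀, map_mul, h.lead, one_mul, map_pow,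
          inv_mul_cancel₀ (pow_ne_zero _ huc0)]
      · rw [hGc, map_mul, map_inv₀, map_mul, map_pow, map_pow,
          inv_mul_lt_iff₀ (pow_pos (zero_lt_iff.mpr huc0) _), mul_one]
        calc u (P.coeff i) * u c ^ i < 1 * u c ^ i :=
              mul_lt_mul_of_pos_right (h.low i hi) (pow_pos (zero_lt_iff.mpr huc0) _)
          _ = u c ^ i := one_mul _
          _ ≤ u c ^ q := pow_le_pow_right₀ hc1.le hi.le
    obtain ⟨GA, hGA⟩ := hGpr.intP.lift
    have hGred := (pr_iff_red hGA hGpr.deg hGpr.lead).mp hGpr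
    have hGl := red_lead hGA hGpr.lead
    -- the identity
    have hγ : u ((c ^ q)⁻¹ * c) ≤ 1 ∧ u ((c ^ q)⁻¹ * c) < 1 := by
      have : u ((c ^ q)⁻¹ * c) < 1 := by
        rw [map_mul, map_inv₀, map_pow, inv_mul_lt_iff₀ (pow_pos (zero_lt_iff.mpr huc0) _),
          mul_one]
        calc u c = u c ^ 1 := (pow_one _).symm
          _ < u c ^ q := pow_lt_pow_right₀ hc1 (by omega)
      exact ⟨this.le, this⟩
    have hgcg : g = C c * g1 := by
      rw [hg1, ← mul_assoc, ← C_mul, mul_inv_cancel₀ hc0, C_1, one_mul]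
    have hid : G.comp g1 = C ((c ^ q)⁻¹ * c) * g1.comp P := by
      rw [hG, mul_comp, C_comp, comp_assoc, mul_comp, C_comp, X_comp, ← hgcg, ← hc]
      conv_lhs => rw [hgcg]
      rw [mul_comp, C_comp, ← mul_assoc, ← C_mul]
    have hidA : GA.comp gA = C (⟨(c ^ q)⁻¹ * c, hγ.1⟩ : u.integer) * gA.comp PA := by
      apply lift_inj
      rw [Polynomial.map_comp, Polynomial.map_mul, Polynomial.map_comp, hGA, hgA, hPA, map_C]
      exact hid
    have hidR := congrArg (Polynomial.map (red u)) hidA
    have hγ0 : red u (⟨(c ^ q)⁻¹ * c, hγ.1⟩ : u.integer) = 0 := (red_eq_zero u).mpr hγ.2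
    rw [Polynomial.map_comp, hGred, Polynomial.map_mul, map_C, hγ0, C_0,
      zero_mul, mul_comp, C_comp, pow_comp, X_comp] at hidR
    have hgA0 : gA.map (red u) = 0 := by
      rcases mul_eq_zero.mp hidR with h3 | h3
      · exact absurd (C_eq_zero.mp h3) hGl
      · exact pow_eq_zero_iff (by omega) |>.mp h3
    have h4 : (gA.map (red u)).coeff j = (0 : (u.integer ⧸ mIdeal u)[X]).coeff j :=
      congrArg (fun p => p.coeff j) hgA0
    rw [coeff_map, coeff_zero, red_eq_zero] at h4
    have h5 : (gA.coeff j : F) = g1.coeff j := by rw [← hgA, coeff_map]; rfl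
    rw [h5, hg1, coeff_C_mul, ← hcdef, inv_mul_cancel₀ hc0, map_one] at h4
    exact lt_irrefl _ h4
  -- reduction
  obtain ⟨gA, hgA⟩ := hint.lift
  rw [pr_iff_red hgA le_rfl hlead]
  have hcA : gA.comp PA = PA.comp gA := by
    apply lift_inj
    rw [Polynomial.map_comp, Polynomial.map_comp, hPA, hgA]
    exact hc
  have hcR := congrArg (Polynomial.map (red u)) hcA
  rw [Polynomial.map_comp, Polynomial.map_comp, hPred, mul_comp, C_comp, pow_comp, X_comp] at hcR
  have hQ0 : ((q : ℕ) : u.integer ⧸ mIdeal u) ≠ 0 := by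
    have e1 : ((q : ℕ) : u.integer ⧸ mIdeal u) = red u (q : u.integer) := by
      rw [map_natCast]
    rw [e1, ne_eq, red_eq_zero]
    have e2 : (((q : ℕ) : u.integer) : F) = (q : F) := by simp
    rw [e2, huq]
    exact lt_irrefl _
  have hmono := mono_of_comm hPl hq hQ0 hcR
  have hgl := red_lead hgA hlead
  have hdegR : (gA.map (red u)).natDegree = D := by
    by_contra hne
    apply hgl
    have h3 := hmono D (fun h => hne h.symm)
    rw [coeff_map] at h3
    exact h3
  ext i
  rw [coeff_C_mul_X_pow]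
  split_ifs with hi
  · rw [hi, coeff_map]
  · exact hmono i (by rw [hdegR]; exact hi)

end val

end Pool.Agent.UHU
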