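import Pool.Agent.UHW.Period

/-!
# Roots of unity: residues of bounded degree, orders
-/

set_option autoImplicit false

open IsDedekindDomain NumberField Polynomial
open scoped WithZero

namespace Pool.Agent.UHU

open Pool.Agent.Arb.DB (od u_ne od_mul od_pos od_nonneg od_lt od_le od_eq od_pow)
open Pool.Agent.UHW (eval_val_le eval_val_lt)

section arith

/-- A divisor of a power of `q` divides `q ^ a`. -/
theorem dvd_pow_self' {q : ℕ} (a : ℕ) : 0 < a → ∀ M, a ∣ q ^ M → a ∣ q ^ a := by
  induction a using Nat.strong_induction_on with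
  | _ a ih =>
    intro ha M hM
    rcases Nat.lt_or_ge 1 a with h1 | h1
    · set g := Nat.gcd a q with hg
      have hg1 : g ≠ 1 := by
        intro h
        have hc : Nat.Coprime a (q ^ M) := Nat.Coprime.pow_right M h
        have := Nat.Coprime.eq_one_of_dvd hc hM
        omega
      have hg0 : 0 < g := Nat.gcd_pos_of_pos_left q ha
      obtain ⟨b, hb⟩ := Nat.gcd_dvd_left a q
      rw [← hg] at hb
      have hb0 : 0 < b := by
        rcases Nat.eq_zero_or_pos b with h | h
        · rw [h, mul_zero] at hb; omega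
        · exact h
      have hlt : b < a := by
        rw [hb]
        have : 2 ≤ g := by omega
        nlinarith
      have h2 : b ∣ q ^ b := ih b hlt hb0 M ((Dvd.intro_left g hb.symm).trans hM)
      have h3 : a ∣ q ^ (b + 1) := by
        conv_lhs => rw [hb]
        rw [pow_succ, mul_comm]
        exact Nat.mul_dvd_mul h2 (Nat.gcd_dvd_right a q)
      exact h3.trans (pow_dvd_pow q hlt)
    · have : a = 1 := by omega
      rw [this]
      exact one_dvd _

end arith

section val
variable {F : Type*} [Field F] {u : Valuation F ℤᵐ⁰}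

theorem unit_pow_sub_mul {z : F} (hz : u z = 1) {k : ℕ} (h : u (z ^ k - 1) < 1) (j : ℕ) :
    u (z ^ (k * j) - 1) < 1 := by
  have h1 : u (z ^ k) = 1 := by rw [map_pow, hz, one_pow]
  induction j with
  | zero => rw [mul_zero, pow_zero, sub_self, map_zero]; exact zero_lt_one
  | succ j ih =>
    have e : z ^ (k * (j + 1)) - 1 = z ^ k * (z ^ (k * j) - 1) + (z ^ k - 1) := by
      rw [mul_add, mul_one, pow_add]; ring
    rw [e]
    refine Valuation.map_add_lt u ?_ h
    rw [map_mul, h1, one_mul]
    exact ih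

theorem unit_pow_sub_sub {z : F} (hz : u z = 1) {a b : ℕ} (hba : b ≤ a)
    (ha : u (z ^ a - 1) < 1) (hb : u (z ^ b - 1) < 1) : u (z ^ (a - b) - 1) < 1 := by
  have h1 : u (z ^ b) = 1 := by rw [map_pow, hz, one_pow]
  have e : z ^ b * (z ^ (a - b) - 1) = (z ^ a - 1) - (z ^ b - 1) := by
    rw [mul_sub, ← pow_add, Nat.add_sub_cancel' hba]; ring
  have h2 : u (z ^ b * (z ^ (a - b) - 1)) < 1 := by
    rw [e]; exact Valuation.map_sub_lt u ha hb
  rwa [map_mul, h1, one_mul] at h2

theorem unit_pow_sub_gcd {z : F} (hz : u z = 1) (a b : ℕ) (ha : u (z ^ a - 1) < 1)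
    (hb : u (z ^ b - 1) < 1) : u (z ^ Nat.gcd a b - 1) < 1 := by
  induction a, b using Nat.gcd.induction with
  | H0 n => rw [Nat.gcd_zero_left]; exact hb
  | H1 m n hm ih =>
    rw [Nat.gcd_rec]
    refine ih ?_ ha
    have h1 : n % m = n - m * (n / m) := by
      have := Nat.div_add_mod n m
      omega
    rw [h1]
    exact unit_pow_sub_sub hz (Nat.mul_div_le n m) hb (unit_pow_sub_mul hz ha _)

/-- **The exact time is bounded** when the order of the ratio is. -/
theorem time_lt {z : F} (hz : u z = 1) {q N o : ℕ} (ho : 0 < o) (h1 : u (z ^ o - 1) < 1)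
    (h2 : u (z ^ q ^ (N + 1) - 1) < 1) (h3 : u (z ^ q ^ N - 1) = 1) : N < o := by
  by_contra hcon
  push Not at hcon
  set a := Nat.gcd o (q ^ (N + 1)) with ha
  have ha0 : 0 < a := Nat.gcd_pos_of_pos_left _ ho
  have h4 : u (z ^ a - 1) < 1 := unit_pow_sub_gcd hz _ _ h1 h2
  have h5 : a ∣ q ^ a := dvd_pow_self' a ha0 (N + 1) (Nat.gcd_dvd_right _ _)
  have h6 : a ≤ N := (Nat.le_of_dvd ho (Nat.gcd_dvd_left _ _)).trans hcon
  obtain ⟨j, hj⟩ := h5.trans (pow_dvd_pow q h6)
  have h7 := unit_pow_sub_mul hz h4 j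
  rw [← hj, h3] at h7
  exact lt_irrefl _ h7

end val

variable {K : Type*} [Field K] [NumberField K]

/-- **Residues of bounded degree are roots of unity of bounded order.** -/
theorem exists_order (v : HeightOneSpectrum (𝓞 K)) {D : K[X]} {k : ℕ} (hk : D.natDegree ≤ k)
    (hlead : v.valuation K (D.coeff k) = 1) (hD : ∀ i, v.valuation K (D.coeff i) ≤ 1) :
    ∃ o : ℕ, 0 < o ∧ ∀ (E : Type*) [Field E] [Algebra K E]
      (w : Valuation E ℤᵐ⁰) (e : ℕ), 0 < e → (∀ x : K, v.valuation K x ^ e =
        w (algebraMap K E x)) → ∀ z : E, w z = 1 →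
        w ((D.map (algebraMap K E)).eval z) < 1 → w (z ^ o - 1) < 1 := by
  classical
  set u := v.valuation K with hu
  have hδ0 : D.coeff k ≠ 0 := by
    intro h0
    rw [h0, map_zero] at hlead
    exact zero_ne_one hlead
  set δ := D.coeff k with hδ
  set A := u.integer with hA
  have hdivA : ∀ i, u (D.coeff i / δ) ≤ 1 := by
    intro i
    rw [map_div₀, hlead, div_one]
    exact hD i
  set g : A[X] := ∑ i ∈ Finset.range (k + 1), monomial i (⟨D.coeff i / δ, hdivA i⟩ : A) with hg
  have hgc : ∀ i, g.coeff i = if i < k + 1 then (⟨D.coeff i / δ, hdivA i⟩ : A) else 0 := by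
    intro i
    rw [hg, finsetSum_coeff]
    simp only [coeff_monomial]
    rw [Finset.sum_ite_eq' (Finset.range (k + 1)) i]
    simp only [Finset.mem_range]
  have hgd : g.natDegree ≤ k := by
    rw [natDegree_le_iff_coeff_eq_zero]
    intro i hi
    rw [hgc, if_neg (by omega)]
  have hgm : g.Monic := by
    refine monic_of_natDegree_le_of_coeff_eq_one k hgd ?_
    rw [hgc, if_pos (by omega)]
    apply Subtype.ext
    change D.coeff k / δ = 1
    exact div_self hδ0
  set P : ℕ → A[X] := fun n => X ^ n with hP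
  set R : ℕ → A[X] := fun n => P n %ₘ g with hR
  have hRc : ∀ n i, k ≤ i → (R n).coeff i = 0 := by
    intro n i hi
    rcases eq_or_ne g 1 with h1 | h1
    · simp only [hR]
      rw [h1, modByMonic_one, coeff_zero]
    · apply coeff_eq_zero_of_natDegree_lt
      exact (natDegree_modByMonic_lt (P n) hgm h1).trans_le (hgd.trans hi)
  -- classes
  have hcl : ∀ a : A, ∃ b : 𝓞 K, u (algebraMap (𝓞 K) K b - a) < 1 := by
    intro a
    obtain ⟨b, hb⟩ := v.exists_valuation_sub_lt_of_integer (x := (a : K)) a.2 1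
    exact ⟨b, by simpa using hb⟩
  choose b hb using hcl
  have hcleq : ∀ a a' : A, Ideal.Quotient.mk v.asIdeal (b a) = Ideal.Quotient.mk v.asIdeal (b a') →
      u ((a : K) - a') < 1 := by
    intro a a' he
    have h3 : b a - b a' ∈ v.asIdeal := by
      rw [← Ideal.Quotient.eq]; exact he
    have h4 : u (algebraMap (𝓞 K) K (b a - b a')) < 1 := by
      rw [hu, v.valuation_lt_one_iff_mem]; exact h3
    have e : (a : K) - a' = algebraMap (𝓞 K) K (b a - b a') +
        ((algebraMap (𝓞 K) K (b a') - a') - (algebraMap (𝓞 K) K (b a) - a)) := by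
      rw [map_sub]; ring
    rw [e]
    exact Valuation.map_add_lt _ h4 (Valuation.map_sub_lt _ (hb a') (hb a))
  have : Finite (𝓞 K ⧸ v.asIdeal) := Ideal.finiteQuotientOfFreeOfNeBot _ v.ne_bot
  obtain ⟨n, n', hnn, he⟩ := Finite.exists_ne_map_eq_of_infinite
    (fun n : ℕ => fun l : Fin k => (Ideal.Quotient.mk v.asIdeal (b ((R n).coeff l))))
  wlog hlt : n < n' generalizing n n'
  · exact this n' n hnn.symm he.symm (by omega)
  have hRR : ∀ i, u (((R n).coeff i : K) - (R n').coeff i) < 1 := by
    intro i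
    rcases lt_or_ge i k with hi | hi
    · exact hcleq _ _ (congrFun he ⟨i, hi⟩)
    · rw [hRc n i hi, hRc n' i hi, sub_self, map_zero]
      exact zero_lt_one
  refine ⟨n' - n, by omega, ?_⟩
  intro E _ _ w e he0 hw z hz hDz
  set ι : A →+* E := (algebraMap K E).comp A.subtype with hι
  have hιle : ∀ a : A, w (ι a) ≤ 1 := by
    intro a
    change w (algebraMap K E a) ≤ 1
    rw [← hw]
    exact pow_le_one₀ zero_le a.2
  have hδE : w (algebraMap K E δ) = 1 := by rw [← hw, hlead, one_pow]
  have hev2 : ∀ Q : A[X], w (eval₂ ι z Q) ≤ 1 := by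
    intro Q
    rw [eval₂_eq_sum_range]
    refine Valuation.map_sum_le w fun i _ => ?_
    rw [map_mul, map_pow, hz, one_pow, mul_one]
    exact hιle _
  have hgz : w (eval₂ ι z g) < 1 := by
    have e1 : (D.map (algebraMap K E)).eval z = algebraMap K E δ * eval₂ ι z g := by
      rw [eval_map, eval₂_eq_sum_range' _ (Nat.lt_succ_of_le hk),
        eval₂_eq_sum_range' _ (Nat.lt_succ_of_le hgd), Finset.mul_sum]
      refine Finset.sum_congr rfl fun i hi => ?_
      rw [hgc, if_pos (Finset.mem_range.mp hi), ← mul_assoc]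
      congr 1
      change _ = algebraMap K E δ * algebraMap K E (D.coeff i / δ)
      rw [← map_mul, mul_div_cancel₀ _ hδ0]
    rw [e1, map_mul, hδE, one_mul] at hDz
    exact hDz
  have hmod : ∀ m, w (z ^ m - eval₂ ι z (R m)) < 1 := by
    intro m
    have e1 : z ^ m - eval₂ ι z (R m) = eval₂ ι z g * eval₂ ι z (P m /ₘ g) := by
      have e2 := modByMonic_add_div (P m) g
      have e3 := congrArg (eval₂ ι z) e2
      rw [eval₂_add, eval₂_mul] at e3
      have e4 : eval₂ ι z (P m) = z ^ m := by simp [hP]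
      rw [e4] at e3
      rw [← e3]
      simp only [hR]
      ring
    rw [e1, map_mul]
    exact (mul_le_of_le_one_right zero_le (hev2 _)).trans_lt hgz
  have hRz : w (eval₂ ι z (R n) - eval₂ ι z (R n')) < 1 := by
    rw [← eval₂_sub, eval₂_eq_sum_range]
    refine Valuation.map_sum_lt w one_ne_zero fun i _ => ?_
    rw [map_mul, map_pow, hz, one_pow, mul_one, coeff_sub]
    change w (algebraMap K E (((R n).coeff i : K) - (R n').coeff i)) < 1
    rw [← hw]
    exact pow_lt_one₀ zero_le (hRR i) (by omega)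
  have hzz : w (z ^ n' - z ^ n) < 1 := by
    have e1 : z ^ n' - z ^ n = (z ^ n' - eval₂ ι z (R n')) - (z ^ n - eval₂ ι z (R n)) -
        (eval₂ ι z (R n) - eval₂ ι z (R n')) := by ring
    rw [e1]
    exact Valuation.map_sub_lt w (Valuation.map_sub_lt w (hmod n') (hmod n)) hRz
  have e2 : z ^ n' - z ^ n = z ^ n * (z ^ (n' - n) - 1) := by
    rw [mul_sub, ← pow_add, Nat.add_sub_cancel' hlt.le, mul_one]
  rw [e2, map_mul, map_pow, hz, one_pow, one_mul] at hzz
  exact hzz

end Pool.Agent.UHU
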