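import Pool.Agent.UHU.Order
import Pool.Agent.UHJ.Comm

/-!
# Collisions outside the open unit disc, tame reduction to a power map, linear symmetries
-/

set_option autoImplicit false

open IsDedekindDomain NumberField Polynomial
open scoped WithZero

namespace Pool.Agent.UHU

open Pool.Agent.Arb.DB (od u_ne od_mul od_pos od_nonneg od_lt od_le od_eq od_pow)
open Pool.Agent.UH (Good)
open Pool.Agent.UHT (Cl)
open Pool.Agent.UHJ (Far sc sc_collision eval_iter)

variable {F : Type*} [Field F] {u : Valuation F ℤᵐ⁰} {q : ℕ} {P : F[X]}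

/-- Reduction `a X ^ q`, `a` a unit. -/
structure PR (u : Valuation F ℤᵐ⁰) (q : ℕ) (P : F[X]) : Prop where
  deg : P.natDegree ≤ q
  lead : u (P.coeff q) = 1
  low : ∀ i < q, u (P.coeff i) < 1

theorem PR.far (h : PR u q P) {y : F} (hy : 1 ≤ u y) : Far u q P 1 y := by
  have h0 : 0 < u y := zero_lt_one.trans_le hy
  refine ⟨?_, ?_, fun i hi => ?_⟩
  · rintro rfl
    rw [map_zero] at h0
    exact lt_irrefl _ h0
  · rw [h.lead, one_mul]
    exact one_le_pow₀ hy
  · rw [h.lead, map_one, one_mul, one_mul]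
    calc u (P.coeff i) * u y ^ i < 1 * u y ^ i :=
          mul_lt_mul_of_pos_right (h.low i hi) (pow_pos h0 _)
      _ = u y ^ i := one_mul _
      _ ≤ u y ^ q := pow_le_pow_right₀ hy hi.le

theorem PR.val (h : PR u q P) {y : F} (hy : 1 ≤ u y) : u (P.eval y) = u y ^ q := by
  rw [(h.far hy).val h.deg (by rw [map_one]), h.lead, one_mul]

theorem PR.small (hq : 1 ≤ q) (h : PR u q P) {y : F} (hy : u y < 1) : u (P.eval y) < 1 := by
  rw [eval_eq_sum_range' (Nat.lt_succ_of_le h.deg)]
  refine Valuation.map_sum_lt u one_ne_zero fun i hi => ?_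
  rw [map_mul, map_pow]
  rcases Nat.lt_succ_iff_lt_or_eq.mp (Finset.mem_range.mp hi) with h1 | h1
  · exact (mul_le_of_le_one_right zero_le (pow_le_one₀ zero_le hy.le)).trans_lt (h.low i h1)
  · rw [h1, h.lead, one_mul]
    exact pow_lt_one₀ zero_le hy (by omega)

theorem PR.iter_val (h : PR u q P) {y : F} (hy : 1 ≤ u y) (n : ℕ) :
    u ((fun z => P.eval z)^[n] y) = u y ^ q ^ n := by
  induction n with
  | zero => simp
  | succ n ih =>
    rw [Function.iterate_succ_apply']
    change u (P.eval _) = _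
    rw [h.val (by rw [ih]; exact one_le_pow₀ hy), ih, ← pow_mul, ← pow_succ]

theorem PR.iter_small (hq : 1 ≤ q) (h : PR u q P) {y : F} (hy : u y < 1) (n : ℕ) :
    u ((fun z => P.eval z)^[n] y) < 1 := by
  induction n with
  | zero => exact hy
  | succ n ih =>
    rw [Function.iterate_succ_apply']
    exact h.small hq ih

theorem cl_div {a b a' b' : F} (h : Cl u a b) (h' : Cl u a' b') : Cl u (a / a') (b / b') := by
  have hinv : Cl u a'⁻¹ b'⁻¹ := by
    have hb := h'.ne
    have ha : a' ≠ 0 := h'.symm.ne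
    have h3 := h'.val
    have h4 : 0 < u b' := h'.pos
    unfold Cl at h' ⊢
    have e : a'⁻¹ - b'⁻¹ = (b' - a') * (a'⁻¹ * b'⁻¹) := by field_simp
    have h5 : u b' ≠ 0 := h4.ne'
    rw [e, map_mul, map_mul, map_inv₀, map_inv₀, h3, Valuation.map_sub_swap]
    have hp : 0 < (u b')⁻¹ := by rw [inv_pos]; exact h4
    calc u (a' - b') * ((u b')⁻¹ * (u b')⁻¹) < u b' * ((u b')⁻¹ * (u b')⁻¹) :=
          mul_lt_mul_of_pos_right h' (mul_pos hp hp)
      _ = (u b')⁻¹ := by rw [← mul_assoc, mul_inv_cancel₀ h5, one_mul]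
  rw [div_eq_mul_inv, div_eq_mul_inv]
  exact h.mul hinv

/-- The ratio along the orbits. -/
theorem ratio (h : PR u q P) {x y : F} (hx : 1 ≤ u x) (hy : 1 ≤ u y) (n : ℕ) :
    Cl u ((fun z => P.eval z)^[n] x / (fun z => P.eval z)^[n] y) ((x / y) ^ q ^ n) := by
  have hx0 : x ≠ 0 := by rintro rfl; rw [map_zero] at hx; exact absurd zero_lt_one (not_lt.mpr hx)
  have hy0 : y ≠ 0 := by rintro rfl; rw [map_zero] at hy; exact absurd zero_lt_one (not_lt.mpr hy)
  induction n with
  | zero =>
    rw [pow_zero, pow_one]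
    exact Cl.refl (div_ne_zero hx0 hy0)
  | succ n ih =>
    rw [Function.iterate_succ_apply', Function.iterate_succ_apply']
    have h1 : 1 ≤ u ((fun z => P.eval z)^[n] x) := by
      rw [h.iter_val hx]; exact one_le_pow₀ hx
    have h2 : 1 ≤ u ((fun z => P.eval z)^[n] y) := by
      rw [h.iter_val hy]; exact one_le_pow₀ hy
    have h3 := cl_div ((h.far h1).cl h.deg (by rw [map_one]))
      ((h.far h2).cl h.deg (by rw [map_one]))
    rw [mul_div_mul_left _ _ (h.far h1).lead_ne, ← div_pow] at h3
    have h4 := ih.pow q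
    rw [← pow_mul, ← pow_succ] at h4
    exact h3.trans h4

/-- **Collisions outside the open unit disc, tame case.** -/
theorem outer_collision (hq : 1 ≤ q) (h : PR u q P) (huq : u (q : F) = 1) {x y : F}
    (hx : 1 ≤ u x) (hy : 1 ≤ u y) {N : ℕ}
    (h1 : (fun z => P.eval z)^[N + 1] x = (fun z => P.eval z)^[N + 1] y)
    (h2 : (fun z => P.eval z)^[N] x ≠ (fun z => P.eval z)^[N] y) :
    u (x / y) = 1 ∧ u ((x / y) ^ q ^ (N + 1) - 1) < 1 ∧ u ((x / y) ^ q ^ N - 1) = 1 := by
  have hq0 : (q : F) ≠ 0 := by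
    intro h; rw [h, map_zero] at huq; exact zero_ne_one huq
  have hy0 : y ≠ 0 := by rintro rfl; rw [map_zero] at hy; exact absurd zero_lt_one (not_lt.mpr hy)
  have hxy : u x = u y := by
    have h3 := congrArg u h1
    rw [h.iter_val hx, h.iter_val hy] at h3
    exact (pow_left_inj₀ zero_le zero_le (by positivity)).mp h3
  have hρ1 : u (x / y) = 1 := by
    rw [map_div₀, hxy, div_self (u_ne u hy0)]
  refine ⟨hρ1, ?_, ?_⟩
  · have h3 := ratio h hx hy (N + 1)
    have hne : (fun z => P.eval z)^[N + 1] y ≠ 0 := by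
      intro h0
      have h4 := h.iter_val hy (N + 1)
      rw [h0, map_zero] at h4
      exact (pow_ne_zero _ (u_ne u hy0)) h4.symm
    rw [h1, div_self hne] at h3
    have h4 := h3.symm
    unfold Cl at h4
    rw [map_one] at h4
    exact h4
  · set A := (fun z => P.eval z)^[N] x with hA
    set B := (fun z => P.eval z)^[N] y with hB
    have hB1 : 1 ≤ u B := by rw [hB, h.iter_val hy]; exact one_le_pow₀ hy
    have hBf : Far u q P 1 B := h.far hB1
    by_contra hcon
    have hle : u ((x / y) ^ q ^ N - 1) ≤ 1 := by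
      refine Valuation.map_sub_le u ?_ (by rw [map_one])
      rw [map_pow, hρ1, one_pow]
    have hlt : u ((x / y) ^ q ^ N - 1) < 1 := lt_of_le_of_ne hle hcon
    have hAB : u (A / B - 1) < 1 := by
      have e : A / B - 1 = (A / B - (x / y) ^ q ^ N) + ((x / y) ^ q ^ N - 1) := by ring
      have h3 := ratio h hx hy N
      unfold Cl at h3
      rw [map_pow, hρ1, one_pow] at h3
      rw [e]
      exact Valuation.map_add_lt u h3 hlt
    have hABne : A / B - 1 ≠ 0 := fun h => h2 ((div_eq_one_iff_eq hBf.ne).mp (sub_eq_zero.mp h))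
    have hcol : P.eval A = P.eval B := by
      rw [Function.iterate_succ_apply', Function.iterate_succ_apply', ← hA, ← hB] at h1
      exact h1
    obtain ⟨π, hπ, hG⟩ := hBf.good' hq h.deg (by rw [map_one])
    have h5 := hG.deriv_le hπ (z := 1) (by rw [map_one]) hAB.le hABne
      (sc_collision hBf.ne hcol)
    rw [hBf.sc_deriv h.deg (by rw [huq, map_one]) hq0, huq] at h5
    exact absurd hAB (not_lt.mpr h5)

/-! ### linear symmetries -/

/-- The derivative of an iterate. -/
theorem deriv_iter (P : F[X]) (m : ℕ) (z : F) : (derivative (P.comp^[m] X)).eval z =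
    ∏ i ∈ Finset.range m, (derivative P).eval ((fun z => P.eval z)^[i] z) := by
  induction m with
  | zero => simp
  | succ m ih =>
    rw [Function.iterate_succ_apply', derivative_comp, eval_mul, ih, eval_comp, eval_iter,
      Finset.prod_range_succ, mul_comm]

theorem PR.deriv (hq : 2 ≤ q) (h : PR u q P) (huq : u (q : F) = 1) :
    PR u (q - 1) (derivative P) := by
  refine ⟨?_, ?_, fun i hi => ?_⟩
  · have := natDegree_derivative_le P
    have := h.deg
    omega
  · rw [coeff_derivative, map_mul]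
    have e3 : q - 1 + 1 = q := by omega
    have : ((q - 1 : ℕ) : F) + 1 = ((q - 1 + 1 : ℕ) : F) := by push_cast; ring
    rw [this, e3, h.lead, huq, one_mul]
  · rw [coeff_derivative, map_mul]
    have : ((i : F) + 1) = ((i + 1 : ℕ) : F) := by push_cast; ring
    rw [this]
    exact (mul_le_of_le_one_right zero_le (natCast_mem u.integer (i + 1))).trans_lt
      (h.low _ (by omega))

/-- **Linear polynomials commuting with an iterate.** -/
theorem linear_comm (hq : 2 ≤ q) (hd : P.natDegree = q) (h : PR u q P) (huq : u (q : F) = 1)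
    {g : F[X]} (hg : g.natDegree = 1) {m : ℕ} (hm : 0 < m)
    (hc : g.comp (P.comp^[m] X) = (P.comp^[m] X).comp g) :
    (g.coeff 1) ^ (q ^ m - 1) = 1 ∧ u (g.coeff 1) = 1 ∧ u (g.coeff 0) < 1 ∧
      ∀ z, g.eval z = g.coeff 1 * z + g.coeff 0 := by
  have hgz : ∀ z, g.eval z = g.coeff 1 * z + g.coeff 0 := by
    intro z
    rw [eval_eq_sum_range, hg, Finset.sum_range_succ, Finset.sum_range_one, pow_zero, mul_one,
      pow_one, add_comm]
  set G := P.comp^[m] X with hG
  have hGd : G.natDegree = q ^ m := by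
    rw [hG, natDegree_iterate_comp, natDegree_X, mul_one, hd]
  have hG2 : 2 ≤ G.natDegree := by
    rw [hGd]
    calc 2 ≤ q := hq
      _ = q ^ 1 := (pow_one q).symm
      _ ≤ q ^ m := Nat.pow_le_pow_right (by omega) hm
  have hgl : g.leadingCoeff = g.coeff 1 := by rw [leadingCoeff, hg]
  have hg1 : g.coeff 1 ≠ 0 := by
    rw [← hgl, leadingCoeff_ne_zero]
    rintro h0
    rw [h0, natDegree_zero] at hg
    omega
  have hpow : (g.coeff 1) ^ (q ^ m - 1) = 1 := by
    have e1 := congrArg leadingCoeff hc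
    rw [leadingCoeff_comp (by omega), leadingCoeff_comp (by omega), hg, pow_one, hgl] at e1
    have hGne : G.leadingCoeff ≠ 0 := by
      rw [leadingCoeff_ne_zero]
      rintro h0
      rw [h0, natDegree_zero] at hG2
      omega
    have e3 : G.leadingCoeff * g.coeff 1 ^ G.natDegree =
        G.leadingCoeff * g.coeff 1 := by rw [← e1, mul_comm]
    have e4 := mul_left_cancel₀ hGne e3
    rw [hGd] at e4
    obtain ⟨k, hk⟩ : ∃ k, q ^ m = k + 1 := ⟨q ^ m - 1, by omega⟩
    rw [hk, pow_succ] at e4
    rw [hk, Nat.add_sub_cancel]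
    exact mul_right_cancel₀ hg1 (by rw [e4, one_mul])
  have hu1 : u (g.coeff 1) = 1 := by
    have e4 := congrArg u hpow
    rw [map_pow, map_one] at e4
    exact (pow_eq_one_iff_of_nonneg zero_le (by omega)).mp e4
  refine ⟨hpow, hu1, ?_, hgz⟩
  by_contra hcon
  push Not at hcon
  -- derivatives at `0`
  have e1 := congrArg (fun Q : F[X] => (derivative Q).eval 0) hc
  simp only [derivative_comp, eval_mul, eval_comp] at e1
  have e2 : ∀ z, (derivative g).eval z = g.coeff 1 := by
    intro z
    have h3 : derivative g = C (g.coeff 1) := by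
      ext i
      rw [coeff_derivative, coeff_C]
      rcases Nat.eq_zero_or_pos i with h0 | h0
      · subst h0; simp
      · rw [if_neg (by omega), coeff_eq_zero_of_natDegree_lt (by omega), zero_mul]
    rw [h3, eval_C]
  rw [e2, e2, hgz 0, mul_zero, zero_add] at e1
  have e3 : (derivative G).eval 0 = (derivative G).eval (g.coeff 0) := by
    rw [mul_comm (g.coeff 1)] at e1
    have e4 := mul_right_cancel₀ hg1 e1
    exact e4
  rw [hG, deriv_iter, deriv_iter] at e3
  have hD := h.deriv hq huq
  have h4 : u (∏ i ∈ Finset.range m, (derivative P).eval ((fun z => P.eval z)^[i] 0)) < 1 := by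
    rw [map_prod]
    obtain ⟨k, rfl⟩ : ∃ k, m = k + 1 := ⟨m - 1, by omega⟩
    rw [Finset.prod_range_succ]
    have h5 : ∀ i, u ((derivative P).eval ((fun z => P.eval z)^[i] 0)) < 1 := fun i =>
      hD.small (by omega) (h.iter_small (by omega) (by rw [map_zero]; exact zero_lt_one) i)
    calc (∏ i ∈ Finset.range k, u ((derivative P).eval ((fun z => P.eval z)^[i] 0))) *
          u ((derivative P).eval ((fun z => P.eval z)^[k] 0))
        ≤ 1 * u ((derivative P).eval ((fun z => P.eval z)^[k] 0)) := by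
          refine mul_le_mul_of_nonneg_right ?_ zero_le
          exact Finset.prod_le_one' fun i _ => (h5 i).le
      _ < 1 := by rw [one_mul]; exact h5 k
  have h6 : 1 ≤ u (∏ i ∈ Finset.range m,
      (derivative P).eval ((fun z => P.eval z)^[i] (g.coeff 0))) := by
    rw [map_prod]
    refine Finset.one_le_prod' fun i _ => ?_
    have h7 : 1 ≤ u ((fun z => P.eval z)^[i] (g.coeff 0)) := by
      rw [h.iter_val hcon]; exact one_le_pow₀ hcon
    rw [hD.val h7]
    exact one_le_pow₀ h7
  rw [e3] at h4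
  exact absurd h4 (not_lt.mpr h6)

end Pool.Agent.UHU
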