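import Mathlib

/-!
# Polynomials of small degree representing a power of a coordinate on a plane curve

Let `H` be a polynomial in `X`, `Y` of degree `b` in `X` and `a > 0` in `Y`. For every `e ≥ a` there
are polynomials `G ≠ 0`, `G'` of degree less than `a` in `Y` and at most `b e / a` in `X` such that
`H` divides `G Y ^ e - G'`.
-/

set_option autoImplicit false

open MvPolynomial

namespace Pool.Agent.UHU

/-- The exponents of the monomials of degree less than `n` in `X` and less than `m` in `Y`. -/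
def bx (n m : ℕ) : Set (Fin 2 →₀ ℕ) := {d | d 0 < n ∧ d 1 < m}

/-- the exponents as pairs -/
noncomputable def bxEquiv (n m : ℕ) : bx n m ≃ Fin n × Fin m where
  toFun d := (⟨(d : Fin 2 →₀ ℕ) 0, d.2.1⟩, ⟨(d : Fin 2 →₀ ℕ) 1, d.2.2⟩)
  invFun p := ⟨Finsupp.single 0 (p.1 : ℕ) + Finsupp.single 1 (p.2 : ℕ), by
    constructor
    · simp
    · simp⟩
  left_inv d := by
    apply Subtype.ext
    ext i
    fin_cases i <;> simp
  right_inv p := by
    apply Prod.ext <;> apply Fin.ext <;> simp

instance (n m : ℕ) : Finite (bx n m) := Finite.of_equiv _ (bxEquiv n m).symm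

variable {K : Type*} [Field K]

instance (n m : ℕ) : Module.Finite K (restrictSupport K (bx n m)) :=
  Module.Finite.of_basis (basisRestrictSupport K (bx n m))

theorem finrank_bx (n m : ℕ) :
    Module.finrank K (restrictSupport K (bx n m)) = n * m := by
  have : Fintype (bx n m) := Fintype.ofFinite _
  rw [Module.finrank_eq_card_basis (basisRestrictSupport K (bx n m)),
    Fintype.card_congr (bxEquiv n m)]
  simp

theorem degreeOf_one_lt {n m : ℕ} {G : MvPolynomial (Fin 2) K}
    (hG : G ∈ restrictSupport K (bx n m)) (hG0 : G ≠ 0) : G.degreeOf 1 < m := by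
  have hm : 0 < m := by
    obtain ⟨d, hd⟩ := support_nonempty.mpr hG0
    exact lt_of_le_of_lt (Nat.zero_le _) (hG hd).2
  rw [degreeOf_lt_iff hm]
  intro d hd
  exact (hG hd).2

theorem mul_mem_bx {H Q : MvPolynomial (Fin 2) K} {a b n m : ℕ} (ha : H.degreeOf 1 ≤ a)
    (hb : H.degreeOf 0 ≤ b) (hQ : Q ∈ restrictSupport K (bx n m)) :
    H * Q ∈ restrictSupport K (bx (n + b) (m + a)) := by
  classical
  rw [mem_restrictSupport_iff]
  intro d hd
  have h1 := support_mul H Q hd
  obtain ⟨d1, hd1, d2, hd2, rfl⟩ := Finset.mem_add.mp h1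
  have h2 := hQ hd2
  have h3 := (degreeOf_le_iff.mp ha) d1 hd1
  have h4 := (degreeOf_le_iff.mp hb) d1 hd1
  have h5 := h2.1
  have h6 := h2.2
  constructor
  · rw [Finsupp.add_apply]; omega
  · rw [Finsupp.add_apply]; omega

/-- **The auxiliary polynomials.** -/
theorem exists_pair {H : MvPolynomial (Fin 2) K} (hH : H ≠ 0) {a b : ℕ}
    (ha : H.degreeOf 1 = a) (hb : H.degreeOf 0 = b) {e n : ℕ} (he : a ≤ e)
    (hn : b * e < n * a) : ∃ G G' : MvPolynomial (Fin 2) K,
      G ∈ restrictSupport K (bx n a) ∧ G' ∈ restrictSupport K (bx n a) ∧ G ≠ 0 ∧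
        H ∣ G * X 1 ^ e - G' := by
  classical
  have hbn : b < n := by
    by_contra hcon
    push Not at hcon
    have h1 : n * a ≤ b * e := Nat.mul_le_mul hcon he
    omega
  -- the linear map
  set Φ : (restrictSupport K (bx n a) × restrictSupport K (bx n a) ×
      restrictSupport K (bx (n - b) e)) →ₗ[K] MvPolynomial (Fin 2) K :=
    ((LinearMap.mulRight K (X 1 ^ e : MvPolynomial (Fin 2) K)).comp
      ((restrictSupport K (bx n a)).subtype.comp (LinearMap.fst K _ _))) -
    ((restrictSupport K (bx n a)).subtype.comp ((LinearMap.fst K _ _).comp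
      (LinearMap.snd K _ _))) -
    ((LinearMap.mulLeft K H).comp ((restrictSupport K (bx (n - b) e)).subtype.comp
      ((LinearMap.snd K _ _).comp (LinearMap.snd K _ _)))) with hΦ
  have hΦa : ∀ p, Φ p = (p.1 : MvPolynomial (Fin 2) K) * X 1 ^ e - (p.2.1 : MvPolynomial (Fin 2) K)
      - H * (p.2.2 : MvPolynomial (Fin 2) K) := fun p => rfl
  have hmem : ∀ p, Φ p ∈ restrictSupport K (bx n (e + a)) := by
    intro p
    rw [hΦa]
    refine Submodule.sub_mem _ (Submodule.sub_mem _ ?_ ?_) ?_
    · have h1 : (X 1 ^ e : MvPolynomial (Fin 2) K).degreeOf 1 ≤ e := by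
        refine (degreeOf_pow_le 1 (X 1) e).trans ?_
        rw [degreeOf_X]; simp
      have h2 : (X 1 ^ e : MvPolynomial (Fin 2) K).degreeOf 0 ≤ 0 := by
        refine (degreeOf_pow_le 0 (X 1) e).trans ?_
        rw [degreeOf_X]; simp
      have h3 := mul_mem_bx h1 h2 p.1.2
      rw [mul_comm, add_zero, add_comm a e] at h3
      exact h3
    · refine restrictSupport_mono K ?_ p.2.1.2
      intro d hd
      exact ⟨hd.1, by have := hd.2; omega⟩
    · have h3 := mul_mem_bx ha.le hb.le p.2.2.2
      rw [Nat.sub_add_cancel hbn.le] at h3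
      exact h3
  set Ψ := Φ.codRestrict (restrictSupport K (bx n (e + a))) hmem with hΨ
  have hfr : Module.finrank K (restrictSupport K (bx n (e + a))) <
      Module.finrank K (restrictSupport K (bx n a) × restrictSupport K (bx n a) ×
      restrictSupport K (bx (n - b) e)) := by
    rw [Module.finrank_prod, Module.finrank_prod, finrank_bx, finrank_bx, finrank_bx]
    obtain ⟨t, rfl⟩ : ∃ t, n = b + t := ⟨n - b, by omega⟩
    rw [Nat.add_sub_cancel_left]
    nlinarith
  have hker := LinearMap.ker_ne_bot_of_finrank_lt (f := Ψ) hfr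
  obtain ⟨p, hp, hp0⟩ := Submodule.exists_mem_ne_zero_of_ne_bot hker
  have h0 : Φ p = 0 := by
    have h1 : Ψ p = 0 := hp
    have h2 := congrArg (fun z : restrictSupport K (bx n (e + a)) =>
      (z : MvPolynomial (Fin 2) K)) h1
    exact h2
  rw [hΦa] at h0
  have h1 : (p.1 : MvPolynomial (Fin 2) K) * X 1 ^ e - (p.2.1 : MvPolynomial (Fin 2) K) =
      H * (p.2.2 : MvPolynomial (Fin 2) K) := sub_eq_zero.mp h0
  refine ⟨p.1, p.2.1, p.1.2, p.2.1.2, ?_, ⟨_, h1⟩⟩
  intro hG
  rw [hG, zero_mul, zero_sub] at h1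
  have hQ : (p.2.2 : MvPolynomial (Fin 2) K) = 0 := by
    by_contra hQ
    have h2 : (p.2.1 : MvPolynomial (Fin 2) K) ≠ 0 := by
      intro h3
      rw [h3, neg_zero] at h1
      rcases mul_eq_zero.mp h1.symm with h4 | h4
      · exact hH h4
      · exact hQ h4
    have h3 := degreeOf_one_lt p.2.1.2 h2
    have h4 : (p.2.1 : MvPolynomial (Fin 2) K).degreeOf 1 =
        (H * (p.2.2 : MvPolynomial (Fin 2) K)).degreeOf 1 := by
      rw [← h1, degreeOf_neg]
    rw [degreeOf_mul_eq hH hQ, ha] at h4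
    omega
  rw [hQ, mul_zero, neg_eq_zero] at h1
  apply hp0
  apply Prod.ext
  · exact Subtype.ext hG
  · apply Prod.ext
    · exact Subtype.ext h1
    · exact Subtype.ext hQ

end Pool.Agent.UHU
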