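import Pool.Agent.UHU.WForm
import Pool.Agent.UHG.Step

/-!
# Heights of the coordinates of weighted cone type curves
-/

set_option autoImplicit false

open NumberField Polynomial Height

namespace Pool.Agent.UHU

open Pool.Agent.UH (exists_field abs_coe abs_nonneg)
open Pool.Agent.UHG (glob)

/-- The local inequality. -/
theorem local_wcone {L : Type*} [Field L] (v : AbsoluteValue L ℝ) (s : Finset (Fin 2 →₀ ℕ))
    (c : (Fin 2 →₀ ℕ) → L) (p r : (Fin 2 →₀ ℕ) → ℕ) {k : ℕ} (hk : 0 < k)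
    (hs : ∀ d ∈ s, p d + r d ≤ k ∧ r d < k) (x y : L) (A : ℝ) (hA : 1 ≤ A)
    (hsum : ∀ (z : (Fin 2 →₀ ℕ) → L) (M : ℝ), 0 ≤ M → (∀ d ∈ s, v (z d) ≤ M) →
      v (∑ d ∈ s, z d) ≤ A * M)
    (h : y ^ k = -∑ d ∈ s, c d * (x ^ p d * y ^ r d)) :
    max (v y) 1 ≤ A * ((∏ d ∈ s, max (v (c d)) 1) * max (v x) 1) := by
  set S := ∏ d ∈ s, max (v (c d)) 1 with hS
  set M := max (v x) 1 with hM
  have hM1 : 1 ≤ M := le_max_right _ _
  have hS1 : 1 ≤ S := by
    rw [hS]
    exact Finset.one_le_prod fun d _ => le_max_right _ _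
  have hcS : ∀ d ∈ s, v (c d) ≤ S := by
    intro d hd
    refine (le_max_left _ 1).trans ?_
    classical
    rw [hS, ← Finset.mul_prod_erase s _ hd]
    exact le_mul_of_one_le_right (by positivity)
      (Finset.one_le_prod fun d _ => le_max_right _ _)
  have hSM : M ≤ A * (S * M) := by
    calc M = 1 * (1 * M) := by ring
      _ ≤ A * (S * M) := by gcongr
  have h1M : (1 : ℝ) ≤ A * (S * M) := hM1.trans hSM
  refine max_le ?_ h1M
  rcases le_or_gt (v y) M with hy | hy
  · exact hy.trans hSM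
  have hy1 : 1 < v y := hM1.trans_lt hy
  have hy0 : 0 < v y := zero_lt_one.trans hy1
  have key : v y ^ k ≤ A * (S * (M * v y ^ (k - 1))) := by
    rw [← map_pow, h, AbsoluteValue.map_neg]
    refine hsum _ _ (by positivity) fun d hd => ?_
    obtain ⟨hd1, hd2⟩ := hs d hd
    rw [map_mul, map_mul, map_pow, map_pow]
    have h2 : v x ^ p d * v y ^ r d ≤ M * v y ^ (k - 1) := by
      rcases Nat.eq_zero_or_pos (p d) with h0 | h0
      · have h3 : r d ≤ k - 1 := by omega
        rw [h0, pow_zero, one_mul]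
        calc v y ^ r d ≤ v y ^ (k - 1) := pow_le_pow_right₀ hy1.le h3
          _ = 1 * v y ^ (k - 1) := (one_mul _).symm
          _ ≤ M * v y ^ (k - 1) := by gcongr
      · obtain ⟨j, hj⟩ : ∃ j, p d = j + 1 := ⟨p d - 1, by omega⟩
        calc v x ^ p d * v y ^ r d ≤ M ^ p d * v y ^ r d := by
              gcongr
              exact le_max_left _ _
          _ = M * (M ^ j * v y ^ r d) := by rw [hj, pow_succ]; ring
          _ ≤ M * (v y ^ j * v y ^ r d) := by gcongr
          _ = M * v y ^ (j + r d) := by rw [← pow_add]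
          _ ≤ M * v y ^ (k - 1) := by
              gcongr
              · exact hy1.le
              · omega
    calc v (c d) * (v x ^ p d * v y ^ r d) ≤ S * (M * v y ^ (k - 1)) :=
          mul_le_mul (hcS d hd) h2 (by positivity) (by linarith)
      _ = _ := rfl
  have e1 : v y ^ k = v y * v y ^ (k - 1) := by
    rw [← pow_succ']; congr 1; omega
  rw [e1] at key
  have h3 : v y * v y ^ (k - 1) ≤ (A * (S * M)) * v y ^ (k - 1) := by
    calc v y * v y ^ (k - 1) ≤ A * (S * (M * v y ^ (k - 1))) := key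
      _ = _ := by ring
  exact le_of_mul_le_mul_right h3 (by positivity)

section
variable {K : Type*} [Field K] {Ω : Type*} [Field Ω] [CharZero Ω] [Algebra.IsAlgebraic ℚ Ω]
  [Algebra K Ω]

/-- **Heights of the roots.** -/
theorem height_wroot (H : MvPolynomial (Fin 2) K) {α β k : ℕ} (hα : 0 < α) (hβ : 0 < β)
    (hk : 0 < k) (hdeg : ∀ d, k * α * β < α * d 0 + β * d 1 → H.coeff d = 0)
    (h0 : H.coeff (Finsupp.single 1 (k * α)) ≠ 0) :
    ∃ B : ℝ, 0 ≤ B ∧ ∀ x y : Ω, MvPolynomial.aeval ![x ^ α, y ^ β] H = 0 →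
      absLogHeight₁ y ≤ absLogHeight₁ x + B := by
  classical
  set s := H.support.erase (Finsupp.single 1 (k * α)) with hs
  set k0 := k * α * β with hk0
  set c : (Fin 2 →₀ ℕ) → Ω := fun d =>
    algebraMap K Ω (H.coeff d) / algebraMap K Ω (H.coeff (Finsupp.single 1 (k * α))) with hc
  have hlog : 0 ≤ Real.log ((s.card : ℝ) + 1) := Real.log_nonneg (by
    have : (0 : ℝ) ≤ s.card := Nat.cast_nonneg _
    linarith)
  have hsd : ∀ d ∈ s, α * d 0 + β * d 1 ≤ k0 ∧ β * d 1 < k0 := by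
    intro d hd
    have hle : α * d 0 + β * d 1 ≤ k0 := by
      by_contra hcon
      exact (MvPolynomial.mem_support_iff.mp (Finset.mem_of_mem_erase hd)) (hdeg d (by omega))
    refine ⟨hle, lt_of_le_of_ne (by omega) fun heq => ?_⟩
    apply Finset.ne_of_mem_erase hd
    have h1 : α * d 0 = 0 := by omega
    have h2 : d 0 = 0 := by
      rcases Nat.mul_eq_zero.mp h1 with h3 | h3
      · omega
      · exact h3
    have h3 : β * d 1 = β * (k * α) := by rw [heq, hk0]; ring
    have h4 := Nat.eq_of_mul_eq_mul_left hβ h3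
    refine finsupp_two_ext ?_ ?_
    · simp [h2]
    · simp [h4]
  have hk00 : 0 < k0 := Nat.mul_pos (Nat.mul_pos hk hα) hβ
  refine ⟨Real.log ((s.card : ℝ) + 1) + ∑ d ∈ s, absLogHeight₁ (c d),
    add_nonneg hlog (Finset.sum_nonneg fun d _ => abs_nonneg _), fun x y hxy => ?_⟩
  have hrel : y ^ k0 = -∑ d ∈ s, c d * (x ^ (α * d 0) * y ^ (β * d 1)) := by
    rw [aeval_two, ← Finset.add_sum_erase _ _ (MvPolynomial.mem_support_iff.mpr h0)] at hxy
    simp only [← pow_mul] at hxy
    have h0' : algebraMap K Ω (H.coeff (Finsupp.single 1 (k * α))) ≠ 0 := by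
      rw [ne_eq, map_eq_zero]; exact h0
    have h1 := eq_neg_of_add_eq_zero_left hxy
    have h2 : algebraMap K Ω (H.coeff (Finsupp.single 1 (k * α))) * y ^ k0 =
        -∑ d ∈ s, algebraMap K Ω (H.coeff d) * (x ^ (α * d 0) * y ^ (β * d 1)) := by
      rw [← h1]
      have e1 : (Finsupp.single (1 : Fin 2) (k * α)) 0 = 0 := by simp
      have e2 : (Finsupp.single (1 : Fin 2) (k * α)) 1 = k * α := by simp
      rw [e1, e2, mul_zero, pow_zero, one_mul, mul_comm β]
    have h3 : ∑ d ∈ s, c d * (x ^ (α * d 0) * y ^ (β * d 1)) =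
        (algebraMap K Ω (H.coeff (Finsupp.single 1 (k * α))))⁻¹ *
          ∑ d ∈ s, algebraMap K Ω (H.coeff d) * (x ^ (α * d 0) * y ^ (β * d 1)) := by
      rw [Finset.mul_sum]
      refine Finset.sum_congr rfl fun d _ => ?_
      rw [hc]; field_simp
    rw [h3, ← mul_neg, ← h2, ← mul_assoc, inv_mul_cancel₀ h0', one_mul]
  obtain ⟨L, hL, hmem⟩ := exists_field ({x, y} ∪ c '' (s : Set (Fin 2 →₀ ℕ)))
    ((Set.toFinite _).union ((Finset.finite_toSet _).image c))
  obtain ⟨x', hx'⟩ := hmem x (by simp)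
  obtain ⟨y', hy'⟩ := hmem y (by simp)
  have h1 : ∀ d, ∃ b : L, d ∈ s → (b : Ω) = c d := by
    intro d
    by_cases hd : d ∈ s
    · obtain ⟨b, hb⟩ := hmem (c d) (Or.inr ⟨d, hd, rfl⟩)
      exact ⟨b, fun _ => hb⟩
    · exact ⟨0, fun h => absurd h hd⟩
  choose b hb using h1
  have hpos : (0 : ℝ) < Module.finrank ℚ L := by exact_mod_cast Module.finrank_pos
  have hrelL : y' ^ k0 = -∑ d ∈ s, b d * (x' ^ (α * d 0) * y' ^ (β * d 1)) := by
    apply Subtype.coe_injective
    push_cast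
    rw [hx', hy', hrel]
    congr 1
    exact Finset.sum_congr rfl fun d hd => by rw [hb d hd]
  have hA : (1 : ℝ) ≤ (s.card : ℝ) + 1 := by
    have : (0 : ℝ) ≤ s.card := Nat.cast_nonneg _
    linarith
  set z : Option (Fin 2 →₀ ℕ) → L := fun i => i.elim x' b with hz
  have hprod : ∀ v : L → ℝ, ∏ i ∈ Finset.insertNone s, max (v (z i)) 1 =
      (∏ d ∈ s, max (v (b d)) 1) * max (v x') 1 := by
    intro v
    rw [Finset.prod_insertNone]
    rw [mul_comm]
    rfl
  have hg := glob (Finset.insertNone s) z y' ((s.card : ℝ) + 1) hA (fun v => by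
      rw [hprod]
      refine local_wcone v.val s b (fun d => α * d 0) (fun d => β * d 1) hk00 hsd x' y' _ hA
        (fun z M hM hzM => ?_) hrelL
      refine (v.val.sum_le _ _).trans ?_
      refine (Finset.sum_le_sum hzM).trans ?_
      rw [Finset.sum_const, nsmul_eq_mul]
      nlinarith) (fun v => by
      rw [hprod]
      have hv : IsNonarchimedean (v.val : AbsoluteValue L ℝ) := fun x y => FinitePlace.add_le v x y
      have h2 := local_wcone v.val s b (fun d => α * d 0) (fun d => β * d 1) hk00 hsd x' y' 1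
        le_rfl (fun z M hM hzM => by
        rw [one_mul]
        rcases s.eq_empty_or_nonempty with h3 | h3
        · rw [h3, Finset.sum_empty, map_zero]; exact hM
        · obtain ⟨i, hi, hi'⟩ := hv.finset_image_add_of_nonempty z h3
          exact hi'.trans (hzM i hi)) hrelL
      rw [one_mul] at h2
      exact h2)
  have hsumz : ∑ i ∈ Finset.insertNone s, logHeight₁ (z i) =
      logHeight₁ x' + ∑ d ∈ s, logHeight₁ (b d) := by
    rw [Finset.sum_insertNone]
    rfl
  rw [hsumz] at hg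
  rw [← hx', ← hy', abs_coe, abs_coe]
  have hS : ∑ d ∈ s, absLogHeight₁ (c d) =
      (∑ d ∈ s, logHeight₁ (b d)) / Module.finrank ℚ L := by
    rw [Finset.sum_div]
    refine Finset.sum_congr rfl fun d hd => ?_
    rw [← hb d hd, abs_coe]
  rw [hS, div_le_iff₀ hpos]
  have e1 : (logHeight₁ x' / Module.finrank ℚ L + (Real.log ((s.card : ℝ) + 1) +
      (∑ d ∈ s, logHeight₁ (b d)) / Module.finrank ℚ L)) * Module.finrank ℚ L =
      logHeight₁ x' + (Module.finrank ℚ L * Real.log ((s.card : ℝ) + 1) +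
        ∑ d ∈ s, logHeight₁ (b d)) := by
    field_simp
  rw [e1]
  linarith

/-- **Heights.** -/
theorem height_wcone [IsAlgClosed Ω] (H : MvPolynomial (Fin 2) K) {α β k : ℕ} (hα : 0 < α)
    (hβ : 0 < β) (hk : 0 < k) (hdeg : ∀ d, k * α * β < α * d 0 + β * d 1 → H.coeff d = 0)
    (h0 : H.coeff (Finsupp.single 1 (k * α)) ≠ 0) :
    ∃ B : ℝ, 0 ≤ B ∧ ∀ x y : Ω, MvPolynomial.aeval ![x, y] H = 0 →
      α * absLogHeight₁ y ≤ β * absLogHeight₁ x + B := by
  obtain ⟨B, hB0, hB⟩ := height_wroot (Ω := Ω) H hα hβ hk hdeg h0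
  refine ⟨α * β * B, by positivity, fun x y hxy => ?_⟩
  obtain ⟨ξ, hξ⟩ := IsAlgClosed.exists_pow_nat_eq x hα
  obtain ⟨η, hη⟩ := IsAlgClosed.exists_pow_nat_eq y hβ
  rw [← hξ, ← hη] at hxy
  have h1 := hB ξ η hxy
  rw [← hξ, ← hη, UH.abs_pow, UH.abs_pow]
  have hαβ : (0 : ℝ) ≤ α * β := by positivity
  nlinarith [mul_le_mul_of_nonneg_left h1 hαβ]

end

end Pool.Agent.UHU
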