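import Pool.Agent.UHU.Cone
import Pool.Agent.UHU.Mono

/-!
# Plane curves whose reduction is a weighted form
-/

set_option autoImplicit false

open IsDedekindDomain NumberField Polynomial
open scoped WithZero

namespace Pool.Agent.UHU

open Pool.Agent.Arb.DB (u_ne)

/-- Give `X` the weight `α` and `Y` the weight `β`. The polynomial `H` has weighted degree
`k α β` and the monomials `X ^ (k β)` and `Y ^ (k α)` occur in it. -/
structure WForm {K : Type*} [Field K] (α β k : ℕ) (H : MvPolynomial (Fin 2) K) : Prop where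
  pos : 0 < k
  deg : ∀ d, k * α * β < α * d 0 + β * d 1 → H.coeff d = 0
  left : H.coeff (Finsupp.single 0 (k * β)) ≠ 0
  right : H.coeff (Finsupp.single 1 (k * α)) ≠ 0

/-- The reduction of `H` modulo the place `v` has no term of weighted degree less than `k α β`,
and is not zero. -/
structure FormAt {K : Type*} [Field K] [NumberField K] (v : HeightOneSpectrum (𝓞 K))
    (α β k : ℕ) (H : MvPolynomial (Fin 2) K) : Prop where
  integral : ∀ d, v.valuation K (H.coeff d) ≤ 1
  low : ∀ d, α * d 0 + β * d 1 < k * α * β → v.valuation K (H.coeff d) < 1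
  unit : ∃ d, v.valuation K (H.coeff d) = 1

variable {K : Type*} [Field K] [NumberField K]

/-- **Residues of bounded degree are roots of unity of bounded order**, for polynomials with a unit
coefficient. -/
theorem exists_order' (v : HeightOneSpectrum (𝓞 K)) {D : K[X]}
    (hunit : ∃ j, v.valuation K (D.coeff j) = 1) (hD : ∀ i, v.valuation K (D.coeff i) ≤ 1) :
    ∃ o : ℕ, 0 < o ∧ ∀ (E : Type*) [Field E] [Algebra K E]
      (w : Valuation E ℤᵐ⁰) (e : ℕ), 0 < e → (∀ x : K, v.valuation K x ^ e =
        w (algebraMap K E x)) → ∀ z : E, w z = 1 →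
        w ((D.map (algebraMap K E)).eval z) < 1 → w (z ^ o - 1) < 1 := by
  classical
  set s := D.support.filter fun j => v.valuation K (D.coeff j) = 1 with hs
  have hsne : s.Nonempty := by
    obtain ⟨j, hj⟩ := hunit
    refine ⟨j, ?_⟩
    rw [hs, Finset.mem_filter, mem_support_iff]
    refine ⟨fun h0 => ?_, hj⟩
    rw [h0, map_zero] at hj
    exact zero_ne_one hj
  obtain ⟨j, hjs, hjmax⟩ := s.exists_max_image id hsne
  have hj1 : v.valuation K (D.coeff j) = 1 := (Finset.mem_filter.mp hjs).2
  have hlarge : ∀ i, j < i → v.valuation K (D.coeff i) < 1 := by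
    intro i hi
    refine lt_of_le_of_ne (hD i) fun h1 => ?_
    have h2 : i ∈ s := by
      rw [hs, Finset.mem_filter, mem_support_iff]
      refine ⟨fun h0 => ?_, h1⟩
      rw [h0, map_zero] at h1
      exact zero_ne_one h1
    have h3 : i ≤ j := hjmax i h2
    omega
  set D' : K[X] := ∑ i ∈ Finset.range (j + 1), C (D.coeff i) * X ^ i with hD'
  have hDc : ∀ i, D'.coeff i = if i < j + 1 then D.coeff i else 0 := by
    intro i
    rw [hD', finsetSum_coeff]
    simp only [coeff_C_mul_X_pow]
    rw [Finset.sum_ite_eq (Finset.range (j + 1)) i]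
    simp only [Finset.mem_range]
  have hDd : D'.natDegree ≤ j := by
    rw [natDegree_le_iff_coeff_eq_zero]
    intro i hi
    rw [hDc, if_neg (by omega)]
  obtain ⟨o, ho, hord⟩ := exists_order v hDd (by rw [hDc, if_pos (by omega)]; exact hj1) (by
    intro i
    rw [hDc]
    split_ifs
    · exact hD i
    · rw [map_zero]; exact zero_le)
  refine ⟨o, ho, fun E _ _ w e he hw z hz hDz => hord E w e he hw z hz ?_⟩
  have h1 : w (((D - D').map (algebraMap K E)).eval z) < 1 := by
    rw [eval_eq_sum_range]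
    refine Valuation.map_sum_lt w one_ne_zero fun i _ => ?_
    rw [map_mul, map_pow, hz, one_pow, mul_one, coeff_map, ← hw, coeff_sub, hDc]
    refine pow_lt_one₀ zero_le ?_ (by omega)
    split_ifs with hi
    · rw [sub_self, map_zero]; exact zero_lt_one
    · rw [sub_zero]; exact hlarge i (by omega)
  have e1 : (D'.map (algebraMap K E)).eval z = (D.map (algebraMap K E)).eval z -
      ((D - D').map (algebraMap K E)).eval z := by
    rw [Polynomial.map_sub, eval_sub]; ring
  rw [e1]
  exact Valuation.map_sub_lt w hDz h1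

/-- **The ratio of the roots of the coordinates outside the unit disc** is a root of unity of
bounded order, modulo the maximal ideal, if the absolute values are the same. -/
theorem FormAt.ratio {v : HeightOneSpectrum (𝓞 K)} {α β k : ℕ} (hβ : 0 < β) (hα : 0 < α)
    {H : MvPolynomial (Fin 2) K} (hW : WForm α β k H)
    (h : FormAt v α β k H) : ∃ o : ℕ, 0 < o ∧ ∀ (E : Type*) [Field E] [Algebra K E]
      (w : Valuation E ℤᵐ⁰) (e : ℕ), 0 < e → (∀ a : K, v.valuation K a ^ e =
        w (algebraMap K E a)) → ∀ x y : E, 1 ≤ w y → w x = w y →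
        MvPolynomial.aeval ![x ^ α, y ^ β] H = 0 → w ((x / y) ^ o - 1) < 1 := by
  classical
  set u := v.valuation K with hu
  set k0 := k * α * β with hk0
  set S := H.support.filter fun d => α * d 0 + β * d 1 = k0 with hS
  set D : K[X] := ∑ d ∈ S, C (H.coeff d) * X ^ (β * d 1) with hD
  have hDc : ∀ i, D.coeff i = ∑ d ∈ S, if i = β * d 1 then H.coeff d else 0 := by
    intro i
    rw [hD, finsetSum_coeff]
    refine Finset.sum_congr rfl fun d _ => ?_
    rw [coeff_C_mul_X_pow]
  have hDint : ∀ i, u (D.coeff i) ≤ 1 := by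
    intro i
    rw [hDc]
    refine Valuation.map_sum_le u fun d _ => ?_
    split_ifs
    · exact h.integral d
    · rw [map_zero]; exact zero_le
  have hunit : ∃ j, u (D.coeff j) = 1 := by
    obtain ⟨d, hd⟩ := h.unit
    have hd0 : H.coeff d ≠ 0 := by
      intro h0
      rw [h0, map_zero] at hd
      exact zero_ne_one hd
    have hdS : d ∈ S := by
      rw [hS, Finset.mem_filter, MvPolynomial.mem_support_iff]
      refine ⟨hd0, ?_⟩
      rcases lt_trichotomy (α * d 0 + β * d 1) k0 with h1 | h1 | h1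
      · exact absurd hd (h.low d h1).ne
      · exact h1
      · exact absurd (hW.deg d h1) hd0
    refine ⟨β * d 1, ?_⟩
    rw [hDc, Finset.sum_eq_single d]
    · rw [if_pos rfl]
      exact hd
    · intro d' hd' hne
      rw [if_neg]
      intro hk
      apply hne
      have h1 := (Finset.mem_filter.mp hd').2
      have h2 := (Finset.mem_filter.mp hdS).2
      have h3 : d 1 = d' 1 := Nat.eq_of_mul_eq_mul_left hβ hk
      have h4 : α * d' 0 = α * d 0 := by omega
      exact finsupp_two_ext (Nat.eq_of_mul_eq_mul_left hα h4) h3.symm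
    · intro hn
      exact absurd hdS hn
  obtain ⟨o, ho, hord⟩ := exists_order' v hunit hDint
  refine ⟨o, ho, ?_⟩
  intro E _ _ w e he hw x y hy hval hxy
  have hx : 1 ≤ w x := by rw [hval]; exact hy
  have hx0 : x ≠ 0 := by rintro rfl; rw [map_zero] at hx; exact absurd zero_lt_one (not_lt.mpr hx)
  have hy0 : y ≠ 0 := by rintro rfl; rw [map_zero] at hy; exact absurd zero_lt_one (not_lt.mpr hy)
  have hwx : 0 < w x := zero_lt_one.trans_le hx
  have hwy : 0 < w y := zero_lt_one.trans_le hy
  have hlow : ∀ d, α * d 0 + β * d 1 < k0 → w (algebraMap K E (H.coeff d)) < 1 := fun d hd => by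
    rw [← hw]; exact pow_lt_one₀ zero_le (h.low d hd) (by omega)
  have hdeg : ∀ d ∈ H.support, α * d 0 + β * d 1 ≤ k0 := by
    intro d hd
    by_contra hcon
    exact (MvPolynomial.mem_support_iff.mp hd) (hW.deg d (by omega))
  rw [aeval_two] at hxy
  simp only [← pow_mul] at hxy
  -- the ratio
  set z := y / x with hz
  have hwz : w z = 1 := by rw [hz, map_div₀, hval, div_self hwy.ne']
  have hDz : w ((D.map (algebraMap K E)).eval z) < 1 := by
    have e1 : x ^ k0 * (D.map (algebraMap K E)).eval z =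
        ∑ d ∈ S, algebraMap K E (H.coeff d) * (x ^ (α * d 0) * y ^ (β * d 1)) := by
      rw [hD, Polynomial.map_sum, eval_finsetSum, Finset.mul_sum]
      refine Finset.sum_congr rfl fun d hd => ?_
      have h1 := (Finset.mem_filter.mp hd).2
      rw [Polynomial.map_mul, map_C, Polynomial.map_pow, map_X, eval_mul, eval_C, eval_pow,
        eval_X, hz, div_pow, ← h1, pow_add]
      field_simp
    have e2 : ∑ d ∈ S, algebraMap K E (H.coeff d) * (x ^ (α * d 0) * y ^ (β * d 1)) =
        -∑ d ∈ H.support.filter (fun d => ¬ α * d 0 + β * d 1 = k0),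
          algebraMap K E (H.coeff d) * (x ^ (α * d 0) * y ^ (β * d 1)) := by
      rw [← Finset.sum_filter_add_sum_filter_not H.support
        (fun d => α * d 0 + β * d 1 = k0)] at hxy
      exact eq_neg_of_add_eq_zero_left hxy
    have h2 : w (x ^ k0 * (D.map (algebraMap K E)).eval z) < w x ^ k0 := by
      rw [e1, e2, Valuation.map_neg]
      refine Valuation.map_sum_lt w (pow_ne_zero _ hwx.ne') fun d hd => ?_
      obtain ⟨hd1, hd2⟩ := Finset.mem_filter.mp hd
      have h3 : α * d 0 + β * d 1 < k0 := lt_of_le_of_ne (hdeg d hd1) hd2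
      rw [map_mul, map_mul, map_pow, map_pow, ← hval, ← pow_add]
      calc w (algebraMap K E (H.coeff d)) * w x ^ (α * d 0 + β * d 1) <
            1 * w x ^ (α * d 0 + β * d 1) :=
            mul_lt_mul_of_pos_right (hlow d h3) (pow_pos hwx _)
        _ = w x ^ (α * d 0 + β * d 1) := one_mul _
        _ ≤ w x ^ k0 := pow_le_pow_right₀ hx h3.le
    rw [map_mul, map_pow] at h2
    by_contra hcon
    push Not at hcon
    exact absurd h2 (not_lt.mpr (le_mul_of_one_le_right zero_le hcon))
  have h1 := hord E w e he hw z hwz hDz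
  have hz0 : z ≠ 0 := div_ne_zero hy0 hx0
  have e3 : (x / y) ^ o - 1 = -(z ^ o - 1) / z ^ o := by
    have : x / y = z⁻¹ := by rw [hz, inv_div]
    rw [this, inv_pow, eq_div_iff (pow_ne_zero _ hz0), sub_mul, inv_mul_cancel₀ (pow_ne_zero _ hz0)]
    ring
  rw [e3, map_div₀, Valuation.map_neg, map_pow, hwz, one_pow, div_one]
  exact h1

/-- Units of `K` are roots of unity of bounded order modulo `v`. -/
theorem exists_unit_order (v : HeightOneSpectrum (𝓞 K)) :
    ∃ o : ℕ, 0 < o ∧ ∀ a : K, v.valuation K a = 1 → v.valuation K (a ^ o - 1) < 1 := by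
  have hvmax : v.asIdeal.IsMaximal := v.isMaximal
  let _ : Field (𝓞 K ⧸ v.asIdeal) := Ideal.Quotient.field v.asIdeal
  have hfin : Finite (𝓞 K ⧸ v.asIdeal) := Ideal.finiteQuotientOfFreeOfNeBot _ v.ne_bot
  let _ : Fintype (𝓞 K ⧸ v.asIdeal) := Fintype.ofFinite _
  have hcard : 0 < Fintype.card (𝓞 K ⧸ v.asIdeal) - 1 := by
    have := Fintype.one_lt_card (α := 𝓞 K ⧸ v.asIdeal)
    omega
  refine ⟨Fintype.card (𝓞 K ⧸ v.asIdeal) - 1, hcard, fun a ha => ?_⟩
  obtain ⟨b, hb⟩ := v.exists_valuation_sub_lt_of_integer (x := a) ha.le 1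
  have hb1 : v.valuation K (algebraMap (𝓞 K) K b - a) < 1 := by simpa using hb
  have hcl' : Pool.Agent.UHT.Cl (v.valuation K) (algebraMap (𝓞 K) K b) a := by
    unfold Pool.Agent.UHT.Cl
    rw [ha]
    exact hb1
  have hbv : v.valuation K (algebraMap (𝓞 K) K b) = 1 := hcl'.val.trans ha
  have hb0 : Ideal.Quotient.mk v.asIdeal b ≠ 0 := by
    intro h0
    rw [Ideal.Quotient.eq_zero_iff_mem, ← v.valuation_lt_one_iff_mem (K := K), hbv] at h0
    exact lt_irrefl _ h0
  have h1 := FiniteField.pow_card_sub_one_eq_one (Ideal.Quotient.mk v.asIdeal b) hb0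
  set o := Fintype.card (𝓞 K ⧸ v.asIdeal) - 1 with ho
  have h2 : v.valuation K (algebraMap (𝓞 K) K b ^ o - 1) < 1 := by
    have e1 : algebraMap (𝓞 K) K b ^ o - 1 = algebraMap (𝓞 K) K (b ^ o - 1) := by
      rw [map_sub, map_pow, map_one]
    rw [e1, v.valuation_lt_one_iff_mem, ← Ideal.Quotient.eq_zero_iff_mem, map_sub, map_pow, h1,
      map_one, sub_self]
  have h3 := hcl'.symm.pow o
  unfold Pool.Agent.UHT.Cl at h3
  rw [map_pow, hbv, one_pow] at h3
  have e2 : a ^ o - 1 = (a ^ o - algebraMap (𝓞 K) K b ^ o) + (algebraMap (𝓞 K) K b ^ o - 1) := by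
    ring
  rw [e2]
  exact Valuation.map_add_lt _ h3 h2

end Pool.Agent.UHU
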