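import Pool.Agent.UHU.Main
import Pool.Agent.UHU.WEngine
import Pool.Agent.UHU.WBalance
import Pool.Agent.UHU.WInner

/-!
# Tame reduction to a power map, any degree, curves whose reduction is a weighted form
-/

set_option autoImplicit false

universe u

open IsDedekindDomain NumberField Polynomial
open scoped WithZero

namespace Pool.Agent.UHU

open Pool.Agent.UHG (st st_iter map_st map_iter_st IsNonverticalCurve points hyp aeval_pair)
open Pool.Agent.UH2 (aeval_fun)
open Pool.Agent.UHT (Cl)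
open Pool.Agent.UHJ (eval_iter)
open Pool.Agent.Arb.DB (u_ne)

/-- The product of two elements close to one. -/
theorem mul_sub_one_lt {F : Type*} [Field F] {w : Valuation F ℤᵐ⁰} {a b : F} (ha : w a = 1)
    (h1 : w (a - 1) < 1) (h2 : w (b - 1) < 1) : w (a * b - 1) < 1 := by
  have e : a * b - 1 = a * (b - 1) + (a - 1) := by ring
  rw [e]
  refine Valuation.map_add_lt w ?_ h1
  rw [map_mul, ha, one_mul]
  exact h2

/-- The ratio of `f^r(X)` and `g(f^r(Y))`. -/
theorem ratio_wpair {F : Type*} [Field F] {w : Valuation F ℤᵐ⁰} {Q D : ℕ} {G g : F[X]}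
    (hG : PR w Q G) (hg : PR w D g) (hQ : 1 ≤ Q) (hD : 1 ≤ D) {a b : ℕ} (hb : 0 < b)
    (hab : D * b = a) {o o1 : ℕ} {ξ η : F}
    (hord : 1 ≤ w η → w ξ = w η → w ((ξ / η) ^ o - 1) < 1)
    (hκ : w ((G.coeff Q / (g.coeff D * G.coeff Q ^ D)) ^ o1 - 1) < 1)
    (hx : 1 ≤ w (G.eval (ξ ^ a))) (hy : 1 ≤ w (g.eval (G.eval (η ^ b))))
    (hxy : w (G.eval (ξ ^ a) / g.eval (G.eval (η ^ b))) = 1) :
    w ((G.eval (ξ ^ a) / g.eval (G.eval (η ^ b))) ^ (o * o1) - 1) < 1 := by
  have ha : 0 < a := by rw [← hab]; exact Nat.mul_pos hD hb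
  have hX : 1 ≤ w (ξ ^ a) := by
    by_contra hcon
    push Not at hcon
    exact absurd hx (not_le.mpr (hG.small hQ hcon))
  have hGY : 1 ≤ w (G.eval (η ^ b)) := by
    by_contra hcon
    push Not at hcon
    exact absurd hy (not_le.mpr (hg.small hD hcon))
  have hY : 1 ≤ w (η ^ b) := by
    by_contra hcon
    push Not at hcon
    exact absurd hGY (not_le.mpr (hG.small hQ hcon))
  have hξ : 1 ≤ w ξ := by
    by_contra hcon
    push Not at hcon
    rw [map_pow] at hX
    exact absurd hX (not_le.mpr (pow_lt_one₀ zero_le hcon (by omega)))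
  have hη : 1 ≤ w η := by
    by_contra hcon
    push Not at hcon
    rw [map_pow] at hY
    exact absurd hY (not_le.mpr (pow_lt_one₀ zero_le hcon (by omega)))
  have hwξη : w ξ = w η := by
    have e1 : w (G.eval (ξ ^ a)) = w ξ ^ (a * Q) := by rw [hG.val hX, map_pow, ← pow_mul]
    have e2 : w (g.eval (G.eval (η ^ b))) = w η ^ (a * Q) := by
      rw [hg.val hGY, hG.val hY, map_pow, ← pow_mul, ← pow_mul, ← hab]
      congr 1
      ring
    have h0 : w (g.eval (G.eval (η ^ b))) ≠ 0 := (zero_lt_one.trans_le hy).ne'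
    have e3 : w (G.eval (ξ ^ a)) = w (g.eval (G.eval (η ^ b))) := by
      rw [map_div₀] at hxy
      exact (div_eq_one_iff_eq h0).mp hxy
    rw [e1, e2] at e3
    exact (pow_left_inj₀ zero_le zero_le (Nat.mul_pos ha hQ).ne').mp e3
  have hr1 : w (ξ / η) = 1 := by
    rw [map_div₀, hwξη, div_self (zero_lt_one.trans_le hη).ne']
  have hr2 := hord hη hwξη
  set A := G.coeff Q with hAdef
  set B := g.coeff D with hBdef
  have hA : w A = 1 := hG.lead
  have hB : w B = 1 := hg.lead
  have ne0 : ∀ z : F, w z = 1 → z ≠ 0 := by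
    intro z hz h0
    rw [h0, map_zero] at hz
    exact zero_ne_one hz
  have hA0 := ne0 A hA
  have hB0 := ne0 B hB
  have ne1 : ∀ z : F, 1 ≤ w z → z ≠ 0 := by
    intro z hz h0
    rw [h0, map_zero] at hz
    exact absurd zero_lt_one (not_lt.mpr hz)
  have hξ0 := ne1 ξ hξ
  have hη0 := ne1 η hη
  have cl1 : Cl w (G.eval (ξ ^ a)) (A * (ξ ^ a) ^ Q) := (hG.far hX).cl hG.deg (by rw [map_one])
  have cl2 : Cl w (G.eval (η ^ b)) (A * (η ^ b) ^ Q) := (hG.far hY).cl hG.deg (by rw [map_one])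
  have cl3 : Cl w (g.eval (G.eval (η ^ b))) (B * (G.eval (η ^ b)) ^ D) :=
    (hg.far hGY).cl hg.deg (by rw [map_one])
  have cl4 : Cl w (g.eval (G.eval (η ^ b))) (B * (A * (η ^ b) ^ Q) ^ D) :=
    cl3.trans ((Cl.refl hB0).mul (cl2.pow D))
  have cl5 := cl_div cl1 cl4
  have e1 : A * (ξ ^ a) ^ Q / (B * (A * (η ^ b) ^ Q) ^ D) =
      (A / (B * A ^ D)) * (ξ / η) ^ (a * Q) := by
    have e2 : ((η ^ b) ^ Q) ^ D = η ^ (a * Q) := by
      rw [← pow_mul, ← pow_mul, ← hab]
      congr 1
      ring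
    rw [mul_pow, e2, div_pow, ← pow_mul]
    field_simp
  rw [e1] at cl5
  have cl6 := cl5.pow (o * o1)
  set κ := A / (B * A ^ D) with hκdef
  have hκ1 : w κ = 1 := by
    rw [hκdef, map_div₀, map_mul, map_pow, hA, hB, one_pow, one_mul, div_one]
  have hp1 : w (κ * (ξ / η) ^ (a * Q)) = 1 := by
    rw [map_mul, map_pow, hκ1, hr1, one_pow, one_mul]
  have h1 : w ((κ * (ξ / η) ^ (a * Q)) ^ (o * o1) - 1) < 1 := by
    have e3 : (κ * (ξ / η) ^ (a * Q)) ^ (o * o1) =
        κ ^ (o1 * o) * (ξ / η) ^ (o * (a * Q * o1)) := by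
      rw [mul_pow, ← pow_mul, mul_comm o o1]
      congr 2
      ring
    rw [e3]
    exact mul_sub_one_lt (by rw [map_pow, hκ1, one_pow]) (unit_pow_sub_mul hκ1 hκ _)
      (unit_pow_sub_mul hr1 hr2 _)
  unfold Cl at cl6
  rw [map_pow w (κ * (ξ / η) ^ (a * Q)), hp1, one_pow] at cl6
  have e4 : (G.eval (ξ ^ a) / g.eval (G.eval (η ^ b))) ^ (o * o1) - 1 =
      ((G.eval (ξ ^ a) / g.eval (G.eval (η ^ b))) ^ (o * o1) -
        (κ * (ξ / η) ^ (a * Q)) ^ (o * o1)) + ((κ * (ξ / η) ^ (a * Q)) ^ (o * o1) - 1) := by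
    ring
  rw [e4]
  exact Valuation.map_add_lt w cl6 h1

/-- **The degree bound for one pair of coordinates.** -/
theorem pair_wcone {K : Type u} [Field K] [NumberField K] (f : K[X]) (hq : 2 ≤ f.natDegree)
    (hcrit : IsCoprime (f - X) f.derivative) {n : ℕ} (I : Ideal (MvPolynomial (Fin n) K))
    (m : ℕ) (hm : 0 < m) (i j : Fin n) (v : HeightOneSpectrum (𝓞 K)) (hf : TamePower v f)
    {a b k : ℕ} (ha : 0 < a) (hb : 0 < b) {H : MvPolynomial (Fin 2) K} (hW : WForm a b k H)
    (hH : FormAt v a b k H)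
    (hHI : MvPolynomial.aeval ![(MvPolynomial.X i : MvPolynomial (Fin n) K),
      MvPolynomial.X j] H ∈ I) :
    ∃ C0 : ℕ, ∀ (E : IntermediateField K (AlgebraicClosure K)) [FiniteDimensional K E]
      (P : Fin n → AlgebraicClosure K), P ∈ points I → ∀ g : K[X],
      1 ≤ g.natDegree → g.natDegree * b = a →
      g.comp (f.comp^[m] X) = (f.comp^[m] X).comp g → ∀ r : ℕ, r < m →
      ∀ (x y : E), (x : AlgebraicClosure K) = (st f)^[r] (P i) →
      (y : AlgebraicClosure K) = st g ((st f)^[r] (P j)) → ∀ N : ℕ,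
      (st f)^[N + 1] x = (st f)^[N + 1] y → (st f)^[N] x ≠ (st f)^[N] y →
        f.natDegree ^ N ≤ C0 * Module.finrank K E := by
  classical
  set q := f.natDegree with hqdef
  obtain ⟨o, ho, hord⟩ := hH.ratio hb ha hW
  obtain ⟨o1, ho1, hord1⟩ := exists_unit_order v
  have hqm : 2 ≤ q ^ m := by
    calc 2 ≤ q := hq
      _ = q ^ 1 := (pow_one q).symm
      _ ≤ q ^ m := Nat.pow_le_pow_right (by omega) hm
  have hqmv : v.valuation K ((q ^ m : ℕ) : K) = 1 := by
    rw [Nat.cast_pow, map_pow, hf.tame, one_pow]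
  obtain ⟨C1, hC1, hcol⟩ := collision_wcone.{u, u} f hq v hf.pr hf.tame hcrit
    (o := o * o1) (Nat.mul_pos ho ho1)
  refine ⟨C1, ?_⟩
  intro E _ P hP g hg hgD hc r _ x y hx hy N heq hne
  have hNF : NumberField E := NumberField.of_module_finite K E
  refine hcol E x y ?_ N heq hne
  intro W e he hw hx1 hy1 hxy1
  obtain ⟨ξ, hξ⟩ := IsAlgClosed.exists_pow_nat_eq (P i) ha
  obtain ⟨η, hη⟩ := IsAlgClosed.exists_pow_nat_eq (P j) hb
  set E' := IntermediateField.adjoin E (insert ξ (insert η (Set.range P))) with hE'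
  have hfd : FiniteDimensional E E' := IntermediateField.finiteDimensional_adjoin
    fun z _ => (Algebra.IsAlgebraic.isAlgebraic z).isIntegral
  have hNF' : NumberField E' := NumberField.of_module_finite E E'
  obtain ⟨W', e', he', _, hw'⟩ := Arb.exists_above W E'
  have hmem : ∀ l, P l ∈ E' := fun l => IntermediateField.subset_adjoin E _
    (Set.mem_insert_of_mem _ (Set.mem_insert_of_mem _ ⟨l, rfl⟩))
  set P' : Fin n → E' := fun l => ⟨P l, hmem l⟩ with hP'
  set ξ' : E' := ⟨ξ, IntermediateField.subset_adjoin E _ (Set.mem_insert _ _)⟩ with hξ'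
  set η' : E' := ⟨η, IntermediateField.subset_adjoin E _
    (Set.mem_insert_of_mem _ (Set.mem_insert _ _))⟩ with hη'
  have hPi : P' i = ξ' ^ a := by
    apply Subtype.coe_injective
    push_cast
    exact hξ.symm
  have hPj : P' j = η' ^ b := by
    apply Subtype.coe_injective
    push_cast
    exact hη.symm
  set φ : E' →ₐ[K] AlgebraicClosure K := E'.val.restrictScalars K with hφ
  have hφinj : Function.Injective φ := φ.injective
  have hφP : ∀ l, φ (P' l) = P l := fun l => rfl
  have hcomp : (MvPolynomial.aeval P : MvPolynomial (Fin n) K →ₐ[K] AlgebraicClosure K) =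
      φ.comp (MvPolynomial.aeval P') := by
    apply MvPolynomial.algHom_ext
    intro l
    rw [AlgHom.comp_apply, MvPolynomial.aeval_X, MvPolynomial.aeval_X, hφP]
  have hPE : ∀ G ∈ I, MvPolynomial.aeval P' G = 0 := by
    intro G hG
    apply hφinj
    rw [map_zero]
    exact (DFunLike.congr_fun hcomp G).symm.trans (hP G hG)
  have hpow : ∀ a : K, v.valuation K a ^ (e * e') =
      W'.valuation E' (algebraMap K E' a) := by
    intro a
    rw [pow_mul, hw, hw', ← IsScalarTower.algebraMap_apply K E E']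
  have hee : 0 < e * e' := by positivity
  have hHP : MvPolynomial.aeval ![ξ' ^ a, η' ^ b] H = 0 := by
    have h1 := hPE _ hHI
    rw [← aeval_pair (MvPolynomial.aeval P'), MvPolynomial.aeval_X, MvPolynomial.aeval_X, hPi,
      hPj] at h1
    exact h1
  have ex : (st f)^[r] (P' i) = algebraMap E E' x := by
    apply hφinj
    rw [map_iter_st, hφP, ← hx]
    rfl
  have ey : st g ((st f)^[r] (P' j)) = algebraMap E E' y := by
    apply hφinj
    rw [map_st, map_iter_st, hφP, ← hy]
    rfl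
  -- the polynomials
  obtain ⟨hGpr, hGd⟩ := hf.pr.iter rfl r
  obtain ⟨hFpr, hFd⟩ := hf.pr.iter rfl m
  have hgpr : PR (v.valuation K) g.natDegree g := PR.of_comm hqm hFd hFpr hqmv hg hc
  set G := f.comp^[r] X with hGdef
  set G2 := G.map (algebraMap K E') with hG2
  set g2 := g.map (algebraMap K E') with hg2
  have hG2pr : PR (W'.valuation E') (q ^ r) G2 := hGpr.base hee hpow
  have hg2pr : PR (W'.valuation E') g.natDegree g2 := hgpr.base hee hpow
  have hstf : ∀ z : E', (st f)^[r] z = G2.eval z := by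
    intro z
    rw [← st_iter]
    change aeval z G = _
    rw [hG2, eval_map_algebraMap]
  have hstg : ∀ z : E', st g z = g2.eval z := fun z => by rw [hg2, eval_map_algebraMap]
  have h1 : W'.valuation E' (algebraMap E E' x) = W.valuation E x ^ e' := (hw' x).symm
  have h2 : W'.valuation E' (algebraMap E E' y) = W.valuation E y ^ e' := (hw' y).symm
  rw [hstf, hPi] at ex
  rw [hstg, hstf, hPj] at ey
  have hκK : v.valuation K ((G.coeff (q ^ r) / (g.coeff g.natDegree *
      G.coeff (q ^ r) ^ g.natDegree)) ^ o1 - 1) < 1 := by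
    apply hord1
    rw [map_div₀, map_mul, map_pow, hGpr.lead, hgpr.lead, one_pow, one_mul, div_one]
  have hκ : W'.valuation E' ((G2.coeff (q ^ r) / (g2.coeff g.natDegree *
      G2.coeff (q ^ r) ^ g.natDegree)) ^ o1 - 1) < 1 := by
    rw [hG2, hg2, coeff_map, coeff_map, ← map_pow, ← map_mul, ← map_div₀, ← map_pow,
      ← map_one (algebraMap K E'), ← map_sub, ← hpow]
    exact pow_lt_one₀ zero_le hκK (by omega)
  have h3 := ratio_wpair (w := W'.valuation E') hG2pr hg2pr (Nat.one_le_pow _ _ (by omega)) hg hb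
    hgD (o := o) (o1 := o1) (ξ := ξ') (η := η')
    (fun hY hXY => hord E' (W'.valuation E') (e * e') hee hpow _ _ hY hXY hHP) hκ
    (by rw [ex, h1]; exact one_le_pow₀ hx1)
    (by rw [ey, h2]; exact one_le_pow₀ hy1)
    (by rw [ex, ey, ← map_div₀, ← hw', hxy1, one_pow])
  rw [ex, ey] at h3
  have e3 : (algebraMap E E' x / algebraMap E E' y) ^ (o * o1) - 1 =
      algebraMap E E' ((x / y) ^ (o * o1) - 1) := by
    rw [map_sub, map_pow, map_div₀, map_one]
  rw [e3, ← hw'] at h3
  by_contra hcon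
  push Not at hcon
  exact absurd h3 (not_lt.mpr (one_le_pow₀ hcon))

/-- **Uniform height bound, curves whose reduction is a weighted form, any degree.** -/
theorem main_wform {K : Type u} [Field K] [NumberField K] (f : K[X]) (hq : 2 ≤ f.natDegree)
    (hcrit : IsCoprime (f - X) f.derivative) (m : ℕ) (hm : 0 < m) (n : ℕ)
    (I : Ideal (MvPolynomial (Fin n) K)) (hI : IsNonverticalCurve I)
    (α : Fin n → ℕ) (hα : ∀ i, 0 < α i)
    (h : ∀ i j : Fin n, i ≠ j → ∃ (k : ℕ) (H : MvPolynomial (Fin 2) K),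
      WForm (α i) (α j) k H ∧
      MvPolynomial.aeval ![(MvPolynomial.X i : MvPolynomial (Fin n) K),
        MvPolynomial.X j] H ∈ I ∧
      ((∃ g : K[X], g.natDegree * α j = α i ∧
        g.comp (f.comp^[m] X) = (f.comp^[m] X).comp g) →
        ∃ v : HeightOneSpectrum (𝓞 K), TamePower v f ∧ FormAt v (α i) (α j) k H)) :
    ∃ B : ℝ, ∀ k : ℕ, ∀ V ∈ hyp f m n k, ¬ points I ⊆ V → ∀ P ∈ points I ∩ V,
      ∑ i, absLogHeight₁ (P i) ≤ B := by
  classical
  have halg : Algebra.IsAlgebraic ℚ (AlgebraicClosure K) := Algebra.IsAlgebraic.trans ℚ K _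
  apply main_wbal f hq m hm n I hI α hα
  · -- heights
    have key : ∀ i j : Fin n, ∃ B : ℝ, 0 ≤ B ∧ ∀ P ∈ points I,
        α i * absLogHeight₁ (P j) ≤ α j * absLogHeight₁ (P i) + B := by
      intro i j
      by_cases hij : i = j
      · subst hij
        exact ⟨0, le_rfl, fun P _ => by linarith⟩
      · obtain ⟨k, H, hW, hHI, _⟩ := h i j hij
        obtain ⟨B, hB0, hB⟩ := height_wcone (Ω := AlgebraicClosure K) H (hα i) (hα j) hW.pos
          hW.deg hW.right
        refine ⟨B, hB0, fun P hP => hB _ _ ?_⟩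
        have h1 := hP _ hHI
        rw [← aeval_pair (MvPolynomial.aeval P), MvPolynomial.aeval_X, MvPolynomial.aeval_X] at h1
        exact h1
    choose B hB0 hB using key
    refine ⟨∑ i, ∑ j, B i j, Finset.sum_nonneg fun i _ => Finset.sum_nonneg fun j _ => hB0 i j,
      fun P hP i j => ?_⟩
    have h1 := hB i j P hP
    have h2 : B i j ≤ ∑ i, ∑ j, B i j := (Finset.single_le_sum (f := B i) (fun j _ => hB0 i j)
      (Finset.mem_univ j)).trans (Finset.single_le_sum (f := fun i => ∑ j, B i j)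
      (fun i _ => Finset.sum_nonneg fun j _ => hB0 i j) (Finset.mem_univ i))
    linarith
  · -- degrees
    have key : ∀ i j : Fin n, ∃ C0 : ℕ, i ≠ j →
        ∀ (E : IntermediateField K (AlgebraicClosure K)) [FiniteDimensional K E]
        (P : Fin n → AlgebraicClosure K), P ∈ points I → ∀ g : K[X],
        1 ≤ g.natDegree → g.natDegree * α j = α i →
        g.comp (f.comp^[m] X) = (f.comp^[m] X).comp g → ∀ r : ℕ, r < m →
        ∀ (x y : E), (x : AlgebraicClosure K) = (st f)^[r] (P i) →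
        (y : AlgebraicClosure K) = st g ((st f)^[r] (P j)) → ∀ N : ℕ,
        (st f)^[N + 1] x = (st f)^[N + 1] y → (st f)^[N] x ≠ (st f)^[N] y →
          f.natDegree ^ N ≤ C0 * Module.finrank K E := by
      intro i j
      by_cases hij : i = j
      · exact ⟨0, fun hne => absurd hij hne⟩
      · obtain ⟨k, H, hW, hHI, hg⟩ := h i j hij
        by_cases hex : ∃ g : K[X], g.natDegree * α j = α i ∧
            g.comp (f.comp^[m] X) = (f.comp^[m] X).comp g
        · obtain ⟨v, hf, hH⟩ := hg hex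
          obtain ⟨C0, hC0⟩ := pair_wcone f hq hcrit I m hm i j v hf (hα i) (hα j) hW hH hHI
          exact ⟨C0, fun _ => hC0⟩
        · exact ⟨0, fun _ _ _ _ _ g _ hgD hc => absurd ⟨g, hgD, hc⟩ hex⟩
    choose C hC using key
    refine ⟨∑ i, ∑ j, C i j, ?_⟩
    intro E _ P hP i j hij g hg hgD hc r hr x y hx hy N heq hne
    refine (hC i j hij E P hP g hg hgD hc r hr x y hx hy N heq hne).trans
      (Nat.mul_le_mul_right _ ?_)
    exact (Finset.single_le_sum (f := fun j => C i j) (fun j _ => Nat.zero_le _)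
      (Finset.mem_univ j)).trans (Finset.single_le_sum (f := fun i => ∑ j, C i j)
        (fun i _ => Nat.zero_le _) (Finset.mem_univ i))

end Pool.Agent.UHU
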